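import Mathlib

/-!
# MP_3d3918_nt: definitions common to the two hand-ins

`K` is a field, `AlgebraicClosure K` its algebraic closure; finite extensions of `K` are taken
inside the algebraic closure. Absolute values of the algebraic closure stand for places.
-/

set_option autoImplicit false

open Filter Topology Polynomial

namespace Pool.Agent.MP_3d3918

/-- A finitely generated subring. -/
def FG {K : Type} [Field K] (R : Subring K) : Prop :=
  ∃ s : Finset K, Subring.closure (s : Set K) = R

/-- The transcendence degree of `K` over the rationals, that is the dimension of the base. -/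
noncomputable def dim (K : Type) [Field K] [CharZero K] : ℕ :=
  Cardinal.toNat (Algebra.trdeg ℚ K)

section

variable {K : Type} [Field K]

/-- `Gal(N F / F)`, as the group of the restrictions to `N` of the automorphisms which fix `F`. -/
noncomputable def relGal (N F : IntermediateField K (AlgebraicClosure K)) [Normal K N] :
    Subgroup Gal(N/K) :=
  F.fixingSubgroup.map (AlgEquiv.restrictNormalHom N)

/-- `τ` lies in the closure of the group generated by `σ`: it fixes every element fixed by `σ`. -/
def InClosure (σ τ : Gal(AlgebraicClosure K/K)) : Prop := ∀ x, σ x = x → τ x = x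

/-- `M ⊆ N`, `F ⊆ N`, the group `Gal(N / F)` is cyclic and contains the restriction of `σ`, and
`F ∩ M` is the subfield of `M` fixed by `σ`. -/
def CyclicPair (σ : Gal(AlgebraicClosure K/K)) (M N F : IntermediateField K (AlgebraicClosure K))
    [Normal K N] : Prop :=
  M ≤ N ∧ F ≤ N ∧ IsCyclic (relGal N F) ∧ (∀ x ∈ F, σ x = x) ∧ ∀ x ∈ M, σ x = x → x ∈ F

/-- `P` holds for all large fields of cyclic type which are fixed by `σ`: there is a finite Galois
extension `M` such that `P F` holds for all fields `F` with the following property for some finite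
Galois extension `N` of `K` which contains `M` and `F`: the group `Gal(N / F)` is cyclic and
contains the restriction of `σ`, and `F ∩ M` is the subfield of `M` fixed by `σ`. -/
def Ev (P : IntermediateField K (AlgebraicClosure K) → Prop)
    (σ : Gal(AlgebraicClosure K/K)) : Prop :=
  ∃ (M : IntermediateField K (AlgebraicClosure K)) (_ : IsGalois K M), FiniteDimensional K M ∧
    ∀ (N : IntermediateField K (AlgebraicClosure K)) (_ : IsGalois K N),
      FiniteDimensional K N → ∀ F : IntermediateField K (AlgebraicClosure K),
        CyclicPair σ M N F → P F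

/-- `σ` preserves the absolute value `v₀`, and no element of the closure of `⟨σ⟩` except `1`
preserves a nontrivial absolute value which is not equivalent to `v₀`. -/
def OnlyPlace (σ : Gal(AlgebraicClosure K/K)) (v₀ : AbsoluteValue (AlgebraicClosure K) ℝ) : Prop :=
  (∀ x, v₀ (σ x) = v₀ x) ∧
    ∀ w : AbsoluteValue (AlgebraicClosure K) ℝ, w.IsNontrivial → ¬ v₀.IsEquiv w →
      ∀ τ : Gal(AlgebraicClosure K/K), InClosure σ τ → (∀ x, w (τ x) = w x) → τ = 1

/-- `v₀` is nontrivial and `w` lies over the place of `F₁` below `v₀`. -/
def Over (v₀ w : AbsoluteValue (AlgebraicClosure K) ℝ)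
    (F₁ : IntermediateField K (AlgebraicClosure K)) : Prop :=
  v₀.IsNontrivial ∧ ∀ x ∈ F₁, w x < 1 ↔ v₀ x < 1

/-- `w` is trivial on the subfield `k₀`. -/
def TrivialOn (w : AbsoluteValue (AlgebraicClosure K) ℝ) (k₀ : Subfield K) : Prop :=
  ∀ y ∈ k₀, y ≠ 0 → w (algebraMap K _ y) = 1

/-- `g` lies in the inertia group of `w`. -/
def Inert (w : AbsoluteValue (AlgebraicClosure K) ℝ) (g : Gal(AlgebraicClosure K/K)) : Prop :=
  ∀ x, w x ≤ 1 → w (g x - x) < 1

/-- The decomposition group of `w` in `Gal(M F / F)` is trivial: the place `w` of `F` splits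
completely in `M F`. -/
def SplitsIn (M F : IntermediateField K (AlgebraicClosure K))
    (w : AbsoluteValue (AlgebraicClosure K) ℝ) : Prop :=
  ∀ g : Gal(AlgebraicClosure K/K), (∀ x ∈ F, g x = x) → (∀ x, w (g x) = w x) → ∀ x ∈ M, g x = x

/-- The inertia group of `w` in `Gal(M F / F)` is trivial: `M F / F` is unramified at `w`. -/
def UnramifiedIn (M F : IntermediateField K (AlgebraicClosure K))
    (w : AbsoluteValue (AlgebraicClosure K) ℝ) : Prop :=
  ∀ g : Gal(AlgebraicClosure K/K), (∀ x ∈ F, g x = x) → Inert w g → ∀ x ∈ M, g x = x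

/-- The local conditions on `F`: all places `w` of `F` over the nontrivial `v` in `S` split
completely in `M F`, and `M F / F` is unramified at all `w` which are trivial on one of the
subfields in `T`, except for the `w` over the place of `F₁` below `v₀`. -/
def LocalCond (v₀ : AbsoluteValue (AlgebraicClosure K) ℝ)
    (M F₁ : IntermediateField K (AlgebraicClosure K)) (S : Set (AbsoluteValue K ℝ))
    (T : Set (Subfield K)) (F : IntermediateField K (AlgebraicClosure K)) : Prop :=
  (∀ v ∈ S, v.IsNontrivial → ∀ w : AbsoluteValue (AlgebraicClosure K) ℝ,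
    (∀ x : K, w (algebraMap K _ x) = v x) → ¬ Over v₀ w F₁ → SplitsIn M F w) ∧
  ∀ k₀ ∈ T, ∀ w : AbsoluteValue (AlgebraicClosure K) ℝ, w.IsNontrivial → TrivialOn w k₀ →
    ¬ Over v₀ w F₁ → UnramifiedIn M F w

/-- `P` holds for all large fields of cyclic type which are fixed by `σ` and satisfy the local
conditions. -/
def EvLocal (T : Set (Subfield K)) (P : IntermediateField K (AlgebraicClosure K) → Prop)
    (σ : Gal(AlgebraicClosure K/K)) (v₀ : AbsoluteValue (AlgebraicClosure K) ℝ) : Prop :=
  ∃ (M : IntermediateField K (AlgebraicClosure K)) (_ : IsGalois K M)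
    (F₁ : IntermediateField K (AlgebraicClosure K)) (S : Finset (AbsoluteValue K ℝ)),
      FiniteDimensional K M ∧ FiniteDimensional K F₁ ∧
    ∀ (N : IntermediateField K (AlgebraicClosure K)) (_ : IsGalois K N),
      FiniteDimensional K N → ∀ F : IntermediateField K (AlgebraicClosure K),
        CyclicPair σ M N F → LocalCond v₀ M F₁ S T F → P F

end

end Pool.Agent.MP_3d3918
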