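import Pool.Agent.Lib.MP_3d3918_nt.Tower
import Pool.Agent.Lib.MP_3d3918_nt.Defs0

/-!
# One automorphism, with minimality
-/

set_option autoImplicit false

open Filter Topology

namespace Pool.Agent.MP_3d3918

section

variable {K : Type} [Field K] [CharZero K]

/-- The step: from a bad field to a larger bad field of cyclic type. -/
def StepProp (P : IntermediateField K (AlgebraicClosure K) → Prop) : Prop :=
  ∀ F : IntermediateField K (AlgebraicClosure K), FiniteDimensional K F → ¬ P F →
    ∀ (M : IntermediateField K (AlgebraicClosure K)) [FiniteDimensional K M] [IsGalois K M],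
      ∃ (F' N : IntermediateField K (AlgebraicClosure K)) (_ : IsGalois K N),
        FiniteDimensional K N ∧ F ≤ F' ∧ F' ≤ N ∧ M ≤ N ∧ IsCyclic (relGal N F') ∧ ¬ P F'

/-- The bad fields of cyclic type are cofinal in `X`. -/
def PB (P : IntermediateField K (AlgebraicClosure K) → Prop)
    (X : IntermediateField K (AlgebraicClosure K)) : Prop :=
  ∀ (F₁ M : IntermediateField K (AlgebraicClosure K)), FiniteDimensional K F₁ → F₁ ≤ X →
    ∀ [FiniteDimensional K M] [IsGalois K M],
      ∃ (F N : IntermediateField K (AlgebraicClosure K)) (_ : IsGalois K N),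
        FiniteDimensional K N ∧ F₁ ≤ F ∧ F ≤ X ∧ F ≤ N ∧ M ≤ N ∧ IsCyclic (relGal N F) ∧ ¬ P F

omit [CharZero K] in
theorem le_of_primitive (F Y : IntermediateField K (AlgebraicClosure K)) (θ : F)
    (hθ : IntermediateField.adjoin K {θ} = ⊤) (hθY : (θ : AlgebraicClosure K) ∈ Y) : F ≤ Y := by
  intro x hx
  have h1 : (⟨x, hx⟩ : F) ∈ IntermediateField.adjoin K {θ} := by
    rw [hθ]
    trivial
  have h2 : IntermediateField.adjoin K {θ} ≤ Y.comap F.val := by
    rw [IntermediateField.adjoin_le_iff]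
    intro w hw
    rw [Set.mem_singleton_iff.1 hw]
    exact hθY
  exact h2 h1

/-- A maximal field in which the bad fields are cofinal. -/
theorem exists_max (P : IntermediateField K (AlgebraicClosure K) → Prop)
    (X₀ : IntermediateField K (AlgebraicClosure K))
    (h₀ : PB P X₀) : ∃ X : IntermediateField K (AlgebraicClosure K), X₀ ≤ X ∧ PB P X ∧
      ∀ Y : IntermediateField K (AlgebraicClosure K), X ≤ Y → PB P Y → Y ≤ X := by
  obtain ⟨X, hX, hXm⟩ := zorn_le_nonempty₀ {X | PB P X} (fun c hc hch y hy => by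
    refine ⟨sSup c, ?_, fun z hz => le_sSup hz⟩
    intro F M hF hFc _ _
    obtain ⟨θ, hθ⟩ := Field.exists_primitive_element K F
    have hθc : (θ : AlgebraicClosure K) ∈ sSup c := hFc θ.2
    have hne : Nonempty c := ⟨⟨y, hy⟩⟩
    rw [sSup_eq_iSup', ← SetLike.mem_coe, IntermediateField.coe_iSup_of_directed
      hch.directedOn.directed_val, Set.mem_iUnion] at hθc
    obtain ⟨⟨Y, hY⟩, hθY⟩ := hθc
    have hFY : F ≤ Y := le_of_primitive F Y θ hθ hθY
    obtain ⟨F', N, hN, h1, h2, h3, h4⟩ := hc hY F M hF hFY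
    exact ⟨F', N, hN, h1, h2, h3.trans (le_sSup hY), h4⟩) X₀ h₀
  exact ⟨X, hX, hXm.1, fun Y hXY hY => hXm.2 hY hXY⟩

omit [CharZero K] in
theorem cyclic_relGal_of_le {M N F : IntermediateField K (AlgebraicClosure K)} [Normal K M]
    [Normal K N] (hMN : M ≤ N) (h : IsCyclic (relGal N F)) : IsCyclic (relGal M F) := by
  unfold relGal at h ⊢
  refine cyclic_of_ker_le
    ((AlgEquiv.restrictNormalHom N : Gal(AlgebraicClosure K/K) →* Gal(N/K)).comp
      F.fixingSubgroup.subtype)
    ((AlgEquiv.restrictNormalHom M : Gal(AlgebraicClosure K/K) →* Gal(M/K)).subgroupMap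
      F.fixingSubgroup) (MonoidHom.subgroupMap_surjective _ _) ?_ ?_
  · intro σ hσ
    rw [MonoidHom.mem_ker] at hσ ⊢
    apply Subtype.ext
    change AlgEquiv.restrictNormalHom M σ.1 = 1
    have hσ' : AlgEquiv.restrictNormalHom N σ.1 = 1 := hσ
    ext y
    rw [AlgEquiv.restrictNormalHom_apply]
    have h2 := AlgEquiv.restrictNormalHom_apply N σ.1 ⟨(y : AlgebraicClosure K), hMN y.2⟩
    rw [hσ'] at h2
    exact h2.symm
  · rw [MonoidHom.range_comp, Subgroup.range_subtype]
    exact h

omit [CharZero K] in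
theorem relGal_anti {N F F' : IntermediateField K (AlgebraicClosure K)} [Normal K N]
    (h : F ≤ F') : relGal N F' ≤ relGal N F :=
  Subgroup.map_mono (IntermediateField.fixingSubgroup_le h)

/-- A finite Galois extension which contains two finite extensions. -/
theorem exists_galois_sup (F M : IntermediateField K (AlgebraicClosure K))
    [FiniteDimensional K F] [FiniteDimensional K M] [IsGalois K M] :
    ∃ M' : IntermediateField K (AlgebraicClosure K),
      F ≤ M' ∧ M ≤ M' ∧ FiniteDimensional K M' ∧ IsGalois K M' := by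
  have hN : Normal K (AlgebraicClosure K) := IsAlgClosure.normal K (AlgebraicClosure K)
  have h1 : Normal K (IntermediateField.normalClosure K F (AlgebraicClosure K)) := inferInstance
  have h2 : FiniteDimensional K (IntermediateField.normalClosure K F (AlgebraicClosure K)) :=
    inferInstance
  have h3 : Normal K ↥(IntermediateField.normalClosure K F (AlgebraicClosure K) ⊔ M) :=
    inferInstance
  refine ⟨IntermediateField.normalClosure K F (AlgebraicClosure K) ⊔ M,
    (IntermediateField.le_normalClosure F).trans le_sup_left, le_sup_right, inferInstance, ?_⟩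
  exact { }

/-- A counterexample gives a minimal automorphism. -/
theorem exists_minimal [Countable K] (P : IntermediateField K (AlgebraicClosure K) → Prop)
    (hstep : StepProp P) (L : IntermediateField K (AlgebraicClosure K)) [FiniteDimensional K L]
    (hL : ¬ P L) :
    ∃ σ : Gal(AlgebraicClosure K/K), (∀ x ∈ L, σ x = x) ∧ ¬ Ev P σ ∧
      ∀ τ : Gal(AlgebraicClosure K/K), InClosure σ τ → ¬ InClosure τ σ → Ev P τ := by
  obtain ⟨M, hMmono, hMfin, hMgal, hMex⟩ := exists_exhaustion K
  obtain ⟨G, hGmono, hGbad, hGR⟩ := exists_tower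
    (fun F : IntermediateField K (AlgebraicClosure K) => L ≤ F ∧ FiniteDimensional K F ∧ ¬ P F)
    (fun n F' => ∃ (N : IntermediateField K (AlgebraicClosure K)) (_ : IsGalois K N),
      FiniteDimensional K N ∧ F' ≤ N ∧ M n ≤ N ∧ IsCyclic (relGal N F'))
    (fun n F hF => by
      have := hMfin n
      have := hMgal n
      obtain ⟨F', N, hN, h1, h2, h3, h4, h5, h6⟩ := hstep F hF.2.1 hF.2.2 (M n)
      refine ⟨F', h2, ⟨hF.1.trans h2, ?_, h6⟩, N, hN, h1, h3, h4, h5⟩
      exact FiniteDimensional.of_injective (IntermediateField.inclusion h3).toLinearMap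
        (IntermediateField.inclusion h3).injective) L ⟨le_rfl, inferInstance, hL⟩
  -- the union
  have hPB : PB P (⨆ n, G n) := by
    intro F₁ M₁ hF₁ hle _ _
    have ex : ∀ x ∈ (⨆ n, G n), ∃ n, x ∈ G n := by
      intro x hx
      rw [← SetLike.mem_coe, IntermediateField.coe_iSup_of_directed hGmono.directed_le,
        Set.mem_iUnion] at hx
      exact hx
    obtain ⟨n, hn⟩ := le_of_le_iSup G hGmono F₁ (fun x hx => ex x (hle hx))
    obtain ⟨m, hm⟩ := le_of_le_iSup M hMmono M₁ (fun x _ => hMex x)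
    obtain ⟨N, hN, h1, h2, h3, h4⟩ := hGR (max n m)
    refine ⟨G (max n m + 1), N, hN, h1, hn.trans (hGmono (by omega)), le_iSup G _, h2,
      hm.trans ((hMmono (le_max_right _ _)).trans h3), h4, (hGbad _).2.2⟩
  obtain ⟨X, hX, hXB, hXm⟩ := exists_max P _ hPB
  obtain ⟨σ, hσ⟩ := exists_sigma M hMmono hMex hMfin hMgal X (fun n => by
    have := hMfin n
    have := hMgal n
    obtain ⟨F, N, hN, h1, -, h2, -, h3, h4, -⟩ := hXB ⊥ (M n) inferInstance bot_le
    exact cyclic_of_le (relGal_anti h2) (cyclic_relGal_of_le h3 h4))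
  refine ⟨σ, fun x hx => (hσ x).2 (hX (le_iSup G 0 ((hGbad 0).1 hx))), ?_, ?_⟩
  · rintro ⟨M₀, hM₀, hfin, hall⟩
    have fin1 : FiniteDimensional K ↥(M₀ ⊓ X) :=
      FiniteDimensional.of_injective
        (IntermediateField.inclusion (inf_le_left : M₀ ⊓ X ≤ M₀)).toLinearMap
        (IntermediateField.inclusion (inf_le_left : M₀ ⊓ X ≤ M₀)).injective
    obtain ⟨F, N, hN, h1, h2, h3, h4, h5, h6, h7⟩ := hXB (M₀ ⊓ X) M₀ fin1 inf_le_right
    exact h7 (hall N hN h1 F ⟨h5, h4, h6, fun x hx => (hσ x).2 (h3 hx),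
      fun x hx hσx => h2 ⟨hx, (hσ x).1 hσx⟩⟩)
  · intro τ h1 h2
    let Y : IntermediateField K (AlgebraicClosure K) :=
      IntermediateField.fixedField (Subgroup.zpowers τ)
    have hY : ∀ x, x ∈ Y ↔ τ x = x := by
      intro x
      change x ∈ IntermediateField.fixedField (Subgroup.zpowers τ) ↔ _
      rw [IntermediateField.mem_fixedField_iff]
      constructor
      · intro h
        exact h τ (Subgroup.mem_zpowers τ)
      · rintro h ρ hρ
        have h4 : τ ∈ MulAction.stabilizer Gal(AlgebraicClosure K/K) x := h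
        exact (Subgroup.zpowers_le.2 h4) hρ
    have hXY : X ≤ Y := fun x hx => (hY x).2 (h1 x ((hσ x).2 hx))
    have hn : ¬ PB P Y := by
      intro hB
      apply h2
      intro x hx
      exact (hσ x).2 (hXm Y hXY hB ((hY x).2 hx))
    unfold PB at hn
    push Not at hn
    obtain ⟨F₁, M₁, hF₁, hle, hM₁, hM₁', hn⟩ := hn
    obtain ⟨M₀, hFM, hMM, finM, galM⟩ := exists_galois_sup F₁ M₁
    refine ⟨M₀, galM, finM, fun N hN hNfin F ⟨hMN, hFN, hcyc, hτF, hMF⟩ => ?_⟩
    exact hn F N hN hNfin (fun x hx => hMF x (hFM hx) ((hY x).1 (hle hx)))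
      (fun x hx => (hY x).2 (hτF x hx)) hFN (hMM.trans hMN) hcyc

/-- The criterion. -/
theorem abstract_criterion [Countable K] (P : IntermediateField K (AlgebraicClosure K) → Prop)
    (hstep : StepProp P)
    (h : ∀ σ : Gal(AlgebraicClosure K/K),
      (∀ τ : Gal(AlgebraicClosure K/K), InClosure σ τ → ¬ InClosure τ σ → Ev P τ) → Ev P σ)
    (L : IntermediateField K (AlgebraicClosure K)) [FiniteDimensional K L] : P L := by
  by_contra hL
  obtain ⟨σ, -, h1, h2⟩ := exists_minimal P hstep L hL
  exact h1 (h σ h2)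

end

end Pool.Agent.MP_3d3918
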