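import Pool.Agent.Lib.MP_0d9be2_nt.H29.Change

/-!
# The points of a curve after a change of variables
-/

set_option autoImplicit false

open WeierstrassCurve WeierstrassCurve.Affine

namespace Pool.Agent.MP_3d3918

section

variable {F : Type} [Field F] (W : WeierstrassCurve F) (C : VariableChange F)

/-- The first coordinate. -/
def cx (x : F) : F := (C.u : F) ^ 2 * x + C.r

/-- The second coordinate. -/
def cy (x y : F) : F := (C.u : F) ^ 3 * y + (C.u : F) ^ 2 * C.s * x + C.t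

theorem cx_inj {x x' : F} : cx C x = cx C x' ↔ x = x' := by
  unfold cx
  constructor
  · intro h
    have h1 : (C.u : F) ^ 2 * x = (C.u : F) ^ 2 * x' := add_right_cancel h
    exact mul_left_cancel₀ (pow_ne_zero 2 C.u.ne_zero) h1
  · rintro rfl
    rfl

theorem cy_inj {x y y' : F} : cy C x y = cy C x y' ↔ y = y' := by
  unfold cy
  constructor
  · intro h
    have h1 : (C.u : F) ^ 3 * y = (C.u : F) ^ 3 * y' := add_right_cancel (add_right_cancel h)
    exact mul_left_cancel₀ (pow_ne_zero 3 C.u.ne_zero) h1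
  · rintro rfl
    rfl

theorem cy_negY (x y : F) :
    W.toAffine.negY (cx C x) (cy C x y) = cy C x ((C • W).toAffine.negY x y) := by
  have hu : ((C.u⁻¹ : Fˣ) : F) * (C.u : F) = 1 := C.u.inv_mul
  simp only [negY, cx, cy, variableChange_def]
  set w : F := ((C.u⁻¹ : Fˣ) : F) with hw
  set u : F := (C.u : F) with hu'
  have h1 : u ^ 3 * w = u ^ 2 := by
    calc u ^ 3 * w = u ^ 2 * (w * u) := by ring
      _ = _ := by rw [hu, mul_one]
  have h3 : u ^ 3 * w ^ 3 = 1 := by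
    calc u ^ 3 * w ^ 3 = (w * u) ^ 3 := by ring
      _ = 1 := by rw [hu, one_pow]
  linear_combination (W.a₁ + 2 * C.s) * x * h1 + (W.a₃ + C.r * W.a₁ + 2 * C.t) * h3

variable [DecidableEq F]

theorem c_slope {x₁ x₂ y₁ y₂ : F} (h₁ : (C • W).toAffine.Equation x₁ y₁)
    (h₂ : (C • W).toAffine.Equation x₂ y₂)
    (hxy : ¬ (x₁ = x₂ ∧ y₁ = (C • W).toAffine.negY x₂ y₂)) :
    W.toAffine.slope (cx C x₁) (cx C x₂) (cy C x₁ y₁) (cy C x₂ y₂) =
      (C.u : F) * (C • W).toAffine.slope x₁ x₂ y₁ y₂ + C.s := by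
  have hu0 : (C.u : F) ≠ 0 := C.u.ne_zero
  have hw : ((C.u⁻¹ : Fˣ) : F) = (C.u : F)⁻¹ := Units.val_inv_eq_inv_val C.u
  by_cases hx : x₁ = x₂
  · subst hx
    have hy : y₁ ≠ (C • W).toAffine.negY x₁ y₂ := fun h => hxy ⟨rfl, h⟩
    have hyy : y₁ = y₂ := Y_eq_of_Y_ne h₁ h₂ rfl hy
    subst hyy
    have hy' : cy C x₁ y₁ ≠ W.toAffine.negY (cx C x₁) (cy C x₁ y₁) := by
      rw [cy_negY]
      intro h
      exact hy ((cy_inj C).1 h)
    rw [slope_of_Y_ne rfl hy', slope_of_Y_ne rfl hy, cy_negY]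
    have hd : y₁ - (C • W).toAffine.negY x₁ y₁ ≠ 0 := sub_ne_zero.2 hy
    have hd' : cy C x₁ y₁ - cy C x₁ ((C • W).toAffine.negY x₁ y₁) =
        (C.u : F) ^ 3 * (y₁ - (C • W).toAffine.negY x₁ y₁) := by
      unfold cy
      ring
    rw [hd', div_eq_iff (mul_ne_zero (pow_ne_zero 3 hu0) hd)]
    have h3 : ((C.u : F) * ((3 * x₁ ^ 2 + 2 * (C • W).a₂ * x₁ + (C • W).a₄ - (C • W).a₁ * y₁) /
        (y₁ - (C • W).toAffine.negY x₁ y₁)) + C.s) *
        ((C.u : F) ^ 3 * (y₁ - (C • W).toAffine.negY x₁ y₁)) =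
        (C.u : F) ^ 4 * (3 * x₁ ^ 2 + 2 * (C • W).a₂ * x₁ + (C • W).a₄ - (C • W).a₁ * y₁) +
        (C.u : F) ^ 3 * C.s * (y₁ - (C • W).toAffine.negY x₁ y₁) := by
      field_simp
    rw [h3]
    simp only [negY, cx, cy, variableChange_def, hw]
    field_simp
    ring
  · have hx' : cx C x₁ ≠ cx C x₂ := fun h => hx ((cx_inj C).1 h)
    rw [slope_of_X_ne hx', slope_of_X_ne hx]
    have hd : x₁ - x₂ ≠ 0 := sub_ne_zero.2 hx
    have hd' : cx C x₁ - cx C x₂ = (C.u : F) ^ 2 * (x₁ - x₂) := by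
      unfold cx
      ring
    rw [hd']
    unfold cy
    field_simp
    ring

theorem c_addX (x₁ x₂ ℓ : F) :
    W.toAffine.addX (cx C x₁) (cx C x₂) ((C.u : F) * ℓ + C.s) =
      cx C ((C • W).toAffine.addX x₁ x₂ ℓ) := by
  have hu0 : (C.u : F) ≠ 0 := C.u.ne_zero
  have hw : ((C.u⁻¹ : Fˣ) : F) = (C.u : F)⁻¹ := Units.val_inv_eq_inv_val C.u
  simp only [addX, cx, variableChange_def, hw]
  field_simp
  ring

theorem c_addY (x₁ x₂ y₁ ℓ : F) :
    W.toAffine.addY (cx C x₁) (cx C x₂) (cy C x₁ y₁) ((C.u : F) * ℓ + C.s) =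
      cy C ((C • W).toAffine.addX x₁ x₂ ℓ) ((C • W).toAffine.addY x₁ x₂ y₁ ℓ) := by
  have h1 : W.toAffine.negAddY (cx C x₁) (cx C x₂) (cy C x₁ y₁) ((C.u : F) * ℓ + C.s) =
      cy C ((C • W).toAffine.addX x₁ x₂ ℓ) ((C • W).toAffine.negAddY x₁ x₂ y₁ ℓ) := by
    simp only [negAddY]
    rw [c_addX]
    simp only [cx, cy]
    ring
  simp only [addY]
  rw [h1, c_addX, cy_negY]

variable [W.IsElliptic]

/-- The map on points. -/
noncomputable def vcMap : (C • W).toAffine.Point →+ W.toAffine.Point where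
  toFun P := match P with
    | 0 => 0
    | .some x y h => .some (cx C x) (cy C x y)
        (equation_iff_nonsingular.1 ((MP_0d9be2.H29.equation_smul W C x y).1 h.1))
  map_zero' := rfl
  map_add' := by
    rintro (_ | ⟨x₁, y₁, h₁⟩) (_ | ⟨x₂, y₂, h₂⟩)
    any_goals rfl
    by_cases hxy : x₁ = x₂ ∧ y₁ = (C • W).toAffine.negY x₂ y₂
    · rw [Point.add_of_Y_eq hxy.1 hxy.2, Point.add_of_Y_eq]
      · rw [hxy.1]
      · rw [cy_negY, ← hxy.2, hxy.1]
    · have hxy' : ¬ (cx C x₁ = cx C x₂ ∧ cy C x₁ y₁ = W.toAffine.negY (cx C x₂) (cy C x₂ y₂)) := by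
        rintro ⟨h3, h4⟩
        have h5 := (cx_inj C).1 h3
        subst h5
        rw [cy_negY] at h4
        exact hxy ⟨rfl, (cy_inj C).1 h4⟩
      rw [Point.add_some hxy, Point.add_some hxy']
      simp only [Point.some.injEq]
      rw [c_slope W C h₁.1 h₂.1 hxy, c_addX, c_addY]
      exact ⟨rfl, rfl⟩

theorem vcMap_some {x y : F} (h : (C • W).toAffine.Nonsingular x y) :
    vcMap W C (.some x y h) = .some (cx C x) (cy C x y)
      (equation_iff_nonsingular.1 ((MP_0d9be2.H29.equation_smul W C x y).1 h.1)) := rfl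

theorem vcMap_bijective : Function.Bijective (vcMap W C) := by
  constructor
  · rintro (_ | ⟨x₁, y₁, h₁⟩) (_ | ⟨x₂, y₂, h₂⟩) h
    any_goals contradiction
    · rfl
    · rw [vcMap_some, vcMap_some] at h
      obtain ⟨h3, h4⟩ := Point.some.inj h
      have h5 := (cx_inj C).1 h3
      subst h5
      have h6 := (cy_inj C).1 h4
      subst h6
      rfl
  · rintro (_ | ⟨x, y, h⟩)
    · exact ⟨0, rfl⟩
    · have hu0 : (C.u : F) ≠ 0 := C.u.ne_zero
      have hx : cx C ((x - C.r) / (C.u : F) ^ 2) = x := by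
        unfold cx
        field_simp
        ring
      have hy : cy C ((x - C.r) / (C.u : F) ^ 2)
          ((y - C.t - C.s * (x - C.r)) / (C.u : F) ^ 3) = y := by
        unfold cy
        field_simp
        ring
      have hE : (C • W).toAffine.Equation ((x - C.r) / (C.u : F) ^ 2)
          ((y - C.t - C.s * (x - C.r)) / (C.u : F) ^ 3) := by
        rw [MP_0d9be2.H29.equation_smul]
        change W.toAffine.Equation (cx C ((x - C.r) / (C.u : F) ^ 2))
          (cy C ((x - C.r) / (C.u : F) ^ 2) ((y - C.t - C.s * (x - C.r)) / (C.u : F) ^ 3))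
        rw [hx, hy]
        exact h.1
      refine ⟨.some _ _ (equation_iff_nonsingular.1 hE), ?_⟩
      rw [vcMap_some]
      simp only [Point.some.injEq]
      exact ⟨hx, hy⟩

end

end Pool.Agent.MP_3d3918
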