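import Pool.Agent.Lib.MP_3d3918_nt.Places

/-!
# Absolute values of the algebraic closure with the same restriction are conjugate
-/

set_option autoImplicit false

open Filter Topology

namespace Pool.Agent.MP_3d3918

/-- Simultaneous approximation for two finite families of absolute values. -/
theorem exists_large_small {M : Type} [Field M] {I : Type} [Finite I]
    (V : I → AbsoluteValue M ℝ) (big : I → Prop)
    (hsep : ∀ i j, big i → ¬ big j → ¬ (V i).IsEquiv (V j)) (a : M) (ha : ∀ i, 1 < V i a) :
    ∃ x : M, (∀ i, big i → 1 < V i x) ∧ ∀ i, ¬ big i → V i x < 1 := by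
  classical
  let s : Setoid I :=
    { r := fun i j => (V i).IsEquiv (V j)
      iseqv := ⟨fun i => AbsoluteValue.IsEquiv.refl _, fun h => h.symm, fun h h' => h.trans h'⟩ }
  have hs : ∀ i j, s.r i j ↔ (V i).IsEquiv (V j) := fun i j => Iff.rfl
  let v : Quotient s → AbsoluteValue M ℝ := fun q => V q.out
  have hnt : ∀ q, (v q).IsNontrivial := by
    intro q
    refine ⟨a, ?_, (ha q.out).ne'⟩
    rintro rfl
    have := ha q.out
    rw [map_zero] at this
    linarith
  have hpw : Pairwise fun i j => ¬ (v i).IsEquiv (v j) := by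
    intro q q' hne h
    apply hne
    have h1 : (⟦q.out⟧ : Quotient s) = ⟦q'.out⟧ := Quotient.sound h
    rwa [Quotient.out_eq, Quotient.out_eq] at h1
  have : Finite (Quotient s) := Quotient.finite s
  have := Fintype.ofFinite (Quotient s)
  have hdense := AbsoluteValue.denseRange_algebraMap_pi hnt hpw
  by_cases hemp : IsEmpty I
  · exact ⟨0, fun i => (hemp.false i).elim, fun i => (hemp.false i).elim⟩
  rw [not_isEmpty_iff] at hemp
  obtain ⟨i₀⟩ := hemp
  have hne : (Finset.univ : Finset (Quotient s)).Nonempty := ⟨⟦i₀⟧, Finset.mem_univ _⟩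
  obtain ⟨r, hr0, hr1, hr⟩ : ∃ r : ℝ, 0 < r ∧ r ≤ 1 ∧ ∀ q, r ≤ v q a - 1 := by
    refine ⟨min 1 (Finset.univ.inf' hne fun q => v q a - 1), ?_, min_le_left _ _, fun q =>
      (min_le_right _ _).trans (Finset.inf'_le _ (Finset.mem_univ q))⟩
    refine lt_min one_pos ?_
    rw [Finset.lt_inf'_iff]
    intro q _
    have := ha q.out
    change 0 < V q.out a - 1
    linarith
  obtain ⟨x, hx⟩ := hdense.exists_dist_lt
    (fun q => WithAbs.toAbs (v q) (if big q.out then a else 0)) hr0
  rw [dist_pi_lt_iff hr0] at hx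
  have hx' : ∀ q : Quotient s, v q ((if big q.out then a else 0) - x) < r := by
    intro q
    have h1 := hx q
    rw [dist_eq_norm, WithAbs.norm_eq_apply_ofAbs] at h1
    exact h1
  refine ⟨x, fun i hi => ?_, fun i hi => ?_⟩
  · have he : (V i).IsEquiv (v ⟦i⟧) := by
      have h1 : (⟦(⟦i⟧ : Quotient s).out⟧ : Quotient s) = ⟦i⟧ := Quotient.out_eq _
      exact (Quotient.exact h1).symm
    have hb : big (⟦i⟧ : Quotient s).out := by
      by_contra hb
      exact hsep i _ hi hb he
    rw [he.one_lt_iff]
    have h2 := hx' ⟦i⟧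
    rw [if_pos hb] at h2
    have h3 : v ⟦i⟧ a ≤ v ⟦i⟧ (a - x) + v ⟦i⟧ x := by
      have := (v ⟦i⟧).add_le (a - x) x
      rwa [sub_add_cancel] at this
    have h4 := hr ⟦i⟧
    linarith
  · have he : (V i).IsEquiv (v ⟦i⟧) := by
      have h1 : (⟦(⟦i⟧ : Quotient s).out⟧ : Quotient s) = ⟦i⟧ := Quotient.out_eq _
      exact (Quotient.exact h1).symm
    have hb : ¬ big (⟦i⟧ : Quotient s).out := by
      intro hb
      exact hsep _ i hb hi he.symm
    rw [he.lt_one_iff]
    have h2 := hx' ⟦i⟧
    rw [if_neg hb, zero_sub, (v ⟦i⟧).map_neg] at h2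
    linarith

section

variable {K : Type} [Field K] [CharZero K]

omit [CharZero K] in
/-- A nontrivial absolute value of the algebraic closure is nontrivial on `K`. -/
theorem exists_one_lt (w : AbsoluteValue (AlgebraicClosure K) ℝ) (hw : w.IsNontrivial) :
    ∃ a : K, 1 < w (algebraMap K (AlgebraicClosure K) a) := by
  by_contra hcon
  push Not at hcon
  have key : ∀ y : AlgebraicClosure K, w y ≤ 1 := by
    intro y
    have hint : IsIntegral K y := (Algebra.IsAlgebraic.isAlgebraic y).isIntegral
    have fin : FiniteDimensional K (IntermediateField.adjoin K {y}) :=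
      IntermediateField.adjoin.finiteDimensional hint
    set b := Module.finBasis K (IntermediateField.adjoin K {y}) with hb
    have hbound : ∀ z : IntermediateField.adjoin K {y},
        w (z : AlgebraicClosure K) ≤ ∑ i, w (b i : AlgebraicClosure K) := by
      intro z
      have h1 : (z : AlgebraicClosure K) = ∑ i, algebraMap K (AlgebraicClosure K) (b.repr z i) *
          (b i : AlgebraicClosure K) := by
        conv_lhs => rw [← b.sum_repr z]
        push_cast
        refine Finset.sum_congr rfl fun i _ => ?_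
        rw [Algebra.smul_def]
      rw [h1]
      refine (AbsoluteValue.sum_le w _ _).trans (Finset.sum_le_sum fun i _ => ?_)
      rw [map_mul]
      exact mul_le_of_le_one_left (w.nonneg _) (hcon _)
    by_contra hy
    push Not at hy
    obtain ⟨k, hk⟩ := pow_unbounded_of_one_lt (∑ i, w (b i : AlgebraicClosure K)) hy
    have h2 := hbound ⟨y ^ k, pow_mem (IntermediateField.mem_adjoin_simple_self K y) k⟩
    rw [map_pow] at h2
    linarith
  obtain ⟨y, hy0, hy1⟩ := hw
  apply hy1
  apply le_antisymm (key y)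
  have h1 := key y⁻¹
  rw [map_inv₀] at h1
  have h2 : 0 < w y := w.pos hy0
  rwa [inv_le_one₀ h2] at h1

/-- The conjugates on a finite Galois extension. -/
theorem conj_finite (w w' : AbsoluteValue (AlgebraicClosure K) ℝ) (hw : w.IsNontrivial)
    (hext : ∀ x : K, w' (algebraMap K _ x) = w (algebraMap K _ x))
    (M : IntermediateField K (AlgebraicClosure K)) [FiniteDimensional K M] [IsGalois K M] :
    ∃ ρ : Gal(M/K), ∀ x : M, w' x = w (ρ x : M) := by
  classical
  by_contra hcon
  push Not at hcon
  obtain ⟨a, ha⟩ := exists_one_lt w hw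
  let A : Bool → AbsoluteValue (AlgebraicClosure K) ℝ := fun b => if b then w' else w
  have hA : ∀ b, A b (algebraMap K _ a) = w (algebraMap K _ a) := by
    intro b
    cases b
    · rfl
    · exact hext a
  let V : Bool × Gal(M/K) → AbsoluteValue M ℝ := fun i =>
    (A i.1).comp (f := ((algebraMap M (AlgebraicClosure K)).comp
      (i.2 : M ≃ₐ[K] M).toRingEquiv.toRingHom)) (RingHom.injective _)
  have hV : ∀ b g (x : M), V (b, g) x = A b (g x : M) := fun b g x => rfl
  have hVa : ∀ i, V i (algebraMap K M a) = w (algebraMap K _ a) := by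
    rintro ⟨b, g⟩
    rw [hV, AlgEquiv.commutes, ← hA b]
    rfl
  have hsep : ∀ i j : Bool × Gal(M/K), i.1 = true → ¬ j.1 = true →
      ¬ (V i).IsEquiv (V j) := by
    rintro ⟨b, g⟩ ⟨b', g'⟩ hb hb' he
    obtain rfl : b = true := hb
    obtain rfl : b' = false := by simpa using hb'
    obtain ⟨c, hc, hcx⟩ := AbsoluteValue.isEquiv_iff_exists_rpow_eq.1 he
    have h1 : ∀ x, V (true, g) x ^ c = V (false, g') x := fun x => congrFun hcx x
    have h2 := h1 (algebraMap K M a)
    rw [hVa, hVa] at h2
    have hc1 : c = 1 := by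
      have h3 : Real.log (w (algebraMap K _ a) ^ c) = Real.log (w (algebraMap K _ a)) := by
        rw [h2]
      rw [Real.log_rpow (by linarith)] at h3
      have h4 := Real.log_pos ha
      have h5 : (c - 1) * Real.log (w (algebraMap K _ a)) = 0 := by linarith
      rcases mul_eq_zero.1 h5 with h6 | h6
      · linarith
      · linarith
    obtain ⟨x, hx⟩ := hcon (g' * g⁻¹)
    apply hx
    have h3 := h1 (g⁻¹ x)
    rw [hc1, Real.rpow_one, hV, hV] at h3
    have h4 : g (g⁻¹ x) = x := by
      rw [← AlgEquiv.mul_apply, mul_inv_cancel, AlgEquiv.one_apply]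
    rw [h4] at h3
    exact h3
  obtain ⟨x, hx1, hx2⟩ := exists_large_small V (fun i => i.1 = true) hsep (algebraMap K M a)
    (fun i => by rw [hVa]; exact ha)
  have hnorm := Algebra.norm_eq_prod_automorphisms K x
  have hN : ∀ b, A b (algebraMap K (AlgebraicClosure K) (Algebra.norm K x)) =
      ∏ g : Gal(M/K), V (b, g) x := by
    intro b
    have h1 : algebraMap K (AlgebraicClosure K) (Algebra.norm K x) =
        ∏ g : Gal(M/K), ((g x : M) : AlgebraicClosure K) := by
      have h2 := congrArg (algebraMap M (AlgebraicClosure K)) hnorm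
      rw [map_prod] at h2
      exact h2
    rw [h1, map_prod]
    rfl
  have h1 : 1 < A true (algebraMap K (AlgebraicClosure K) (Algebra.norm K x)) := by
    rw [hN]
    refine lt_of_lt_of_le (hx1 (true, 1) rfl) ?_
    rw [← Finset.mul_prod_erase Finset.univ _ (Finset.mem_univ (1 : Gal(M/K)))]
    refine le_mul_of_one_le_right ((V _).nonneg _) ?_
    have h3 : ∀ s : Finset Gal(M/K), 1 ≤ ∏ g ∈ s, V (true, g) x := by
      intro s
      induction s using Finset.induction_on with
      | empty => simp
      | insert g s hg ih =>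
        rw [Finset.prod_insert hg]
        exact one_le_mul_of_one_le_of_one_le (hx1 (true, g) rfl).le ih
    exact h3 _
  have h2 : A false (algebraMap K (AlgebraicClosure K) (Algebra.norm K x)) < 1 := by
    rw [hN, ← Finset.mul_prod_erase Finset.univ _ (Finset.mem_univ (1 : Gal(M/K)))]
    refine mul_lt_one_of_nonneg_of_lt_one_left ((V _).nonneg _) (hx2 (false, 1) (by simp)) ?_
    exact Finset.prod_le_one (fun g _ => (V _).nonneg _) fun g _ => (hx2 (false, g) (by simp)).le
  have h3 : A true (algebraMap K (AlgebraicClosure K) (Algebra.norm K x)) =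
      A false (algebraMap K (AlgebraicClosure K) (Algebra.norm K x)) := hext _
  linarith

/-- Two absolute values with the same restriction to `K` are conjugate. -/
theorem conj_abs (w w' : AbsoluteValue (AlgebraicClosure K) ℝ) (hw : w.IsNontrivial)
    (hext : ∀ x : K, w' (algebraMap K _ x) = w (algebraMap K _ x)) :
    ∃ ρ : Gal(AlgebraicClosure K/K), ∀ x, w' x = w (ρ x) := by
  let ι := {M : IntermediateField K (AlgebraicClosure K) // FiniteDimensional K M ∧ IsGalois K M}
  let C : ι → Set Gal(AlgebraicClosure K/K) := fun M => {ρ | ∀ x ∈ M.1, w' x = w (ρ x)}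
  have gal0 : IsGalois K (⊥ : IntermediateField K (AlgebraicClosure K)) := inferInstance
  have hι : Nonempty ι := ⟨⟨⊥, inferInstance, gal0⟩⟩
  have hC : ∀ M, IsClosed (C M) := by
    intro M
    have h1 : C M = ⋂ x ∈ M.1, {ρ | w' x = w (ρ x)} := by
      ext ρ
      simp [C]
    rw [h1]
    refine isClosed_biInter fun x _ => ?_
    exact isClosed_of_locallyConstant (locallyConstant_eval x) {y | w' x = w y}
  obtain ⟨ρ, hρ⟩ := IsCompact.nonempty_iInter_of_directed_nonempty_isCompact_isClosed C (by
      intro M M'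
      have := M.2.1
      have := M'.2.1
      have := M.2.2
      have := M'.2.2
      have n1 : Normal K M.1 := inferInstance
      have n2 : Normal K M'.1 := inferInstance
      refine ⟨⟨M.1 ⊔ M'.1, inferInstance, ?_⟩, ?_, ?_⟩
      · exact { }
      · intro ρ h1 x hx
        exact h1 x ((le_sup_left : M.1 ≤ M.1 ⊔ M'.1) hx)
      · intro ρ h1 x hx
        exact h1 x ((le_sup_right : M'.1 ≤ M.1 ⊔ M'.1) hx))
    (by
      intro M
      have := M.2.1
      have := M.2.2
      obtain ⟨ρ, hρ⟩ := conj_finite w w' hw hext M.1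
      have nor : Normal K (AlgebraicClosure K) := IsAlgClosure.normal K (AlgebraicClosure K)
      refine ⟨ρ.liftNormal (AlgebraicClosure K), fun x hx => ?_⟩
      rw [hρ ⟨x, hx⟩]
      congr 1
      exact (ρ.liftNormal_commutes (AlgebraicClosure K) ⟨x, hx⟩).symm)
    (fun M => (hC M).isCompact) hC
  rw [Set.mem_iInter] at hρ
  refine ⟨ρ, fun x => ?_⟩
  obtain ⟨L, hxL, hfd, hG⟩ := exists_galois K x
  exact hρ ⟨L, hfd, hG⟩ x hxL

end

end Pool.Agent.MP_3d3918
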