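import Mathlib

/-!
# The number of points above a point, in terms of Frobenius
-/

set_option autoImplicit false

open Polynomial

namespace Pool.Agent.MP_3d3918

/-- Ring homomorphisms to an algebraically closed field extend along integral extensions. -/
theorem exists_extension {A B Ω : Type} [CommRing A] [CommRing B] [Field Ω] [IsAlgClosed Ω]
    [Algebra A B] [Algebra.IsIntegral A B] (hinj : Function.Injective (algebraMap A B))
    (z : A →+* Ω) : ∃ φ : B →+* Ω, φ.comp (algebraMap A B) = z := by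
  set P : Ideal A := RingHom.ker z with hP
  have hPp : P.IsPrime := RingHom.ker_isPrime z
  obtain ⟨Q, -, hQp, hQ⟩ := Ideal.exists_ideal_over_prime_of_isIntegral P (⊥ : Ideal B) (by
    intro x hx
    rw [Ideal.mem_comap, Ideal.mem_bot] at hx
    have : x = 0 := hinj (by rw [hx, map_zero])
    rw [this]
    exact zero_mem _)
  have hQ' : P = Q.comap (algebraMap A B) := hQ.symm
  have hlies : Q.LiesOver P := ⟨hQ'⟩
  let zq : A ⧸ P →+* Ω := Ideal.Quotient.lift P z (fun a ha => ha)
  have hzq : Function.Injective zq := by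
    rw [injective_iff_map_eq_zero]
    intro a ha
    obtain ⟨a, rfl⟩ := Ideal.Quotient.mk_surjective a
    rw [Ideal.Quotient.eq_zero_iff_mem]
    exact ha
  let _ : Algebra (A ⧸ P) Ω := zq.toAlgebra
  have hf1 : FaithfulSMul (A ⧸ P) Ω := (faithfulSMul_iff_algebraMap_injective _ _).2 hzq
  have hf2 : FaithfulSMul (A ⧸ P) (B ⧸ Q) := by
    rw [faithfulSMul_iff_algebraMap_injective]
    exact FaithfulSMul.algebraMap_injective (A ⧸ P) (B ⧸ Q)
  have hint : Algebra.IsIntegral (A ⧸ P) (B ⧸ Q) := inferInstance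
  have hdom : IsDomain (B ⧸ Q) := inferInstance
  have halg : Algebra.IsAlgebraic (A ⧸ P) (B ⧸ Q) := inferInstance
  let f : B ⧸ Q →ₐ[A ⧸ P] Ω := IsAlgClosed.lift
  refine ⟨(f : B ⧸ Q →+* Ω).comp (Ideal.Quotient.mk Q), ?_⟩
  ext a
  have h1 := f.commutes (Ideal.Quotient.mk P a)
  exact h1

section

variable {Ω : Type} [Field Ω] (p : ℕ) [Fact p.Prime]

/-- Homomorphisms fixed by Frobenius have values in the prime field. -/
theorem exists_factor [CharP Ω p] {A : Type} [CommRing A] (ι : ZMod p →+* Ω) (f : A →+* Ω)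
    (hf : ∀ a, f a ^ p = f a) : ∃ z : A →+* ZMod p, ι.comp z = f := by
  have hr : ∀ a, f a ∈ ι.range := by
    intro a
    have h1 := (Subfield.mem_bot_iff_pow_eq_self Ω p).2 (hf a)
    rw [mem_bot_iff_intCast p] at h1
    obtain ⟨n, hn⟩ := h1
    exact ⟨(n : ZMod p), by rw [map_intCast, hn]⟩
  let e : ZMod p ≃+* ι.range := RingEquiv.ofBijective ι.rangeRestrict
    ⟨fun a b h => ι.injective (congrArg Subtype.val h), ι.rangeRestrict_surjective⟩
  refine ⟨e.symm.toRingHom.comp (f.codRestrict ι.range hr), ?_⟩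
  ext a
  have h1 : e (e.symm (f.codRestrict ι.range hr a)) = f.codRestrict ι.range hr a :=
    e.apply_symm_apply _
  exact congrArg Subtype.val h1

theorem comp_pow (ι : ZMod p →+* Ω) (x : ZMod p) : ι x ^ p = ι x := by
  rw [← map_pow, ZMod.pow_card]

end

section

variable {R B G : Type} [CommRing R] [CommRing B] [Group G] [Finite G] [MulSemiringAction G B]

/-- Two homomorphisms which agree on the elements fixed by `H` differ by an element of `H` at a
given element. -/
theorem exists_smul_of_agree {Ω : Type} [Field Ω] (H : Subgroup G) (φ φ' : B →+* Ω)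
    (h : ∀ b, (∀ g ∈ H, g • b = b) → φ' b = φ b) (θ : B) : ∃ g ∈ H, φ' θ = φ (g • θ) := by
  classical
  have := Fintype.ofFinite G
  have hH : Fintype H := Fintype.ofFinite H
  set f : B[X] := MulSemiringAction.charpoly H θ with hf
  have hc : ∀ n, φ' (f.coeff n) = φ (f.coeff n) := by
    intro n
    apply h
    intro g hg
    exact MulSemiringAction.smul_coeff_charpoly θ n (⟨g, hg⟩ : H)
  have h1 : f.map φ' = f.map φ := by
    ext n
    rw [coeff_map, coeff_map, hc]
  have h2 : (f.map φ').eval (φ' θ) = 0 := by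
    rw [eval_map, eval₂_hom, MulSemiringAction.eval_charpoly, map_zero]
  rw [h1, hf, MulSemiringAction.charpoly_eq, Polynomial.map_prod, eval_prod,
    Finset.prod_eq_zero_iff] at h2
  obtain ⟨g, -, hg⟩ := h2
  refine ⟨g.1, g.2, ?_⟩
  rw [Polynomial.map_sub, map_X, map_C, eval_sub, eval_X, eval_C, sub_eq_zero] at hg
  exact hg

/-- The number of the points above `y`, for all subgroups at the same time. -/
theorem count (i : R →+* B) (hi : Function.Injective i)
    (hiG : ∀ b, (∀ g : G, g • b = b) ↔ b ∈ i.range) (θ : B)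
    (hθ : Subring.closure (Set.range i ∪ {θ}) = ⊤)
    (hu : ∀ g h : G, g ≠ h → IsUnit (g • θ - h • θ)) (p : ℕ) [Fact p.Prime] (y : R →+* ZMod p) :
    ∃ σ : G, ∀ (H : Subgroup G) (A : Type) (_ : CommRing A) (j : A →+* B)
      (_ : Function.Injective j) (_ : ∀ b, (∀ g ∈ H, g • b = b) ↔ b ∈ j.range)
      (i' : R →+* A) (_ : j.comp i' = i),
      Nat.card {z : A →+* ZMod p // z.comp i' = y} = Nat.card {x : G ⧸ H // σ • x = x} := by
  classical
  let Ω := AlgebraicClosure (ZMod p)
  let ι : ZMod p →+* Ω := algebraMap (ZMod p) Ω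
  have hchar : CharP Ω p := charP_of_injective_algebraMap ι.injective p
  have hext : ∀ (φ ψ : B →+* Ω), (∀ r, φ (i r) = ψ (i r)) → φ θ = ψ θ → φ = ψ := by
    intro φ ψ h1 h2
    apply RingHom.eq_of_eqOn_set_dense hθ
    rintro b (⟨r, rfl⟩ | hb)
    · exact h1 r
    · rw [Set.mem_singleton_iff.1 hb]
      exact h2
  have hfixi : ∀ (g : G) (r : R), g • i r = i r := fun g r => (hiG _).2 ⟨r, rfl⟩ g
  -- the point
  obtain ⟨φ₀, hφ₀⟩ : ∃ φ₀ : B →+* Ω, ∀ r, φ₀ (i r) = ι (y r) := by
    let _ : Algebra R B := i.toAlgebra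
    have hinv : Algebra.IsInvariant R B G := ⟨fun b hb => (hiG b).1 hb⟩
    have hsm : SMulCommClass G R B := ⟨fun g r b => by
      rw [Algebra.smul_def, Algebra.smul_def, smul_mul']
      congr 1
      exact hfixi g r⟩
    have hint : Algebra.IsIntegral R B := Algebra.IsInvariant.isIntegral R B G
    obtain ⟨φ, hφ⟩ := exists_extension hi (ι.comp y)
    exact ⟨φ, fun r => congrArg (fun f => f r) hφ⟩
  -- the homomorphisms
  let F : G → (B →+* Ω) := fun g => φ₀.comp (MulSemiringAction.toRingHom G B g)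
  have hF : ∀ g b, F g b = φ₀ (g • b) := fun g b => rfl
  have hFi : ∀ g r, F g (i r) = ι (y r) := by
    intro g r
    rw [hF, hfixi, hφ₀]
  have hFinj : ∀ g h, F g θ = F h θ → g = h := by
    intro g h hgh
    by_contra hne
    have h1 := (hu g h hne).map φ₀
    rw [map_sub, ← hF, ← hF, hgh, sub_self] at h1
    exact not_isUnit_zero h1
  -- Frobenius
  obtain ⟨σ, hσ⟩ : ∃ σ : G, ∀ b, (φ₀ b) ^ p = φ₀ (σ • b) := by
    let φ₁ : B →+* Ω := (frobenius Ω p).comp φ₀
    obtain ⟨σ, -, hσ⟩ := exists_smul_of_agree (⊤ : Subgroup G) φ₀ φ₁ (by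
      intro b hb
      obtain ⟨r, rfl⟩ := (hiG b).1 (fun g => hb g (Subgroup.mem_top g))
      change (φ₀ (i r)) ^ p = φ₀ (i r)
      rw [hφ₀, comp_pow]) θ
    refine ⟨σ, fun b => ?_⟩
    have h1 : φ₁ = F σ := by
      apply hext
      · intro r
        rw [hFi]
        change (φ₀ (i r)) ^ p = _
        rw [hφ₀, comp_pow]
      · exact hσ
    exact congrArg (fun f => f b) h1
  refine ⟨σ, ?_⟩
  intro H A _ j hj hjH i' hi'
  have hfixj : ∀ h ∈ H, ∀ a, h • j a = j a := fun h hh a => (hjH _).2 ⟨a, rfl⟩ h hh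
  -- cosets
  have hcos : ∀ g g' : G, (∀ a, F g (j a) = F g' (j a)) ↔ (g : G ⧸ H) = (g' : G ⧸ H) := by
    intro g g'
    rw [QuotientGroup.eq]
    constructor
    · intro h
      obtain ⟨k, hk, hk'⟩ := exists_smul_of_agree H (F g) (F g') (by
        intro b hb
        obtain ⟨a, rfl⟩ := (hjH b).1 hb
        exact (h a).symm) θ
      rw [hF g, smul_smul, ← hF] at hk'
      have := hFinj _ _ hk'
      rw [this, inv_mul_cancel_left]
      exact hk
    · intro h a
      have h1 : g' = g * (g⁻¹ * g') := by group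
      rw [hF, hF, h1, mul_smul, hfixj _ h]
  -- every homomorphism comes from the group
  have hall : ∀ z : A →+* Ω, (∀ r, z (i' r) = ι (y r)) → ∃ g, ∀ a, z a = F g (j a) := by
    intro z hz
    let _ : Algebra A B := j.toAlgebra
    have hinv : Algebra.IsInvariant A B H := ⟨fun b hb => (hjH b).1 (fun g hg => hb ⟨g, hg⟩)⟩
    have hsm : SMulCommClass H A B := ⟨fun g r b => by
      rw [Algebra.smul_def, Algebra.smul_def, smul_mul']
      congr 1
      exact hfixj g.1 g.2 r⟩
    have hint : Algebra.IsIntegral A B := Algebra.IsInvariant.isIntegral A B H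
    obtain ⟨φ, hφ⟩ := exists_extension hj z
    obtain ⟨g, -, hg⟩ := exists_smul_of_agree (⊤ : Subgroup G) φ₀ φ (by
      intro b hb
      obtain ⟨r, rfl⟩ := (hiG b).1 (fun g => hb g (Subgroup.mem_top g))
      rw [hφ₀, ← hz, ← hφ, ← hi']
      rfl) θ
    have h1 : φ = F g := by
      apply hext
      · intro r
        rw [hFi, ← hz, ← hφ, ← hi']
        rfl
      · exact hg
    refine ⟨g, fun a => ?_⟩
    rw [← h1, ← hφ]
    rfl
  choose c hc using fun z : {z : A →+* ZMod p // z.comp i' = y} =>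
    hall (ι.comp z.1) (fun r => congrArg (fun f => ι (f r)) z.2)
  have hcfix : ∀ z, σ • ((c z : G) : G ⧸ H) = (c z : G ⧸ H) := by
    intro z
    change ((σ * c z : G) : G ⧸ H) = _
    rw [← hcos]
    intro a
    rw [hF, mul_smul, ← hσ, ← hF, ← hc z, RingHom.comp_apply, comp_pow]
  refine Nat.card_congr (Equiv.ofBijective (fun z => ⟨(c z : G ⧸ H), hcfix z⟩) ⟨?_, ?_⟩)
  · intro z z' h
    have h1 := (hcos _ _).2 (congrArg Subtype.val h)
    apply Subtype.ext
    ext a
    apply ι.injective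
    have h2 := hc z a
    have h3 := hc z' a
    rw [h1 a, ← h3] at h2
    exact h2
  · rintro ⟨x, hx⟩
    obtain ⟨g, rfl⟩ := QuotientGroup.mk_surjective x
    have h1 : ∀ a, (F g (j a)) ^ p = F g (j a) := by
      have h2 := (hcos (σ * g) g).2 hx
      intro a
      rw [hF, hσ, ← mul_smul, ← hF, h2 a, hF]
    obtain ⟨z, hz⟩ := exists_factor p ι ((F g).comp j) h1
    have hz' : ∀ a, ι (z a) = F g (j a) := fun a => congrArg (fun f => f a) hz
    refine ⟨⟨z, ?_⟩, ?_⟩
    · ext r
      apply ι.injective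
      have h3 : j (i' r) = i r := congrArg (fun f => f r) hi'
      rw [RingHom.comp_apply, hz', h3, hFi]
    · apply Subtype.ext
      change (c ⟨z, _⟩ : G ⧸ H) = (g : G ⧸ H)
      rw [← hcos]
      intro a
      rw [← hc, ← hz']
      rfl

end

end Pool.Agent.MP_3d3918
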