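import Pool.Agent.Lib.MP_3d3918_nt.SameJ

/-!
# All curves with the same `j`-invariant
-/

set_option autoImplicit false

open Filter Topology WeierstrassCurve

namespace Pool.Agent.MP_3d3918

section

variable {K : Type} [Field K] [CharZero K]

/-- The formula over all finite extensions, for all curves with the same `j`-invariant. -/
theorem all_sameJ (U : Set ℂ) (E : WeierstrassCurve K) [E.IsElliptic]
    (h0 : E.j ≠ 0) (h1 : E.j ≠ 1728)
    (hall : ∀ (L : IntermediateField K (AlgebraicClosure K)) [FiniteDimensional K L],
      Nagao U (E.map (algebraMap K L)))
    (L : IntermediateField K (AlgebraicClosure K)) [FiniteDimensional K L]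
    (E' : WeierstrassCurve L) [E'.IsElliptic] (hj : E'.j = algebraMap K L E.j) :
    Nagao U E' := by
  have alg : Algebra.IsAlgebraic L (AlgebraicClosure K) := Algebra.IsAlgebraic.tower_top (K := K) L
  have ell : (E.map (algebraMap K L)).IsElliptic := inferInstance
  have hjL : (E.map (algebraMap K L)).j = algebraMap K L E.j := E.map_j (algebraMap K L)
  refine nagao_sameJ (AlgebraicClosure K) U (E.map (algebraMap K L)) E' (hjL.trans hj.symm) ?_ ?_
    (hall L) ?_
  · rw [hjL]
    exact (map_ne_zero _).2 h0
  · rw [hjL]
    intro h2
    apply h1
    apply (algebraMap K L).injective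
    rw [h2, map_ofNat]
  · intro δ _
    let X : IntermediateField L (AlgebraicClosure K) := IntermediateField.adjoin L {δ}
    let F' : IntermediateField K (AlgebraicClosure K) := X.restrictScalars K
    have hint : IsIntegral L δ := Algebra.IsIntegral.isIntegral δ
    have finX : FiniteDimensional L X := IntermediateField.adjoin.finiteDimensional hint
    have finF' : FiniteDimensional K F' := by
      have h2 : FiniteDimensional K X := Module.Finite.trans L X
      exact h2
    have h3 := hall F'
    have h4 : E.map (algebraMap K F') =
        (E.map (algebraMap K L)).map (algebraMap L X) := by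
      rw [WeierstrassCurve.map_map]
      rfl
    rw [h4] at h3
    exact h3

end

end Pool.Agent.MP_3d3918
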