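import Pool.Agent.Lib.MP_3d3918_nt.Defs0

/-!
# MP_3d3918_nt: Nagao's formula for arbitrary fibrations

`a` is a function on the points of `Spec R₁` with values in the finite prime fields; for a fibration
with base `Spec R₁` it is the trace of Frobenius on the first cohomology of the fibre.
-/

set_option autoImplicit false

open Filter Topology Polynomial

namespace Pool.Agent.MP_3d3918

/-- A series with a meromorphic continuation and with residue `-r`. -/
def Good (U : Set ℂ) (t : ℂ → Nat.Primes → ℂ) (r : ℂ) : Prop :=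
  ∃ F : ℂ → ℂ, MeromorphicOn F U ∧
    Tendsto (fun s : ℂ => (s - 1) * F s) (𝓝[≠] 1) (𝓝 (-r)) ∧
    ∃ c : ℝ, ∀ s : ℂ, c < s.re → HasSum (t s) (F s)

section

variable {K : Type} [Field K] (R₁ : Subring K) (a : (p : ℕ) → (R₁ →+* ZMod p) → ℤ)

/-- The restriction to `R₁` of a point of `Spec R`. -/
def restr {L : Type} [Field L] (φ : K →+* L) (R : Subring L) (h : ∀ x ∈ R₁, φ x ∈ R) (p : ℕ)
    (z : R →+* ZMod p) : R₁ →+* ZMod p :=
  z.comp ((φ.comp R₁.subtype).codRestrict R (fun x => h x.1 x.2))

/-- The term at `p` of the series of the averages of `a` over the points of `Spec R`, corrected by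
`b`. -/
noncomputable def gterm {L : Type} [Field L] [CharZero L] (φ : K →+* L) (b : ℕ → ℂ) (R : Subring L)
    (h : ∀ x ∈ R₁, φ x ∈ R) (s : ℂ) (p : Nat.Primes) : ℂ :=
  (((∑ᶠ z : R →+* ZMod p, a p (restr R₁ φ R h p z) : ℤ) : ℂ) / ((p : ℕ) : ℂ) ^ (dim L) - b p) *
    (Real.log (p : ℕ) : ℂ) * ((p : ℕ) : ℂ) ^ (-s)

/-- The formula over the extension `L` of `K`: for all sufficiently large finitely generated
subrings `R` of `L` the series of the averages of `a` over the points of `Spec R`, corrected by `b`,
has a meromorphic continuation to `U`, and minus its residue at `1` is the natural number `r`. -/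
def GNagao (U : Set ℂ) {L : Type} [Field L] [CharZero L] (φ : K →+* L) (b : ℕ → ℂ)
    (r : Cardinal) : Prop :=
  ∃ R₀ : Subring L, FG R₀ ∧ ∀ R : Subring L, FG R → R₀ ≤ R →
    ∃ (h : ∀ x ∈ R₁, φ x ∈ R) (r' : ℕ), r = r' ∧ Good U (gterm R₁ a φ b R h) r'

end

/-- The elements fixed by `H`. -/
def fixedSub (A : Type) {G : Type} [AddCommGroup A] [Group G] [DistribMulAction G A]
    (H : Subgroup G) : Submodule ℤ A where
  carrier := {a | ∀ h ∈ H, h • a = a}
  add_mem' := by
    intro a b ha hb h hh
    rw [smul_add, ha h hh, hb h hh]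
  zero_mem' := fun h _ => smul_zero h
  smul_mem' := by
    intro n a ha h hh
    rw [smul_comm, ha h hh]

/-- `n` is a relation between the permutation characters of `G` on the quotients `G ⧸ H`, for `H`
in `T`. -/
def PermRel {G : Type} [Group G] (T : Finset (Subgroup G)) (n : Subgroup G → ℤ) : Prop :=
  ∀ g : G, ∑ H ∈ T, n H * (Nat.card {x : G ⧸ H // g • x = x} : ℤ) = 0

/-- `K = k₀(t)`. -/
def RatGen {K : Type} [Field K] (k₀ : Subfield K) (t : K) : Prop :=
  ∀ y : K, ∃ P Q : Polynomial k₀, aeval t Q ≠ 0 ∧ y = aeval t P / aeval t Q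

section

variable {K : Type} [Field K]

/-- The invariants over the intermediate field `F`. -/
noncomputable def inv (A : Type) [AddCommGroup A] [DistribMulAction Gal(AlgebraicClosure K/K) A]
    (F : IntermediateField K (AlgebraicClosure K)) : Submodule ℤ A :=
  fixedSub A F.fixingSubgroup

variable {F N : IntermediateField K (AlgebraicClosure K)} (hFN : F ≤ N)

/-- `N` as an extension of `F`. -/
noncomputable abbrev ext (hFN : F ≤ N) : IntermediateField F (AlgebraicClosure K) :=
  IntermediateField.extendScalars hFN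

/-- The field fixed by `H`, inside the algebraic closure. -/
noncomputable def fieldOf (H : Subgroup Gal((ext hFN)/F)) :
    IntermediateField K (AlgebraicClosure K) :=
  ((IntermediateField.fixedField H).map (ext hFN).val).restrictScalars K

/-- The function `b` respects the relations between permutation characters. -/
def Additive (b : IntermediateField K (AlgebraicClosure K) → ℕ → ℂ) : Prop :=
  ∀ (F N : IntermediateField K (AlgebraicClosure K)) (hFN : F ≤ N) [FiniteDimensional K N]
    [IsGalois K N] (T : Finset (Subgroup Gal((ext hFN)/F))) (n : Subgroup Gal((ext hFN)/F) → ℤ),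
    PermRel T n → ∀ p, ∑ H ∈ T, (n H : ℂ) * b (fieldOf hFN H) p = 0

end

section

variable {K : Type} [Field K] [CharZero K]

/-- The formula over the intermediate field `F`. -/
def ModNagao (R₁ : Subring K) (a : (p : ℕ) → (R₁ →+* ZMod p) → ℤ)
    (b : IntermediateField K (AlgebraicClosure K) → ℕ → ℂ)
    (A : Type) [AddCommGroup A] [DistribMulAction Gal(AlgebraicClosure K/K) A]
    (U : Set ℂ) (F : IntermediateField K (AlgebraicClosure K)) : Prop :=
  GNagao R₁ a U (algebraMap K F) (b F) (Module.rank ℤ (inv A F))

end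

end Pool.Agent.MP_3d3918
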