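import Pool.Agent.Lib.MP_3d3918_nt.Conj
import Pool.Agent.Lib.MP_3d3918_nt.Defs1

/-!
# Absolute values of a rational function field which are trivial on the constants
-/

set_option autoImplicit false

open Filter Topology Polynomial

namespace Pool.Agent.MP_3d3918

section

variable {K : Type} [Field K] {k₀ : Subfield K} {t : K}

/-- `K = k₀(t)`, with fractions in lowest terms. -/
def RatGenC (k₀ : Subfield K) (t : K) : Prop :=
  ∀ y : K, ∃ P Q : Polynomial k₀, IsCoprime P Q ∧ aeval t Q ≠ 0 ∧ y = aeval t P / aeval t Q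

theorem poly_le_one (u : AbsoluteValue K ℝ) (hu : IsNonarchimedean u)
    (h₀ : ∀ y ∈ k₀, y ≠ 0 → u y = 1) (ht : u t ≤ 1) (P : Polynomial k₀) :
    u (aeval t P) ≤ 1 := by
  induction P using Polynomial.induction_on' with
  | add p q hp hq =>
    rw [map_add]
    exact (hu _ _).trans (max_le hp hq)
  | monomial n a =>
    rw [aeval_monomial, map_mul, map_pow]
    have h1 : u (algebraMap k₀ K a) ≤ 1 := by
      by_cases ha : algebraMap k₀ K a = 0
      · rw [ha, map_zero]
        exact zero_le_one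
      · exact (h₀ _ a.2 ha).le
    exact mul_le_one₀ h1 (pow_nonneg (u.nonneg _) _) (pow_le_one₀ (u.nonneg _) ht)

theorem poly_eq_one (u : AbsoluteValue K ℝ) (hu : IsNonarchimedean u)
    (h₀ : ∀ y ∈ k₀, y ≠ 0 → u y = 1) (ht : u t ≤ 1) (P π : Polynomial k₀)
    (hc : IsCoprime P π) (hπ : u (aeval t π) < 1) : u (aeval t P) = 1 := by
  obtain ⟨a, b, hab⟩ := hc
  refine le_antisymm (poly_le_one u hu h₀ ht P) ?_
  have h1 : aeval t a * aeval t P + aeval t b * aeval t π = 1 := by
    rw [← map_mul, ← map_mul, ← map_add, hab, map_one]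
  have h2 : (1 : ℝ) ≤ max (u (aeval t a * aeval t P)) (u (aeval t b * aeval t π)) := by
    have := hu (aeval t a * aeval t P) (aeval t b * aeval t π)
    rwa [h1, map_one] at this
  rcases le_max_iff.1 h2 with h3 | h3
  · rw [map_mul] at h3
    refine h3.trans (mul_le_of_le_one_left (u.nonneg _) (poly_le_one u hu h₀ ht a))
  · rw [map_mul] at h3
    have h4 : u (aeval t b) * u (aeval t π) ≤ 1 * u (aeval t π) :=
      mul_le_mul_of_nonneg_right (poly_le_one u hu h₀ ht b) (u.nonneg _)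
    linarith

theorem poly_top (u : AbsoluteValue K ℝ) (hu : IsNonarchimedean u)
    (h₀ : ∀ y ∈ k₀, y ≠ 0 → u y = 1) (ht : 1 < u t) (P : Polynomial k₀) (hP : P ≠ 0) :
    u (aeval t P) = u t ^ P.natDegree := by
  have hcoef : ∀ n, u (algebraMap k₀ K (P.coeff n)) ≤ 1 := by
    intro n
    by_cases ha : algebraMap k₀ K (P.coeff n) = 0
    · rw [ha, map_zero]
      exact zero_le_one
    · exact (h₀ _ (P.coeff n).2 ha).le
  have hlead : u (algebraMap k₀ K (P.coeff P.natDegree)) = 1 := by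
    refine h₀ _ (P.coeff P.natDegree).2 ?_
    intro h
    apply hP
    rw [← leadingCoeff_eq_zero]
    exact (algebraMap k₀ K).injective (by rw [map_zero]; exact h)
  have hterm : u (P.coeff P.natDegree • t ^ P.natDegree) = u t ^ P.natDegree := by
    rw [Algebra.smul_def, map_mul, map_pow, hlead, one_mul]
  rw [aeval_eq_sum_range, ← hterm]
  refine IsNonarchimedean.apply_sum_eq_of_lt hu (fun a => (u.map_neg a).symm)
    (Finset.mem_range.2 (Nat.lt_succ_self _)) ?_
  intro j hj hne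
  rw [hterm, Algebra.smul_def, map_mul, map_pow]
  have hlt : j < P.natDegree := by
    rw [Finset.mem_range] at hj
    omega
  have h2 : u t ^ j < u t ^ P.natDegree := pow_lt_pow_right₀ ht hlt
  have h3 : u (algebraMap k₀ K (P.coeff j)) * u t ^ j ≤ 1 * u t ^ j :=
    mul_le_mul_of_nonneg_right (hcoef j) (pow_nonneg (u.nonneg _) _)
  linarith

theorem equiv_of_fin (hgen : RatGenC k₀ t) (u u' : AbsoluteValue K ℝ) (hu : IsNonarchimedean u)
    (hu' : IsNonarchimedean u') (h₀ : ∀ y ∈ k₀, y ≠ 0 → u y = 1)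
    (h₀' : ∀ y ∈ k₀, y ≠ 0 → u' y = 1) (hnt : u.IsNontrivial) (ht : u t ≤ 1) (ht' : u' t ≤ 1)
    (π : Polynomial k₀) (hirr : Irreducible π) (hπ : u (aeval t π) < 1)
    (hπ' : u' (aeval t π) < 1) : u.IsEquiv u' := by
  refine AbsoluteValue.isEquiv_of_lt_one_imp hnt fun y hy => ?_
  obtain ⟨P, Q, hPQ, hQ, rfl⟩ := hgen y
  rw [map_div₀] at hy ⊢
  have hQ1 : u (aeval t Q) ≤ 1 := poly_le_one u hu h₀ ht Q
  have hQ0 : 0 < u (aeval t Q) := u.pos hQ
  have hP1 : u (aeval t P) < 1 := by
    rw [div_lt_one hQ0] at hy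
    linarith
  have hdvd : π ∣ P := by
    rcases hirr.isCoprime_or_dvd P with h | h
    · exact absurd (poly_eq_one u hu h₀ ht P π h.symm hπ) hP1.ne
    · exact h
  have hQπ : IsCoprime Q π := (hPQ.of_isCoprime_of_dvd_left hdvd).symm
  rw [poly_eq_one u' hu' h₀' ht' Q π hQπ hπ', div_one]
  obtain ⟨R, rfl⟩ := hdvd
  rw [map_mul, map_mul]
  have h4 : u' (aeval t π) * u' (aeval t R) ≤ u' (aeval t π) * 1 :=
    mul_le_mul_of_nonneg_left (poly_le_one u' hu' h₀' ht' R) (u'.nonneg _)
  linarith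

theorem equiv_of_top (hgen : RatGenC k₀ t) (u u' : AbsoluteValue K ℝ) (hu : IsNonarchimedean u)
    (hu' : IsNonarchimedean u') (h₀ : ∀ y ∈ k₀, y ≠ 0 → u y = 1)
    (h₀' : ∀ y ∈ k₀, y ≠ 0 → u' y = 1) (hnt : u.IsNontrivial) (ht : 1 < u t) (ht' : 1 < u' t) :
    u.IsEquiv u' := by
  refine AbsoluteValue.isEquiv_of_lt_one_imp hnt fun y hy => ?_
  by_cases hy0 : y = 0
  · rw [hy0, map_zero]
    exact one_pos
  obtain ⟨P, Q, -, hQ, rfl⟩ := hgen y
  have hQ0 : Q ≠ 0 := by
    rintro rfl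
    exact hQ (map_zero _)
  have hP0 : P ≠ 0 := by
    rintro rfl
    apply hy0
    rw [map_zero, zero_div]
  rw [map_div₀] at hy ⊢
  rw [poly_top u hu h₀ ht P hP0, poly_top u hu h₀ ht Q hQ0,
    div_lt_one (pow_pos (by linarith) _)] at hy
  have hlt : P.natDegree < Q.natDegree := (pow_lt_pow_iff_right₀ ht).1 hy
  rw [poly_top u' hu' h₀' ht' P hP0, poly_top u' hu' h₀' ht' Q hQ0,
    div_lt_one (pow_pos (by linarith) _)]
  exact pow_lt_pow_right₀ ht' hlt

/-- The finitely many cases. -/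
def Case (u : AbsoluteValue K ℝ) (t : K) (c : Option (Polynomial k₀)) : Prop :=
  match c with
  | none => 1 < u t
  | some π => u t ≤ 1 ∧ u (aeval t π) < 1

open Classical in
/-- The cases in which the elements of `S` are not all units. -/
theorem exists_cases (hgen : RatGenC k₀ t) (S : Finset K) (hS : ∀ s ∈ S, s ≠ 0) :
    ∃ T : Finset (Option (Polynomial k₀)), (∀ π, some π ∈ T → Irreducible π) ∧
      ∀ u : AbsoluteValue K ℝ, IsNonarchimedean u → (∀ y ∈ k₀, y ≠ 0 → u y = 1) →
        (∃ s ∈ S, u s ≠ 1) → ∃ c ∈ T, Case u t c := by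
  choose P Q _hPQ hQ hPQt using hgen
  have hQ0 : ∀ s, Q s ≠ 0 := by
    intro s h
    apply hQ s
    rw [h, map_zero]
  have hP0 : ∀ s, s ≠ 0 → P s ≠ 0 := by
    intro s hs h
    apply hs
    rw [hPQt s, h, map_zero, zero_div]
  have hfac : ∀ R : Polynomial k₀, R ≠ 0 → ∃ T : Finset (Polynomial k₀),
      (∀ π ∈ T, Irreducible π) ∧ ∀ u : AbsoluteValue K ℝ, IsNonarchimedean u →
        (∀ y ∈ k₀, y ≠ 0 → u y = 1) → u t ≤ 1 → u (aeval t R) < 1 →
          ∃ π ∈ T, u (aeval t π) < 1 := by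
    intro R hR
    refine ⟨(UniqueFactorizationMonoid.factors R).toFinset, fun π hπ => ?_, ?_⟩
    · exact UniqueFactorizationMonoid.irreducible_of_factor π (Multiset.mem_toFinset.1 hπ)
    · intro u hu h₀ ht hlt
      by_contra hcon
      push Not at hcon
      obtain ⟨ε, hε⟩ := UniqueFactorizationMonoid.factors_prod hR
      rw [← hε, map_mul, map_mul] at hlt
      have h1 : u (aeval t (ε : Polynomial k₀)) = 1 := by
        refine poly_eq_one u hu h₀ ht ε 0 ?_ (by rw [map_zero, map_zero]; exact one_pos)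
        rw [isCoprime_zero_right]
        exact ε.isUnit
      rw [h1, mul_one] at hlt
      have h2 : ∀ s : Multiset (Polynomial k₀), (∀ π ∈ s, 1 ≤ u (aeval t π)) →
          1 ≤ u (aeval t s.prod) := by
        intro s
        induction s using Multiset.induction_on with
        | empty =>
          intro _
          rw [Multiset.prod_zero, map_one, map_one]
        | cons a s ih =>
          intro h
          rw [Multiset.prod_cons, map_mul, map_mul]
          exact one_le_mul_of_one_le_of_one_le (h a (Multiset.mem_cons_self a s))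
            (ih fun π hπ => h π (Multiset.mem_cons_of_mem hπ))
      have h3 := h2 _ (fun π hπ => hcon π (Multiset.mem_toFinset.2 hπ))
      linarith
  choose! f hf1 hf2 using hfac
  refine ⟨insert none ((S.biUnion fun s => f (P s) ∪ f (Q s)).image some), ?_, ?_⟩
  · intro π hπ
    rw [Finset.mem_insert] at hπ
    rcases hπ with h | h
    · cases h
    · obtain ⟨π', h1, h2⟩ := Finset.mem_image.1 h
      obtain rfl : π' = π := by simpa using h2
      obtain ⟨s, hs, h3⟩ := Finset.mem_biUnion.1 h1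
      rcases Finset.mem_union.1 h3 with h4 | h4
      · exact hf1 _ (hP0 s (hS s hs)) _ h4
      · exact hf1 _ (hQ0 s) _ h4
  · rintro u hu h₀ ⟨s, hs, hne⟩
    rcases lt_or_ge 1 (u t) with ht | ht
    · exact ⟨none, Finset.mem_insert_self _ _, ht⟩
    · have h1 : u (aeval t (P s)) < 1 ∨ u (aeval t (Q s)) < 1 := by
        by_contra hcon
        push Not at hcon
        apply hne
        rw [hPQt s, map_div₀, le_antisymm (poly_le_one u hu h₀ ht (P s)) hcon.1,
          le_antisymm (poly_le_one u hu h₀ ht (Q s)) hcon.2, div_one]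
      rcases h1 with h1 | h1
      · obtain ⟨π, h2, h3⟩ := hf2 _ (hP0 s (hS s hs)) u hu h₀ ht h1
        refine ⟨some π, Finset.mem_insert_of_mem (Finset.mem_image_of_mem _
          (Finset.mem_biUnion.2 ⟨s, hs, Finset.mem_union_left _ h2⟩)), ht, h3⟩
      · obtain ⟨π, h2, h3⟩ := hf2 _ (hQ0 s) u hu h₀ ht h1
        refine ⟨some π, Finset.mem_insert_of_mem (Finset.mem_image_of_mem _
          (Finset.mem_biUnion.2 ⟨s, hs, Finset.mem_union_right _ h2⟩)), ht, h3⟩

theorem equiv_of_case (hgen : RatGenC k₀ t) (u u' : AbsoluteValue K ℝ) (hu : IsNonarchimedean u)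
    (hu' : IsNonarchimedean u') (h₀ : ∀ y ∈ k₀, y ≠ 0 → u y = 1)
    (h₀' : ∀ y ∈ k₀, y ≠ 0 → u' y = 1) (hnt : u.IsNontrivial) (c : Option (Polynomial k₀))
    (hirr : ∀ π, c = some π → Irreducible π) (hc : Case u t c) (hc' : Case u' t c) :
    u.IsEquiv u' := by
  cases c with
  | none => exact equiv_of_top hgen u u' hu hu' h₀ h₀' hnt hc hc'
  | some π =>
    exact equiv_of_fin hgen u u' hu hu' h₀ h₀' hnt hc.1 hc'.1 π (hirr π rfl) hc.2 hc'.2

end

theorem ratGenC_of {K : Type} [Field K] {k₀ : Subfield K} {t : K}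
    (h : RatGen k₀ t) : RatGenC k₀ t := by
  classical
  intro y
  obtain ⟨P, Q, hQ, rfl⟩ := h y
  have hQ0 : Q ≠ 0 := by
    rintro rfl
    exact hQ (map_zero _)
  have hg : EuclideanDomain.gcd P Q ≠ 0 := by
    intro h0
    exact hQ0 (EuclideanDomain.gcd_eq_zero_iff.1 h0).2
  obtain ⟨P', hP'⟩ := EuclideanDomain.gcd_dvd_left P Q
  obtain ⟨Q', hQ'⟩ := EuclideanDomain.gcd_dvd_right P Q
  have hgt : aeval t (EuclideanDomain.gcd P Q) ≠ 0 := by
    intro h0
    apply hQ
    rw [hQ', map_mul, h0, zero_mul]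
  refine ⟨P', Q', ?_, ?_, ?_⟩
  · have hb := EuclideanDomain.gcd_eq_gcd_ab P Q
    refine ⟨EuclideanDomain.gcdA P Q, EuclideanDomain.gcdB P Q, ?_⟩
    apply mul_left_cancel₀ hg
    calc EuclideanDomain.gcd P Q * (EuclideanDomain.gcdA P Q * P' + EuclideanDomain.gcdB P Q * Q')
        = (EuclideanDomain.gcd P Q * P') * EuclideanDomain.gcdA P Q +
          (EuclideanDomain.gcd P Q * Q') * EuclideanDomain.gcdB P Q := by ring
      _ = P * EuclideanDomain.gcdA P Q + Q * EuclideanDomain.gcdB P Q := by rw [← hP', ← hQ']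
      _ = EuclideanDomain.gcd P Q * 1 := by rw [← hb, mul_one]
  · intro h0
    apply hQ
    rw [hQ', map_mul, h0, mul_zero]
  · have e1 : aeval t P = aeval t (EuclideanDomain.gcd P Q) * aeval t P' := by
      rw [← map_mul, ← hP']
    have e2 : aeval t Q = aeval t (EuclideanDomain.gcd P Q) * aeval t Q' := by
      rw [← map_mul, ← hQ']
    rw [e1, e2, mul_div_mul_left _ _ hgt]

end Pool.Agent.MP_3d3918
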