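import Pool.Agent.Lib.MP_3d3918_nt.General

/-!
# Modules over the absolute Galois group
-/

set_option autoImplicit false

open Filter Topology

namespace Pool.Agent.MP_3d3918

section

variable {K : Type} [Field K] [CharZero K] {F M : IntermediateField K (AlgebraicClosure K)}
  (hFM : F ≤ M)

omit [CharZero K] in
theorem normal_closure_over (F : IntermediateField K (AlgebraicClosure K)) :
    Normal F (AlgebraicClosure K) := by
  have hclos : IsAlgClosure F (AlgebraicClosure K) :=
    ⟨inferInstance, Algebra.IsAlgebraic.tower_top (K := K) F⟩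
  exact IsAlgClosure.normal F (AlgebraicClosure K)

omit [CharZero K] in
theorem normal_ext [Normal K M] : Normal F (ext hFM) := by
  have hN := normal_closure_over F
  rw [IntermediateField.normal_iff_forall_map_le']
  intro σ x hx
  obtain ⟨y, hy, rfl⟩ := hx
  exact (IntermediateField.normal_iff_forall_map_le'.1 (inferInstance : Normal K M))
    (σ.restrictScalars K) ⟨y, hy, rfl⟩

/-- A lift of an automorphism of `M` over `F`. -/
noncomputable def liftG [Normal K M] (g : Gal((ext hFM)/F)) : Gal(AlgebraicClosure K/K) :=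
  have := normal_ext hFM
  have := normal_closure_over F
  (g.liftNormal (AlgebraicClosure K)).restrictScalars K

omit [CharZero K] in
theorem liftG_apply [Normal K M] (g : Gal((ext hFM)/F)) (x : ext hFM) :
    liftG hFM g (x : AlgebraicClosure K) = (g x : AlgebraicClosure K) := by
  have := normal_ext hFM
  have := normal_closure_over F
  exact g.liftNormal_commutes (AlgebraicClosure K) x

variable (A : Type) [AddCommGroup A] [DistribMulAction Gal(AlgebraicClosure K/K) A]

variable {A}

omit [CharZero K] in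
theorem smul_eq_of_agree {a : A} (ha : a ∈ inv A M) (ρ ρ' : Gal(AlgebraicClosure K/K))
    (h : ∀ x ∈ M, ρ x = ρ' x) : ρ • a = ρ' • a := by
  have h1 : ρ'⁻¹ * ρ ∈ M.fixingSubgroup := by
    rw [IntermediateField.mem_fixingSubgroup_iff]
    intro x hx
    change ρ'⁻¹ (ρ x) = x
    rw [h x hx]
    exact ρ'.symm_apply_apply x
  have h2 := ha _ h1
  calc ρ • a = ρ' • ((ρ'⁻¹ * ρ) • a) := by rw [smul_smul, mul_inv_cancel_left]
    _ = ρ' • a := by rw [h2]

omit [CharZero K] in
theorem smul_mem_inv [Normal K M] {a : A} (ha : a ∈ inv A M) (ρ : Gal(AlgebraicClosure K/K)) :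
    ρ • a ∈ inv A M := by
  intro ν hν
  rw [smul_smul]
  refine smul_eq_of_agree ha _ _ fun x hx => ?_
  change ν (ρ x) = ρ x
  have h1 : ρ x ∈ M :=
    (IntermediateField.normal_iff_forall_map_le'.1 (inferInstance : Normal K M)) ρ ⟨x, hx, rfl⟩
  exact (IntermediateField.mem_fixingSubgroup_iff _ _).1 hν _ h1

variable (A)

/-- The action of the Galois group of `M` over `F` on the invariants over `M`. -/
@[instance_reducible]
noncomputable def invAct [Normal K M] : DistribMulAction Gal((ext hFM)/F) (inv A M) where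
  smul g a := ⟨liftG hFM g • a.1, smul_mem_inv a.2 _⟩
  one_smul a := Subtype.ext (by
    change liftG hFM 1 • a.1 = a.1
    rw [smul_eq_of_agree a.2 (liftG hFM 1) 1 (fun x hx => liftG_apply hFM 1 ⟨x, hx⟩), one_smul])
  mul_smul g h a := Subtype.ext (by
    change liftG hFM (g * h) • a.1 = liftG hFM g • (liftG hFM h • a.1)
    rw [smul_smul]
    refine smul_eq_of_agree a.2 _ _ fun x hx => ?_
    rw [AlgEquiv.mul_apply]
    rw [liftG_apply hFM (g * h) ⟨x, hx⟩, liftG_apply hFM h ⟨x, hx⟩, liftG_apply]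
    rfl)
  smul_zero g := Subtype.ext (smul_zero _)
  smul_add g a b := Subtype.ext (smul_add _ _ _)

omit [CharZero K] in
theorem mem_fixing_fieldOf [Normal K M] [FiniteDimensional F (ext hFM)] [IsGalois F (ext hFM)]
    (H : Subgroup Gal((ext hFM)/F)) (ρ : Gal(AlgebraicClosure K/K)) :
    ρ ∈ (fieldOf hFM H).fixingSubgroup ↔ ∃ h ∈ H, ∀ x ∈ M, ρ x = liftG hFM h x := by
  have hN := normal_ext hFM
  have hcl := normal_closure_over F
  constructor
  · intro h
    have hρF : ρ ∈ F.fixingSubgroup := by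
      rw [IntermediateField.mem_fixingSubgroup_iff] at h ⊢
      intro x hx
      exact h x ⟨algebraMap F (ext hFM) ⟨x, hx⟩, IntermediateField.algebraMap_mem _ _, rfl⟩
    let ρF : Gal(AlgebraicClosure K/F) := IntermediateField.fixingSubgroupEquiv F ⟨ρ, hρF⟩
    have h1 : ∀ x : ext hFM, ((AlgEquiv.restrictNormalHom (ext hFM) ρF x : ext hFM) :
        AlgebraicClosure K) = ρ x := fun x =>
      AlgEquiv.restrictNormal_commutes ρF (ext hFM) x
    refine ⟨AlgEquiv.restrictNormalHom (ext hFM) ρF, ?_, fun x hx => ?_⟩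
    · rw [← IntermediateField.fixingSubgroup_fixedField H,
        IntermediateField.mem_fixingSubgroup_iff]
      intro x hx
      apply Subtype.ext
      rw [h1]
      exact (IntermediateField.mem_fixingSubgroup_iff _ _).1 h _ ⟨x, hx, rfl⟩
    · rw [liftG_apply hFM _ ⟨x, hx⟩, h1]
  · rintro ⟨h, hh, hx⟩
    rw [IntermediateField.mem_fixingSubgroup_iff]
    rintro _ ⟨y, hy, rfl⟩
    have h1 : h y = y := (IntermediateField.mem_fixedField_iff _ _).1 hy h hh
    have h2 := hx (y : AlgebraicClosure K) y.2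
    change ρ (y : AlgebraicClosure K) = y
    rw [h2, liftG_apply, h1]

omit [CharZero K] in
/-- The invariants. -/
theorem exists_inv_equiv [Normal K M] [FiniteDimensional F (ext hFM)] [IsGalois F (ext hFM)]
    (H : Subgroup Gal((ext hFM)/F)) :
    letI := invAct hFM A
    Nonempty (fixedSub (inv A M) H ≃ₗ[ℤ] inv A (fieldOf hFM H)) := by
  let _ := invAct hFM A
  have hsm : ∀ (h : Gal((ext hFM)/F)) (a : inv A M), ((h • a : inv A M) : A) =
      liftG hFM h • a.1 := fun h a => rfl
  let f : fixedSub (inv A M) H →ₗ[ℤ] A := (inv A M).subtype.comp (fixedSub (inv A M) H).subtype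
  have hf : ∀ a, f a = (a.1.1 : A) := fun a => rfl
  have hmem : ∀ a, f a ∈ inv A (fieldOf hFM H) := by
    intro a ρ hρ
    obtain ⟨h, hh, hx⟩ := (mem_fixing_fieldOf hFM H ρ).1 hρ
    rw [hf, smul_eq_of_agree a.1.2 ρ (liftG hFM h) hx, ← hsm, a.2 h hh]
  refine ⟨LinearEquiv.ofBijective (f.codRestrict _ hmem) ⟨?_, ?_⟩⟩
  · intro a b h
    have h2 : f a = f b := congrArg (fun z : inv A (fieldOf hFM H) => (z : A)) h
    exact Subtype.ext (Subtype.ext h2)
  · rintro ⟨a, ha⟩
    have haM : a ∈ inv A M := by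
      intro ν hν
      apply ha
      rw [mem_fixing_fieldOf]
      refine ⟨1, H.one_mem, fun x hx => ?_⟩
      rw [liftG_apply hFM 1 ⟨x, hx⟩]
      exact (IntermediateField.mem_fixingSubgroup_iff _ _).1 hν x hx
    refine ⟨⟨⟨a, haM⟩, ?_⟩, rfl⟩
    intro h hh
    apply Subtype.ext
    rw [hsm]
    apply ha
    rw [mem_fixing_fieldOf]
    exact ⟨h, hh, fun x _ => rfl⟩

omit [CharZero K] in
theorem fieldOf_bot : fieldOf hFM (⊥ : Subgroup Gal((ext hFM)/F)) = M := by
  ext x
  unfold fieldOf
  rw [IntermediateField.mem_restrictScalars]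
  constructor
  · rintro ⟨y, _, rfl⟩
    exact y.2
  · intro hx
    refine ⟨⟨x, hx⟩, ?_, rfl⟩
    change (⟨x, hx⟩ : ext hFM) ∈ IntermediateField.fixedField _
    rw [IntermediateField.mem_fixedField_iff]
    intro g hg
    rw [Subgroup.mem_bot.1 hg]
    rfl

omit [CharZero K] in
theorem fieldOf_top [FiniteDimensional F (ext hFM)] [IsGalois F (ext hFM)] :
    fieldOf hFM (⊤ : Subgroup Gal((ext hFM)/F)) = F := by
  ext x
  unfold fieldOf
  rw [IntermediateField.mem_restrictScalars, IsGalois.fixedField_top, IntermediateField.map_bot,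
    IntermediateField.mem_bot]
  constructor
  · rintro ⟨y, rfl⟩
    exact y.2
  · intro hx
    exact ⟨⟨x, hx⟩, rfl⟩

omit [CharZero K] in
/-- The relation between the ranks of the invariants. -/
theorem inv_relation [Normal K M] [FiniteDimensional F (ext hFM)] [IsGalois F (ext hFM)]
    (T : Finset (Subgroup Gal((ext hFM)/F))) (n : Subgroup Gal((ext hFM)/F) → ℤ)
    (hrel : ∀ g : Gal((ext hFM)/F), ∑ H ∈ T, n H *
      (Nat.card {x : Gal((ext hFM)/F) ⧸ H // g • x = x} : ℤ) = Nat.card Gal((ext hFM)/F))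
    (r' : Subgroup Gal((ext hFM)/F) → ℕ)
    (hr' : ∀ H ∈ T, Module.rank ℤ (inv A (fieldOf hFM H)) = r' H) (r₂ : ℕ)
    (hr₂ : Module.rank ℤ (inv A (fieldOf hFM (⊥ : Subgroup Gal((ext hFM)/F)))) = r₂) :
    ∃ r₁ : ℕ, Module.rank ℤ (inv A F) = r₁ ∧
      ∑ H ∈ T, n H * (r' H : ℤ) = Nat.card Gal((ext hFM)/F) * (r₁ : ℤ) := by
  let _ := invAct hFM A
  rw [fieldOf_bot] at hr₂
  have hA' : Module.rank ℤ (inv A M) < Cardinal.aleph0 := by
    rw [hr₂]
    exact Cardinal.natCast_lt_aleph0
  have h1 := rank_relation (finite_V hA') T n hrel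
  obtain ⟨e⟩ := exists_inv_equiv hFM A (⊤ : Subgroup Gal((ext hFM)/F))
  rw [fieldOf_top] at e
  refine ⟨Module.finrank ℤ (fixedSub (inv A M) (⊤ : Subgroup Gal((ext hFM)/F))), ?_, ?_⟩
  · rw [← e.rank_eq]
    unfold Module.finrank
    rw [Cardinal.cast_toNat_of_lt_aleph0]
    exact lt_of_le_of_lt (Submodule.rank_le _) hA'
  · rw [← h1]
    refine Finset.sum_congr rfl fun H hH => ?_
    congr 2
    obtain ⟨e'⟩ := exists_inv_equiv hFM A H
    rw [e'.finrank_eq]
    unfold Module.finrank
    rw [hr' H hH, Cardinal.toNat_natCast]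

end

end Pool.Agent.MP_3d3918
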