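import Pool.Agent.Lib.MP_3d3918_nt.Abstract
import Pool.Agent.Lib.MP_3d3918_nt.Module

/-!
# The step from the formulas over the fixed fields of the cyclic subgroups
-/

set_option autoImplicit false

open Filter Topology

namespace Pool.Agent.MP_3d3918

section

variable {K : Type} [Field K] [CharZero K] {F N : IntermediateField K (AlgebraicClosure K)}
  (hFN : F ≤ N)

omit [CharZero K] in
theorem finite_ext [FiniteDimensional K N] : FiniteDimensional F (ext hFN) := by
  have h3 : FiniteDimensional K (ext hFN) := (inferInstance : FiniteDimensional K N)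
  exact Module.Finite.of_restrictScalars_finite K F (ext hFN)

theorem galois_ext [Normal K N] : IsGalois F (ext hFN) := by
  have h1 := normal_ext hFN
  exact { }

omit [CharZero K] in
theorem le_fieldOf (H : Subgroup Gal((ext hFN)/F)) : F ≤ fieldOf hFN H := by
  intro x hx
  exact ⟨algebraMap F (ext hFN) ⟨x, hx⟩, IntermediateField.algebraMap_mem _ _, rfl⟩

omit [CharZero K] in
theorem fieldOf_le (H : Subgroup Gal((ext hFN)/F)) : fieldOf hFN H ≤ N := by
  rintro x ⟨y, _, rfl⟩
  exact y.2

theorem cyclic_fieldOf [FiniteDimensional K N] [Normal K N] (H : Subgroup Gal((ext hFN)/F))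
    (hH : IsCyclic H) : IsCyclic (relGal N (fieldOf hFN H)) := by
  have nor := normal_ext hFN
  have fin := finite_ext hFN
  have gal := galois_ext hFN
  let j : ↥(fieldOf hFN H).fixingSubgroup →* ↥F.fixingSubgroup :=
    Subgroup.inclusion (IntermediateField.fixingSubgroup_le (le_fieldOf hFN H))
  let f : ↥(fieldOf hFN H).fixingSubgroup →* Gal((ext hFN)/F) :=
    (AlgEquiv.restrictNormalHom (ext hFN)).comp
      ((IntermediateField.fixingSubgroupEquiv F).toMonoidHom.comp j)
  have hf : ∀ (σ : ↥(fieldOf hFN H).fixingSubgroup) (x : ext hFN),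
      (ext hFN).val (f σ x) = σ.1 ((ext hFN).val x) := by
    intro σ x
    exact AlgEquiv.restrictNormal_commutes
      (IntermediateField.fixingSubgroupEquiv F (j σ)) (ext hFN) x
  refine cyclic_of_ker_le f
    ((AlgEquiv.restrictNormalHom N : Gal(AlgebraicClosure K/K) →* Gal(N/K)).subgroupMap
      (fieldOf hFN H).fixingSubgroup) (MonoidHom.subgroupMap_surjective _ _) ?_ ?_
  · intro σ hσ
    rw [MonoidHom.mem_ker] at hσ ⊢
    apply Subtype.ext
    change AlgEquiv.restrictNormalHom N σ.1 = 1
    ext y
    rw [AlgEquiv.restrictNormalHom_apply]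
    have h2 := hf σ ⟨(y : AlgebraicClosure K), y.2⟩
    rw [hσ] at h2
    rw [AlgEquiv.one_apply] at h2
    exact h2.symm
  · refine cyclic_of_le ?_ hH
    rintro _ ⟨σ, rfl⟩
    have hfix : f σ ∈ (IntermediateField.fixedField H).fixingSubgroup ↔ f σ ∈ H := by
      rw [IntermediateField.fixingSubgroup_fixedField H]
    apply hfix.1
    rw [IntermediateField.mem_fixingSubgroup_iff]
    intro x hx
    apply (ext hFN).val.injective
    refine (hf σ x).trans ?_
    have h3 : (ext hFN).val x ∈ fieldOf hFN H := ⟨x, hx, rfl⟩
    exact (IntermediateField.mem_fixingSubgroup_iff _ _).1 σ.2 _ h3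

/-- The step. -/
theorem stepProp_of_cyclic (P : IntermediateField K (AlgebraicClosure K) → Prop)
    (h : ∀ (F N : IntermediateField K (AlgebraicClosure K)) (hFN : F ≤ N)
      [FiniteDimensional K N] [IsGalois K N],
      (∀ H : Subgroup Gal((ext hFN)/F), IsCyclic H → P (fieldOf hFN H)) → P F) : StepProp P := by
  intro F hF hP M _ _
  obtain ⟨N, hFN, hMN, finN, galN⟩ := exists_galois_sup F M
  obtain ⟨H, hH, hbad⟩ : ∃ H : Subgroup Gal((ext hFN)/F), IsCyclic H ∧ ¬ P (fieldOf hFN H) := by
    by_contra hcon
    push Not at hcon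
    exact hP (h F N hFN hcon)
  exact ⟨fieldOf hFN H, N, galN, finN, le_fieldOf hFN H, fieldOf_le hFN H, hMN,
    cyclic_fieldOf hFN H hH, hbad⟩

/-- The fixed field, as an abstract field. -/
noncomputable def fieldEquiv (H : Subgroup Gal((ext hFN)/F)) :
    IntermediateField.fixedField H ≃+* fieldOf hFN H :=
  (IntermediateField.equivMap (IntermediateField.fixedField H) (ext hFN).val).toRingEquiv

omit [CharZero K] in
theorem fieldEquiv_algebraMap (H : Subgroup Gal((ext hFN)/F)) :
    (fieldEquiv hFN H : IntermediateField.fixedField H →+* fieldOf hFN H).comp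
      ((algebraMap F (IntermediateField.fixedField H)).comp (algebraMap K F)) =
      algebraMap K (fieldOf hFN H) := by
  ext x
  rfl

omit [CharZero K] in
theorem fieldEquiv_symm_algebraMap (H : Subgroup Gal((ext hFN)/F)) :
    ((fieldEquiv hFN H).symm : fieldOf hFN H →+* IntermediateField.fixedField H).comp
      (algebraMap K (fieldOf hFN H)) =
      (algebraMap F (IntermediateField.fixedField H)).comp (algebraMap K F) := by
  rw [← fieldEquiv_algebraMap]
  ext x
  simp

end

section

variable {K : Type} [Field K] [CharZero K]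

/-- The step for Nagao's formula. -/
theorem nagao_step (U : Set ℂ) (E : WeierstrassCurve K) [E.IsElliptic] :
    StepProp (fun F : IntermediateField K (AlgebraicClosure K) =>
      Nagao U (E.map (algebraMap K F))) := by
  apply stepProp_of_cyclic
  intro F N hFN _ _ h
  have fin := finite_ext hFN
  have gal := galois_ext hFN
  refine nagao_of_cyclic (K' := ext hFN) U (E.map (algebraMap K F)) (fun H hH => ?_)
  have h1 := nagao_equiv (fieldEquiv hFN H).symm U _ (h H hH)
  rw [WeierstrassCurve.map_map] at h1 ⊢
  rw [fieldEquiv_symm_algebraMap] at h1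
  exact h1

end

end Pool.Agent.MP_3d3918
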