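import Pool.Agent.Lib.MP_3d3918_nt.Defs0

/-!
# MP_3d3918_nt: Nagao's formula for elliptic curves over finitely generated fields

`K` is a field of characteristic zero, finitely generated over the rationals, and `E` an elliptic
curve over `K`. A model of `E` is a Weierstrass equation over a finitely generated subring of `K`.
-/

set_option autoImplicit false

open Filter Topology WeierstrassCurve

namespace Pool.Agent.MP_3d3918

/-- The trace of Frobenius of a Weierstrass equation over the field with `p` elements:
`p` minus the number of affine points. -/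
noncomputable def trace (p : ℕ) (V : WeierstrassCurve (ZMod p)) : ℤ :=
  p - (Nat.card {q : ZMod p × ZMod p // V.toAffine.Equation q.1 q.2} : ℤ)

/-- The sum of the traces of the fibres over the points of `Spec R` with values in the field with
`p` elements. -/
noncomputable def fibreSum (p : ℕ) (R : Type) [CommRing R] (W : WeierstrassCurve R) : ℤ :=
  ∑ᶠ y : R →+* ZMod p, trace p (W.map y)

/-- The term at the prime `p` of the series of fibre averages:
`p ^ (-dim K)` times the sum of the traces, times `log p`, times `p ^ (-s)`. -/
noncomputable def term (K : Type) [Field K] [CharZero K] (R : Subring K) (W : WeierstrassCurve R)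
    (s : ℂ) (p : Nat.Primes) : ℂ :=
  (fibreSum p R W : ℂ) / ((p : ℕ) : ℂ) ^ (dim K) * (Real.log (p : ℕ) : ℂ) * ((p : ℕ) : ℂ) ^ (-s)

open Classical in
/-- The rank of the group of the rational points. -/
noncomputable def mwRank {K : Type} [Field K] (E : WeierstrassCurve K) : Cardinal :=
  Module.rank ℤ E.toAffine.Point

/-- Nagao's formula for the model of `E` over `R`, continued to the set `U`: the series of the fibre
averages has a meromorphic continuation `F` to `U` and minus its residue at `1` is the rank of
`E(K)`. -/
def NagaoAt (U : Set ℂ) {K : Type} [Field K] [CharZero K] (E : WeierstrassCurve K)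
    (R : Subring K) : Prop :=
  ∃ W : WeierstrassCurve R, W.map R.subtype = E ∧ IsUnit W.Δ ∧
    ∃ r : ℕ, mwRank E = r ∧
      ∃ F : ℂ → ℂ, MeromorphicOn F U ∧
        Tendsto (fun s : ℂ => (s - 1) * F s) (𝓝[≠] 1) (𝓝 (-(r : ℂ))) ∧
        ∃ c : ℝ, ∀ s : ℂ, c < s.re → HasSum (term K R W s) (F s)

/-- Nagao's formula for `E`: it holds for all sufficiently large models. -/
def Nagao (U : Set ℂ) {K : Type} [Field K] [CharZero K] (E : WeierstrassCurve K) : Prop :=
  ∃ R₀ : Subring K, FG R₀ ∧ ∀ R : Subring K, FG R → R₀ ≤ R → NagaoAt U E R

/-- A finitely generated field. -/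
def FGField (K : Type) [Field K] : Prop := ∃ s : Finset K, Subfield.closure (s : Set K) = ⊤

/-- Nagao's formula for all elliptic curves with transcendental `j`-invariant over all finitely
generated fields of transcendence degree `m`. -/
def AllNagao (U : Set ℂ) (m : ℕ) : Prop :=
  ∀ (K : Type) [Field K] [CharZero K], FGField K → dim K = m →
    ∀ (E : WeierstrassCurve K) [E.IsElliptic], Transcendental ℚ E.j → Nagao U E

/-- The field of rational functions in `n + 1` variables. -/
abbrev RatField (n : ℕ) : Type := FractionRing (MvPolynomial (Fin (n + 1)) ℚ)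

/-- The first variable. -/
noncomputable def tvar (n : ℕ) : RatField n :=
  algebraMap (MvPolynomial (Fin (n + 1)) ℚ) (RatField n) (MvPolynomial.X 0)

/-- The curve whose `j`-invariant is the first variable. -/
noncomputable def univCurve (n : ℕ) : WeierstrassCurve (RatField n) := ofJNe0Or1728 (tvar n)

/-- The formula for the universal curve over the finite extension `F` of `ℚ(t, x₁, …, xₙ)`. -/
def UnivNagao (U : Set ℂ) (n : ℕ)
    (F : IntermediateField (RatField n) (AlgebraicClosure (RatField n))) : Prop :=
  Nagao U ((univCurve n).map (algebraMap (RatField n) F))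

/-- The `i`-th variable. -/
noncomputable def ratVar (n : ℕ) (i : Fin (n + 1)) : RatField n :=
  algebraMap (MvPolynomial (Fin (n + 1)) ℚ) (RatField n) (MvPolynomial.X i)

/-- The subfield generated by the other variables. -/
noncomputable def otherVars (n : ℕ) (i : Fin (n + 1)) : Subfield (RatField n) :=
  Subfield.closure {z | ∃ j : Fin (n + 1), j ≠ i ∧ ratVar n j = z}

end Pool.Agent.MP_3d3918
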