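import Pool.Agent.Lib.MP_3d3918_nt.Criterion

/-!
# The universal curve and arbitrary finitely generated fields
-/

set_option autoImplicit false

open Filter Topology WeierstrassCurve

namespace Pool.Agent.MP_3d3918

section

variable (n : ℕ)

instance countable_ratField : Countable (RatField n) := by
  have h1 : Countable (MvPolynomial (Fin (n + 1)) ℚ) := by
    rw [← Cardinal.mk_le_aleph0_iff]
    refine MvPolynomial.cardinalMk_le_max.trans ?_
    refine max_le (max_le ?_ ?_) le_rfl
    · exact Cardinal.mk_le_aleph0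
    · exact Cardinal.mk_le_aleph0
  have h3 : Function.Surjective (fun q : MvPolynomial (Fin (n + 1)) ℚ ×
      nonZeroDivisors (MvPolynomial (Fin (n + 1)) ℚ) =>
      IsLocalization.mk' (RatField n) q.1 q.2) := by
    intro z
    obtain ⟨a, b, rfl⟩ := IsLocalization.exists_mk'_eq (nonZeroDivisors (MvPolynomial (Fin (n + 1)) ℚ)) z
    exact ⟨(a, b), rfl⟩
  exact h3.countable

theorem tvar_transcendental : Transcendental ℚ (tvar n) := by
  have h1 : Transcendental ℚ (MvPolynomial.X (R := ℚ) (0 : Fin (n + 1))) :=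
    MvPolynomial.transcendental_X ℚ 0
  intro h
  exact h1 ((isAlgebraic_algebraMap_iff
    (IsFractionRing.injective (MvPolynomial (Fin (n + 1)) ℚ) (RatField n))).1 h)

theorem transcendental_ne {K : Type} [Field K] [CharZero K] {x : K} (hx : Transcendental ℚ x)
    (q : ℚ) : x ≠ (q : K) := by
  intro h
  apply hx
  rw [h]
  have := isAlgebraic_algebraMap (R := ℚ) (A := K) q
  simpa using this

theorem tvar_ne_zero : tvar n ≠ 0 := by
  have := transcendental_ne (tvar_transcendental n) 0
  simpa using this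

theorem tvar_ne_1728 : tvar n ≠ 1728 := by
  have := transcendental_ne (tvar_transcendental n) 1728
  simpa using this

instance univCurve_isElliptic : (univCurve n).IsElliptic := by
  have hu0 : Fact (IsUnit (tvar n)) := ⟨isUnit_iff_ne_zero.mpr (tvar_ne_zero n)⟩
  have hu1 : Fact (IsUnit (tvar n - 1728)) :=
    ⟨isUnit_iff_ne_zero.mpr (sub_ne_zero.mpr (tvar_ne_1728 n))⟩
  unfold univCurve
  infer_instance

theorem univCurve_j : (univCurve n).j = tvar n := by
  have hu0 : Fact (IsUnit (tvar n)) := ⟨isUnit_iff_ne_zero.mpr (tvar_ne_zero n)⟩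
  have hu1 : Fact (IsUnit (tvar n - 1728)) :=
    ⟨isUnit_iff_ne_zero.mpr (sub_ne_zero.mpr (tvar_ne_1728 n))⟩
  exact ofJNe0Or1728_j (tvar n)

theorem dim_ratField : dim (RatField n) = n + 1 := by
  have h1 := trdeg_add_eq (R := ℚ) (S := MvPolynomial (Fin (n + 1)) ℚ) (A := RatField n)
  have h2 : Algebra.IsAlgebraic (MvPolynomial (Fin (n + 1)) ℚ) (RatField n) :=
    IsLocalization.isAlgebraic _ (nonZeroDivisors (MvPolynomial (Fin (n + 1)) ℚ))
  rw [trdeg_eq_zero (R := MvPolynomial (Fin (n + 1)) ℚ) (A := RatField n), add_zero] at h1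
  unfold dim
  have h3 : Algebra.trdeg ℚ (RatField n) =
      Algebra.trdeg ℚ (MvPolynomial (Fin (n + 1)) ℚ) := by
    rw [h1]
  rw [h3, MvPolynomial.trdeg_of_isDomain]
  simp

end

end Pool.Agent.MP_3d3918
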