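import Pool.Agent.Lib.MP_3d3918_nt.Cyclic

/-!
# The criterion for arbitrary fibrations
-/

set_option autoImplicit false

open Filter Topology

namespace Pool.Agent.MP_3d3918

section

variable {K : Type} [Field K] [CharZero K]

theorem card_fixed_top {G : Type} [Group G] (g : G) :
    Nat.card {x : G ⧸ (⊤ : Subgroup G) // g • x = x} = 1 := by
  have : Subsingleton (G ⧸ (⊤ : Subgroup G)) := QuotientGroup.subsingleton_quotient_top
  have h2 : Subsingleton {x : G ⧸ (⊤ : Subgroup G) // g • x = x} := inferInstance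
  have h3 : Nonempty {x : G ⧸ (⊤ : Subgroup G) // g • x = x} :=
    ⟨⟨((1 : G) : G ⧸ (⊤ : Subgroup G)), Subsingleton.elim _ _⟩⟩
  exact Nat.card_of_subsingleton h3.some

theorem sum_of_additive {b : IntermediateField K (AlgebraicClosure K) → ℕ → ℂ} (hb : Additive b)
    (F N : IntermediateField K (AlgebraicClosure K)) (hFN : F ≤ N) [FiniteDimensional K N]
    [IsGalois K N] (T : Finset (Subgroup Gal((ext hFN)/F))) (n : Subgroup Gal((ext hFN)/F) → ℤ)
    (hrel : ∀ g : Gal((ext hFN)/F), ∑ H ∈ T, n H *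
      (Nat.card {x : Gal((ext hFN)/F) ⧸ H // g • x = x} : ℤ) = Nat.card Gal((ext hFN)/F)) (p : ℕ) :
    ∑ H ∈ T, (n H : ℂ) * b (fieldOf hFN H) p = Nat.card Gal((ext hFN)/F) * b F p := by
  classical
  have fin := finite_ext hFN
  have gal := galois_ext hFN
  let n' : Subgroup Gal((ext hFN)/F) → ℤ := fun H => (if H ∈ T then n H else 0) -
    (if H = ⊤ then (Nat.card Gal((ext hFN)/F) : ℤ) else 0)
  have key : ∀ {R : Type} [CommRing R] (f : Subgroup Gal((ext hFN)/F) → R),
      ∑ H ∈ insert ⊤ T, (n' H : R) * f H =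
      ∑ H ∈ T, (n H : R) * f H - (Nat.card Gal((ext hFN)/F) : R) * f ⊤ := by
    intro R _ f
    have h1 : ∀ H, (n' H : R) * f H = (if H ∈ T then (n H : R) * f H else 0) -
        (if H = ⊤ then (Nat.card Gal((ext hFN)/F) : R) * f ⊤ else 0) := by
      intro H
      change (((if H ∈ T then n H else 0) -
        (if H = ⊤ then (Nat.card Gal((ext hFN)/F) : ℤ) else 0) : ℤ) : R) * f H = _
      by_cases h1 : H ∈ T <;> by_cases h2 : H = ⊤ <;> simp [h1, h2, sub_mul]
    rw [Finset.sum_congr rfl (fun H _ => h1 H), Finset.sum_sub_distrib, Finset.sum_ite_mem,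
      Finset.sum_ite_eq', if_pos (Finset.mem_insert_self _ _),
      Finset.inter_eq_right.2 (Finset.subset_insert _ _)]
  have h2 := hb F N hFN (insert ⊤ T) n' (by
    intro g
    have h3 := key (R := ℤ) (fun H =>
      (Nat.card {x : Gal((ext hFN)/F) ⧸ H // g • x = x} : ℤ))
    simp only [Int.cast_id] at h3
    rw [h3, hrel g, card_fixed_top]
    simp) p
  have h3 := key (R := ℂ) (fun H => b (fieldOf hFN H) p)
  rw [h2, fieldOf_top] at h3
  rw [eq_comm, sub_eq_zero] at h3
  exact h3

variable (R₁ : Subring K) (a : (p : ℕ) → (R₁ →+* ZMod p) → ℤ)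
  (b : IntermediateField K (AlgebraicClosure K) → ℕ → ℂ)
  (A : Type) [AddCommGroup A] [DistribMulAction Gal(AlgebraicClosure K/K) A]

variable {R₁ b}

theorem modNagao_step (hR₁ : FG R₁) (hb : Additive b) (U : Set ℂ) :
    StepProp (ModNagao R₁ a b A U) := by
  apply stepProp_of_cyclic
  intro F N hFN _ _ h
  have fin := finite_ext hFN
  have gal := galois_ext hFN
  refine gnagao_of_cyclic (N := ext hFN) R₁ a U (algebraMap K F) hR₁
    (fun H => b (fieldOf hFN H)) (b F)
    (fun T n hrel p => sum_of_additive hb F N hFN T n hrel p)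
    (fun H => Module.rank ℤ (inv A (fieldOf hFN H))) _
    (fun T n hrel r' hr' r₂ hr₂ => inv_relation hFN A T n hrel r' hr' r₂ hr₂) (fun H hH => ?_)
  have h1 := gnagao_equiv R₁ a U (fieldEquiv hFN H).symm _ _ _ (h H hH)
  rw [fieldEquiv_symm_algebraMap] at h1
  exact h1

end

end Pool.Agent.MP_3d3918
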