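import Pool.Agent.Lib.MP_3d3918_nt.Inertia

/-!
# The local structure of the large fields fixed by one automorphism
-/

set_option autoImplicit false

namespace Pool.Agent.MP_3d3918

section

variable {K : Type} [Field K] [CharZero K]

theorem ev_of_evLocal (P : IntermediateField K (AlgebraicClosure K) → Prop)
    (σ : Gal(AlgebraicClosure K/K)) (v₀ : AbsoluteValue (AlgebraicClosure K) ℝ)
    (h₀ : OnlyPlace σ v₀) (T : Finset (Subfield K)) (hT : ∀ k₀ ∈ T, ∃ t : K, RatGen k₀ t)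
    (h : EvLocal (T : Set (Subfield K)) P σ v₀) : Ev P σ := by
  classical
  obtain ⟨M, hM, F₁, S, finM, finF₁, hall⟩ := h
  have hbot : ∀ x ∈ (⊥ : IntermediateField K (AlgebraicClosure K)), σ x = x := by
    intro x hx
    obtain ⟨a, rfl⟩ := IntermediateField.mem_bot.1 hx
    exact σ.commutes a
  have hA : ∀ v : AbsoluteValue K ℝ, ∃ F₀ : IntermediateField K (AlgebraicClosure K),
      FiniteDimensional K F₀ ∧ (∀ x ∈ F₀, σ x = x) ∧ (v.IsNontrivial →
        ∀ w : AbsoluteValue (AlgebraicClosure K) ℝ,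
          (∀ x : K, w (algebraMap K _ x) = v x) → ¬ Over v₀ w F₁ → SplitsIn M F₀ w) := by
    intro v
    by_cases hv : v.IsNontrivial
    · obtain ⟨F₀, h1, h2, h3⟩ := place_large σ v₀ h₀ v hv M F₁
      exact ⟨F₀, h1, h2, fun _ w hw hov g hg hgw => h3 w hw hov g hg hgw⟩
    · exact ⟨⊥, inferInstance, hbot, fun h => absurd h hv⟩
  have hB : ∀ k₀ : Subfield K, ∃ F₀ : IntermediateField K (AlgebraicClosure K),
      FiniteDimensional K F₀ ∧ (∀ x ∈ F₀, σ x = x) ∧ (k₀ ∈ T →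
        ∀ w : AbsoluteValue (AlgebraicClosure K) ℝ, w.IsNontrivial → TrivialOn w k₀ →
          ¬ Over v₀ w F₁ → UnramifiedIn M F₀ w) := by
    intro k₀
    by_cases hk : k₀ ∈ T
    · obtain ⟨t, ht⟩ := hT k₀ hk
      obtain ⟨F₀, h1, h2, h3⟩ := inertia_large σ v₀ h₀ k₀ t (ratGenC_of ht) M F₁
      exact ⟨F₀, h1, h2, fun _ w hw htr hov g hg hin => h3 w hw htr hov g hg hin⟩
    · exact ⟨⊥, inferInstance, hbot, fun h => absurd h hk⟩
  choose FA hA1 hA2 hA3 using hA
  choose FB hB1 hB2 hB3 using hB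
  obtain ⟨G₁, a1, a2, a3⟩ := exists_sup_fixed σ S FA hA1 hA2
  obtain ⟨G₂, b1, b2, b3⟩ := exists_sup_fixed σ T FB hB1 hB2
  obtain ⟨M₀, hG, hMM, finM₀, galM₀⟩ := exists_galois_sup (G₁ ⊔ G₂) M
  refine ⟨M₀, galM₀, finM₀, fun N hN hNfin F ⟨h1, h2, h3, h4, h5⟩ => ?_⟩
  have hGF : G₁ ⊔ G₂ ≤ F := fun x hx => h5 x (hG hx) (fixed_sup a2 b2 x hx)
  refine hall N hN hNfin F ⟨hMM.trans h1, h2, h3, h4, fun x hx => h5 x (hMM hx)⟩ ⟨?_, ?_⟩
  · intro v hv hnt w hw hov g hg hgw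
    exact hA3 v hnt w hw hov g
      (fun x hx => hg x (hGF ((le_sup_left : G₁ ≤ G₁ ⊔ G₂) (a3 v hv hx)))) hgw
  · intro k₀ hk w hw htr hov g hg hin
    exact hB3 k₀ hk w hw htr hov g
      (fun x hx => hg x (hGF ((le_sup_right : G₂ ≤ G₁ ⊔ G₂) (b3 k₀ hk hx)))) hin

/-- The criterion in terms of one automorphism, with local conditions. -/
theorem local_criterion [Countable K] (P : IntermediateField K (AlgebraicClosure K) → Prop)
    (hstep : StepProp P) (T : Finset (Subfield K)) (hT : ∀ k₀ ∈ T, ∃ t : K, RatGen k₀ t) :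
    (∀ L : IntermediateField K (AlgebraicClosure K), FiniteDimensional K L → P L) ↔
    ∀ (σ : Gal(AlgebraicClosure K/K)) (v₀ : AbsoluteValue (AlgebraicClosure K) ℝ),
      OnlyPlace σ v₀ →
      (∀ τ : Gal(AlgebraicClosure K/K), InClosure σ τ → ¬ InClosure τ σ → Ev P τ) →
        EvLocal (T : Set (Subfield K)) P σ v₀ := by
  constructor
  · intro h σ v₀ _ _
    refine ⟨⊥, inferInstance, ⊥, ∅, inferInstance, inferInstance,
      fun N hN hNf F ⟨_, hFN, _⟩ _ => h F ?_⟩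
    exact FiniteDimensional.of_injective (IntermediateField.inclusion hFN).toLinearMap
      (IntermediateField.inclusion hFN).injective
  · intro h L _
    refine abstract_criterion P hstep (fun σ hσ => ?_) L
    obtain ⟨v₀, h₀⟩ := exists_place σ
    exact ev_of_evLocal P σ v₀ h₀ T hT (h σ v₀ h₀ hσ)

end

end Pool.Agent.MP_3d3918
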