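import Pool.Agent.Lib.MP_3d3918_nt.Embed

/-!
# The criterion for all elliptic curves with transcendental `j`-invariant
-/

set_option autoImplicit false

open Filter Topology WeierstrassCurve

namespace Pool.Agent.MP_3d3918

/-- A transcendence basis with a given first element. -/
theorem exists_basis {K : Type} [Field K] [CharZero K] (n : ℕ) (hd : dim K = n + 1) (j : K)
    (hj : Transcendental ℚ j) :
    ∃ x : Fin (n + 1) → K, IsTranscendenceBasis ℚ x ∧ x 0 = j := by
  have h1 : AlgebraicIndepOn ℚ id ({j} : Set K) := by
    have h2 : AlgebraicIndependent ℚ (fun i : ({j} : Set K) => (i : K)) := by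
      rw [algebraicIndependent_unique_type_iff]
      exact hj
    exact h2
  obtain ⟨t, hjt, ht⟩ := exists_isTranscendenceBasis_superset h1
  have hcard : Cardinal.mk t = ((n + 1 : ℕ) : Cardinal) := by
    rw [ht.cardinalMk_eq_trdeg]
    unfold dim at hd
    exact (Cardinal.toNat_eq_iff (Nat.succ_ne_zero n)).1 hd
  have hcard' : Cardinal.mk (Fin (n + 1)) = Cardinal.mk t := by
    rw [hcard, Cardinal.mk_fin]
  obtain ⟨e⟩ := Cardinal.eq.1 hcard'
  let j' : t := ⟨j, hjt rfl⟩
  let e' : Fin (n + 1) ≃ t := (Equiv.swap 0 (e.symm j')).trans e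
  refine ⟨fun i => (e' i : K), ?_, ?_⟩
  · exact (isTranscendenceBasis_equiv e').2 ht
  · change ((e (Equiv.swap 0 (e.symm j') 0) : t) : K) = j
    rw [Equiv.swap_apply_left, Equiv.apply_symm_apply]

theorem exists_equiv_adjoin {F E ι : Type} [Field F] [Field E] [Algebra F E] {x : ι → E}
    (hx : AlgebraicIndependent F x) :
    ∃ g : FractionRing (MvPolynomial ι F) ≃+* IntermediateField.adjoin F (Set.range x),
      ∀ a : MvPolynomial ι F, (g (algebraMap _ _ a) : E) = MvPolynomial.aeval x a :=
  ⟨hx.aevalEquivField.toRingEquiv, fun a => hx.aevalEquivField_algebraMap_apply_coe a⟩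

/-- Every finitely generated field of transcendence degree `n + 1` with a transcendental element is
a finite extension of the field of rational functions, with the element as the first variable. -/
theorem exists_finite {K : Type} [Field K] [CharZero K] (hK : FGField K) (n : ℕ)
    (hd : dim K = n + 1) (j : K) (hj : Transcendental ℚ j) :
    ∃ f : RatField n →+* K, f (tvar n) = j ∧
      @Module.Finite (RatField n) K _ _ (f.toAlgebra.toModule) := by
  obtain ⟨x, hx, hx0⟩ := exists_basis n hd j hj
  set K₁ := IntermediateField.adjoin ℚ (Set.range x) with hK₁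
  have halg : Algebra.IsAlgebraic K₁ K := hx.isAlgebraic_field
  obtain ⟨g, hg⟩ : ∃ g : RatField n ≃+* K₁, ∀ a : MvPolynomial (Fin (n + 1)) ℚ,
      (g (algebraMap _ _ a) : K) = MvPolynomial.aeval x a := exists_equiv_adjoin hx.1
  let f : RatField n →+* K := (algebraMap K₁ K).comp (g : RatField n →+* K₁)
  have hf : ∀ a, f a = (g a : K) := fun a => rfl
  refine ⟨f, ?_, ?_⟩
  · rw [hf]
    unfold tvar
    have h1 := hg (MvPolynomial.X 0)
    rw [MvPolynomial.aeval_X, hx0] at h1
    exact h1
  · obtain ⟨s, hs⟩ := hK
    have h1 : IntermediateField.adjoin K₁ (s : Set K) = ⊤ := by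
      rw [eq_top_iff]
      intro y _
      have h2 : Subfield.closure (s : Set K) ≤
          (IntermediateField.adjoin K₁ (s : Set K)).toSubfield := by
        rw [Subfield.closure_le]
        exact IntermediateField.subset_adjoin K₁ (s : Set K)
      rw [hs] at h2
      exact h2 (Subfield.mem_top y)
    have fs : Finite (s : Set K) := s.finite_toSet
    have h2 : FiniteDimensional K₁ (IntermediateField.adjoin K₁ (s : Set K)) :=
      IntermediateField.finiteDimensional_adjoin (fun y _ => Algebra.IsIntegral.isIntegral y)
    rw [h1] at h2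
    have h3 : FiniteDimensional K₁ K :=
      Module.Finite.equiv (IntermediateField.topEquiv (F := K₁) (E := K)).toLinearEquiv
    let _ : Algebra (RatField n) K := f.toAlgebra
    let _ : Algebra (RatField n) K₁ := (g : RatField n →+* K₁).toAlgebra
    have tow : IsScalarTower (RatField n) K₁ K := IsScalarTower.of_algebraMap_eq fun a => rfl
    have h4 : Module.Finite (RatField n) K₁ := by
      have h5 : Function.Surjective (Algebra.linearMap (RatField n) K₁) := g.surjective
      exact Module.Finite.of_surjective _ h5
    exact Module.Finite.trans K₁ K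

/-- The formula for all elliptic curves with transcendental `j`-invariant follows from the formula
for one curve. -/
theorem all_of_univ (U : Set ℂ) (n : ℕ)
    (hall : ∀ (L : IntermediateField (RatField n) (AlgebraicClosure (RatField n)))
      [FiniteDimensional (RatField n) L],
      Nagao U ((univCurve n).map (algebraMap (RatField n) L))) :
    AllNagao U (n + 1) := by
  intro K _ _ hK hd E _ hj
  obtain ⟨f, hf, hfin⟩ := exists_finite hK n hd E.j hj
  let _ : Algebra (RatField n) K := f.toAlgebra
  have hfin' : FiniteDimensional (RatField n) K := hfin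
  let ι : K →ₐ[RatField n] AlgebraicClosure (RatField n) := IsAlgClosed.lift
  let e : K ≃ₐ[RatField n] ι.fieldRange := AlgEquiv.ofInjectiveField ι
  have finL : FiniteDimensional (RatField n) ι.fieldRange := Module.Finite.equiv e.toLinearEquiv
  let e' : K ≃+* ι.fieldRange := e.toRingEquiv
  have ell : (E.map (e' : K →+* ι.fieldRange)).IsElliptic := inferInstance
  have hj' : (E.map (e' : K →+* ι.fieldRange)).j =
      algebraMap (RatField n) ι.fieldRange (univCurve n).j := by
    rw [WeierstrassCurve.map_j, univCurve_j, ← hf]
    exact e.commutes (tvar n)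
  have h1 := all_sameJ U (univCurve n) (by rw [univCurve_j]; exact tvar_ne_zero n)
    (by rw [univCurve_j]; exact tvar_ne_1728 n) hall ι.fieldRange (E.map (e' : K →+* ι.fieldRange)) hj'
  have h2 := nagao_equiv e'.symm U _ h1
  have h3 : (E.map (e' : K →+* ι.fieldRange)).map (e'.symm : ι.fieldRange →+* K) = E := by
    rw [WeierstrassCurve.map_map]
    have h4 : (e'.symm : ι.fieldRange →+* K).comp (e' : K →+* ι.fieldRange) = RingHom.id K := by
      ext y
      exact e'.symm_apply_apply y
    rw [h4, WeierstrassCurve.map_id]
  rw [h3] at h2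
  exact h2

theorem fgField_ratField (n : ℕ) : FGField (RatField n) := by
  classical
  refine ⟨Finset.univ.image (fun i : Fin (n + 1) =>
    algebraMap (MvPolynomial (Fin (n + 1)) ℚ) (RatField n) (MvPolynomial.X i)), ?_⟩
  rw [eq_top_iff]
  intro z _
  set S := Subfield.closure (((Finset.univ.image (fun i : Fin (n + 1) =>
    algebraMap (MvPolynomial (Fin (n + 1)) ℚ) (RatField n) (MvPolynomial.X i)) :
    Finset (RatField n))) : Set (RatField n)) with hS
  have hpoly : ∀ q : MvPolynomial (Fin (n + 1)) ℚ,
      algebraMap (MvPolynomial (Fin (n + 1)) ℚ) (RatField n) q ∈ S := by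
    intro q
    induction q using MvPolynomial.induction_on with
    | C a =>
      have h1 : algebraMap (MvPolynomial (Fin (n + 1)) ℚ) (RatField n) (MvPolynomial.C a) =
          (a : RatField n) := by
        exact map_ratCast
          ((algebraMap (MvPolynomial (Fin (n + 1)) ℚ) (RatField n)).comp MvPolynomial.C) a
      rw [h1]
      exact SubfieldClass.ratCast_mem S a
    | add p q hp hq =>
      rw [map_add]
      exact add_mem hp hq
    | mul_X p i hp =>
      rw [map_mul]
      refine mul_mem hp (Subfield.subset_closure ?_)
      rw [Finset.coe_image]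
      exact ⟨i, by simp, rfl⟩
  obtain ⟨a, b, rfl⟩ := IsLocalization.exists_mk'_eq
    (nonZeroDivisors (MvPolynomial (Fin (n + 1)) ℚ)) z
  rw [IsFractionRing.mk'_eq_div]
  exact div_mem (hpoly a) (hpoly b)

theorem fgField_finite {K L : Type} [Field K] [CharZero K] [Field L] [Algebra K L]
    [FiniteDimensional K L] (hK : FGField K) : FGField L := by
  classical
  obtain ⟨s, hs⟩ := hK
  obtain ⟨θ, hθ⟩ := Field.exists_primitive_element K L
  refine ⟨s.image (algebraMap K L) ∪ {θ}, ?_⟩
  rw [eq_top_iff]
  intro z _
  set S := Subfield.closure ((s.image (algebraMap K L) ∪ {θ} : Finset L) : Set L) with hS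
  have h1 : ∀ a : K, algebraMap K L a ∈ S := by
    intro a
    have h2 : Subfield.closure (s : Set K) ≤ S.comap (algebraMap K L) := by
      rw [Subfield.closure_le]
      intro x hx
      change algebraMap K L x ∈ S
      apply Subfield.subset_closure
      rw [Finset.coe_union, Finset.coe_image]
      exact Or.inl ⟨x, hx, rfl⟩
    rw [hs] at h2
    exact h2 (Subfield.mem_top a)
  let S' : IntermediateField K L := S.toIntermediateField h1
  have h2 : IntermediateField.adjoin K {θ} ≤ S' := by
    rw [IntermediateField.adjoin_le_iff]
    intro w hw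
    rw [Set.mem_singleton_iff.1 hw]
    change θ ∈ S
    apply Subfield.subset_closure
    rw [Finset.coe_union]
    right
    simp
  rw [hθ] at h2
  exact h2 (IntermediateField.mem_top (x := z))

/-- The converse. -/
theorem of_all (U : Set ℂ) (n : ℕ) (h : AllNagao U (n + 1))
    (F' : IntermediateField (RatField n) (AlgebraicClosure (RatField n)))
    [FiniteDimensional (RatField n) F'] :
    Nagao U ((univCurve n).map (algebraMap (RatField n) F')) := by
  have h1 : dim F' = n + 1 := by
    rw [dim_eq (K := RatField n) (L := F'), dim_ratField]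
  refine h F' (fgField_finite (fgField_ratField n)) h1 _ ?_
  have h2 : ((univCurve n).map (algebraMap (RatField n) F')).j =
      algebraMap (RatField n) F' (tvar n) := by
    rw [WeierstrassCurve.map_j, univCurve_j]
  rw [h2]
  intro h3
  exact tvar_transcendental n
    ((isAlgebraic_algebraMap_iff (algebraMap (RatField n) F').injective).1 h3)

end Pool.Agent.MP_3d3918
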