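import Pool.Agent.Lib.MP_3d3918_nt.RatGen
import Pool.Agent.Lib.MP_3d3918_nt.Main
import Pool.Agent.Lib.MP_3d3918_nt.GenCriterion
import Pool.Agent.Lib.MP_3d3918_nt.Local

/-!
# The two criteria
-/

set_option autoImplicit false

open Filter Topology WeierstrassCurve

namespace Pool.Agent.MP_3d3918

theorem all_iff (U : Set ℂ) (n : ℕ) : AllNagao U (n + 1) ↔
    ∀ (σ : Gal(AlgebraicClosure (RatField n)/RatField n))
      (v₀ : AbsoluteValue (AlgebraicClosure (RatField n)) ℝ), OnlyPlace σ v₀ →
      (∀ τ : Gal(AlgebraicClosure (RatField n)/RatField n), InClosure σ τ → ¬ InClosure τ σ →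
        Ev (UnivNagao U n) τ) →
      EvLocal (Set.range (otherVars n)) (UnivNagao U n) σ v₀ := by
  classical
  have hset : ((Finset.univ.image (otherVars n) : Finset (Subfield (RatField n))) :
      Set (Subfield (RatField n))) = Set.range (otherVars n) := by
    ext k₀
    simp
  rw [← hset, ← local_criterion (UnivNagao U n) (nagao_step U (univCurve n))
    (Finset.univ.image (otherVars n)) (fun k₀ hk => by
      obtain ⟨i, -, rfl⟩ := Finset.mem_image.1 hk
      exact ⟨_, ratGen_ratField n i⟩)]
  constructor
  · intro h L hL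
    exact of_all U n h L
  · intro h
    exact all_of_univ U n fun L _ => h L inferInstance

end Pool.Agent.MP_3d3918
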