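import Pool.Agent.Lib.MP_3d3918_nt.SameJ

/-!
# Arbitrary fibrations: the series of the fibre averages of an arbitrary function on the points

`a` is a function on the points of `Spec R₁` with values in the finite prime fields; for a fibration
with base `Spec R₁` it is the trace of Frobenius on the first cohomology of the fibre.
-/

set_option autoImplicit false

open Filter Topology

namespace Pool.Agent.MP_3d3918

section

variable {K : Type} [Field K] (R₁ : Subring K) (a : (p : ℕ) → (R₁ →+* ZMod p) → ℤ)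

/-- The formula for isomorphic fields. -/
theorem gnagao_equiv (U : Set ℂ) {L L' : Type} [Field L] [CharZero L] [Field L'] [CharZero L']
    (e : L ≃+* L') (φ : K →+* L) (b : ℕ → ℂ) (r : Cardinal) (h : GNagao R₁ a U φ b r) :
    GNagao R₁ a U ((e : L →+* L').comp φ) b r := by
  obtain ⟨R₀, hR₀, h⟩ := h
  refine ⟨R₀.map (e : L →+* L'), fg_map e hR₀, fun R hR hle => ?_⟩
  obtain ⟨h1, r', hr', hg⟩ := h (R.comap (e : L →+* L')) (fg_comap e hR)
    (Subring.map_le_iff_le_comap.1 hle)
  have h2 : ∀ x ∈ R₁, ((e : L →+* L').comp φ) x ∈ R := fun x hx => h1 x hx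
  refine ⟨h2, r', hr', ?_⟩
  have h3 : gterm R₁ a ((e : L →+* L').comp φ) b R h2 =
      gterm R₁ a φ b (R.comap (e : L →+* L')) h1 := by
    funext s p
    unfold gterm
    rw [dim_equiv e]
    congr 5
    let i : (R.comap (e : L →+* L')) ≃+* R :=
      { toFun := fun x => ⟨e x.1, x.2⟩
        invFun := fun x => ⟨e.symm x.1, by
          change e (e.symm x.1) ∈ R
          rw [e.apply_symm_apply]
          exact x.2⟩
        left_inv := fun x => Subtype.ext (e.symm_apply_apply x.1)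
        right_inv := fun x => Subtype.ext (e.apply_symm_apply x.1)
        map_mul' := fun x y => Subtype.ext (map_mul e x.1 y.1)
        map_add' := fun x y => Subtype.ext (map_add e x.1 y.1) }
    let g : (R →+* ZMod p) ≃ ((R.comap (e : L →+* L')) →+* ZMod p) :=
      { toFun := fun y => y.comp (i : _ →+* R)
        invFun := fun y => y.comp (i.symm : R →+* _)
        left_inv := fun y => by
          ext x
          simp
        right_inv := fun y => by
          ext x
          simp }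
    rw [← finsum_comp_equiv g]
    rfl
  rw [h3]
  exact hg

end

section

variable {K F N : Type} [Field K] [Field F] [Field N] [CharZero F] [Algebra F N]
  [FiniteDimensional F N] [IsGalois F N] (R₁ : Subring K) (a : (p : ℕ) → (R₁ →+* ZMod p) → ℤ)

/-- The formula follows from the formula over the fixed fields of the cyclic subgroups. -/
theorem gnagao_of_cyclic (U : Set ℂ) (φ : K →+* F) (hfg : FG R₁)
    (b : Subgroup Gal(N/F) → ℕ → ℂ) (b₀ : ℕ → ℂ)
    (hb : ∀ (T : Finset (Subgroup Gal(N/F))) (n : Subgroup Gal(N/F) → ℤ),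
      (∀ g : Gal(N/F), ∑ H ∈ T, n H * (Nat.card {x : Gal(N/F) ⧸ H // g • x = x} : ℤ) =
        Nat.card Gal(N/F)) → ∀ p, ∑ H ∈ T, (n H : ℂ) * b H p = Nat.card Gal(N/F) * b₀ p)
    (r : Subgroup Gal(N/F) → Cardinal) (r₀ : Cardinal)
    (hrk : ∀ (T : Finset (Subgroup Gal(N/F))) (n : Subgroup Gal(N/F) → ℤ),
      (∀ g : Gal(N/F), ∑ H ∈ T, n H * (Nat.card {x : Gal(N/F) ⧸ H // g • x = x} : ℤ) =
        Nat.card Gal(N/F)) → ∀ r' : Subgroup Gal(N/F) → ℕ, (∀ H ∈ T, r H = r' H) →
        ∀ r₂ : ℕ, r ⊥ = r₂ →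
        ∃ r₁ : ℕ, r₀ = r₁ ∧ ∑ H ∈ T, n H * (r' H : ℤ) = Nat.card Gal(N/F) * (r₁ : ℤ))
    (h : ∀ H : Subgroup Gal(N/F), IsCyclic H →
      GNagao R₁ a U ((algebraMap F (IntermediateField.fixedField H)).comp φ) (b H) (r H)) :
    GNagao R₁ a U φ b₀ r₀ := by
  classical
  obtain ⟨θ, hθ⟩ := Field.exists_primitive_element F N
  obtain ⟨T, n, hT, hrel⟩ := MP_0d9be2.H39.artin Gal(N/F)
  have hbot : IsCyclic (⊥ : Subgroup Gal(N/F)) := inferInstance
  obtain ⟨s₁, hs₁⟩ := hfg
  have h' : ∀ H : {H : Subgroup Gal(N/F) // IsCyclic H}, ∃ s : Finset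
      (IntermediateField.fixedField H.1), ∀ R : Subring (IntermediateField.fixedField H.1), FG R →
        (s : Set (IntermediateField.fixedField H.1)) ⊆ R →
        ∃ (h : ∀ x ∈ R₁, ((algebraMap F (IntermediateField.fixedField H.1)).comp φ) x ∈ R)
          (r' : ℕ), r H.1 = r' ∧ Good U (gterm R₁ a _ (b H.1) R h) r' := by
    intro H
    obtain ⟨R₀, ⟨s, hs⟩, hR₀⟩ := h H.1 H.2
    refine ⟨s, fun R hR hsR => hR₀ R hR ?_⟩
    rw [← hs, Subring.closure_le]
    exact hsR
  choose s hs using h'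
  -- the threshold
  obtain ⟨T₁, hT₁⟩ := exists_large θ hθ
  obtain ⟨T₂, hT₂⟩ := exists_finset_set θ hθ
    (⋃ H : {H : Subgroup Gal(N/F) // IsCyclic H},
      ((fun x : IntermediateField.fixedField H.1 => (x : N)) '' (s H : Set _)))
    (Set.finite_iUnion fun H => (Finset.finite_toSet _).image _)
  refine ⟨Subring.closure ((T₁ ∪ T₂ ∪ s₁.image φ : Finset F) : Set F), fg_closure _, ?_⟩
  intro R hR hle
  have hsub : ((T₁ ∪ T₂ ∪ s₁.image φ : Finset F) : Set F) ⊆ R := fun x hx =>
    hle (Subring.subset_closure hx)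
  have hl : Large θ R := hT₁ R fun x hx => hsub (by
    simp only [Finset.coe_union, Set.mem_union]; tauto)
  have hgen := hT₂ R fun x hx => hsub (by
    simp only [Finset.coe_union, Set.mem_union]; tauto)
  have hR₁ : ∀ x ∈ R₁, φ x ∈ R := by
    have h1 : R₁ ≤ R.comap φ := by
      rw [← hs₁, Subring.closure_le]
      intro x hx
      change φ x ∈ R
      apply hsub
      rw [Finset.coe_union, Finset.coe_image]
      exact Or.inr ⟨x, hx, rfl⟩
    exact fun x hx => h1 hx
  have hf : ∀ (H : Subgroup Gal(N/F)) (x : N), (∀ σ ∈ H, σ x = x) ↔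
      x ∈ Set.range (IntermediateField.fixedField H).val := by
    intro H x
    rw [← IntermediateField.mem_fixedField_iff]
    constructor
    · intro h
      exact ⟨⟨x, h⟩, rfl⟩
    · rintro ⟨y, rfl⟩
      exact y.2
  let A : (H : Subgroup Gal(N/F)) → Subring (IntermediateField.fixedField H) := fun H =>
    AR θ R (IntermediateField.fixedField H).val
  have hA : ∀ H, FG (A H) := fun H => fg_AR hR hl H _ (hf H)
  -- the formulas
  have key : ∀ H : Subgroup Gal(N/F), IsCyclic H →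
      ∃ (h : ∀ x ∈ R₁, ((algebraMap F (IntermediateField.fixedField H)).comp φ) x ∈ A H)
        (r' : ℕ), r H = r' ∧ Good U (gterm R₁ a _ (b H) (A H) h) r' := by
    intro H hH
    exact hs ⟨H, hH⟩ (A H) (hA H) (by
        intro x hx
        change (x : N) ∈ BR θ R
        exact hgen _ (Set.mem_iUnion.2 ⟨⟨H, hH⟩, x, hx, rfl⟩))
  have hmem : ∀ H, ∀ x ∈ R₁,
      ((algebraMap F (IntermediateField.fixedField H)).comp φ) x ∈ A H := by
    intro H x hx
    exact (incl θ R (IntermediateField.fixedField H).val ⟨φ x, hR₁ x hx⟩).2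
  have key' : ∀ H : Subgroup Gal(N/F), IsCyclic H →
      ∃ r' : ℕ, r H = r' ∧ Good U (gterm R₁ a _ (b H) (A H) (hmem H)) r' := by
    intro H hH
    obtain ⟨_, r', hr', hg⟩ := key H hH
    exact ⟨r', hr', hg⟩
  choose! r' hr' hgood using key'
  obtain ⟨r₁, hr₁, hsum⟩ := hrk T n hrel r' (fun H hH => hr' H (hT H hH)) (r' ⊥) (hr' ⊥ hbot)
  have hN : (Nat.card Gal(N/F) : ℂ) ≠ 0 := by
    exact_mod_cast Nat.card_pos.ne'
  have hcomb := Good.combine T (fun H => (Nat.card Gal(N/F) : ℂ)⁻¹ * (n H : ℂ)) _ _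
    (fun H hH => hgood H (hT H hH))
  refine ⟨hR₁, r₁, hr₁, ?_⟩
  have h1 : ∑ H ∈ T, (Nat.card Gal(N/F) : ℂ)⁻¹ * (n H : ℂ) * (r' H : ℂ) = (r₁ : ℂ) := by
    have h2 : ∑ H ∈ T, (n H : ℂ) * (r' H : ℂ) = (Nat.card Gal(N/F) : ℂ) * (r₁ : ℂ) := by
      exact_mod_cast hsum
    simp only [mul_assoc]
    rw [← Finset.mul_sum, h2, inv_mul_cancel_left₀ hN]
  have h2 : (fun (s : ℂ) (p : Nat.Primes) => ∑ H ∈ T, (Nat.card Gal(N/F) : ℂ)⁻¹ * (n H : ℂ) *
      gterm R₁ a ((algebraMap F (IntermediateField.fixedField H)).comp φ) (b H) (A H) (hmem H)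
        s p) = gterm R₁ a φ b₀ R hR₁ := by
    funext s p
    have hp : Fact (p : ℕ).Prime := ⟨p.2⟩
    have fin1 := finite_hom hR (p : ℕ)
    have fin2 : ∀ H : Subgroup Gal(N/F), Finite (A H →+* ZMod p) := fun H => finite_hom (hA H) p
    have := Fintype.ofFinite (R →+* ZMod p)
    choose σ hσ using fun y : R →+* ZMod p => count_AR hl hθ (p : ℕ) y
    have h3 : ∀ H : Subgroup Gal(N/F), (∑ᶠ z : A H →+* ZMod p, a p (restr R₁
        ((algebraMap F (IntermediateField.fixedField H)).comp φ) (A H) (hmem H) p z)) =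
        ∑ y : R →+* ZMod p, (Nat.card {x : Gal(N/F) ⧸ H // σ y • x = x} : ℤ) *
          a p (restr R₁ φ R hR₁ p y) := by
      intro H
      have := fin2 H
      have := Fintype.ofFinite (A H →+* ZMod p)
      rw [finsum_eq_sum_of_fintype,
        ← Finset.sum_fiberwise_of_maps_to (t := Finset.univ)
          (g := fun z : A H →+* ZMod p => z.comp (incl θ R (IntermediateField.fixedField H).val))
          (fun _ _ => Finset.mem_univ _)]
      refine Finset.sum_congr rfl fun y _ => ?_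
      rw [← hσ y H _ _ _ _ (hf H), Nat.card_eq_fintype_card, Fintype.card_subtype,
        ← nsmul_eq_mul, ← Finset.sum_const]
      refine Finset.sum_congr rfl fun z hz => ?_
      rw [Finset.mem_filter] at hz
      rw [← hz.2]
      rfl
    have h4 : ∑ H ∈ T, (n H : ℂ) * ((∑ᶠ z : A H →+* ZMod p, a p (restr R₁
        ((algebraMap F (IntermediateField.fixedField H)).comp φ) (A H) (hmem H) p z) : ℤ) : ℂ) =
        (Nat.card Gal(N/F) : ℂ) *
          ((∑ᶠ y : R →+* ZMod p, a p (restr R₁ φ R hR₁ p y) : ℤ) : ℂ) := by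
      have h5 : ∑ H ∈ T, n H * (∑ᶠ z : A H →+* ZMod p, a p (restr R₁
          ((algebraMap F (IntermediateField.fixedField H)).comp φ) (A H) (hmem H) p z)) =
          Nat.card Gal(N/F) * ∑ᶠ y : R →+* ZMod p, a p (restr R₁ φ R hR₁ p y) := by
        have h6 : ∀ H ∈ T, n H * (∑ᶠ z : A H →+* ZMod p, a p (restr R₁
            ((algebraMap F (IntermediateField.fixedField H)).comp φ) (A H) (hmem H) p z)) =
            ∑ y : R →+* ZMod p, n H * (Nat.card {x : Gal(N/F) ⧸ H // σ y • x = x} : ℤ) *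
              a p (restr R₁ φ R hR₁ p y) := by
          intro H _
          rw [h3, Finset.mul_sum]
          exact Finset.sum_congr rfl fun y _ => (mul_assoc _ _ _).symm
        rw [Finset.sum_congr rfl h6, Finset.sum_comm, finsum_eq_sum_of_fintype, Finset.mul_sum]
        refine Finset.sum_congr rfl fun y _ => ?_
        rw [← Finset.sum_mul, hrel]
      exact_mod_cast h5
    have h5 : ∀ H : Subgroup Gal(N/F), dim (IntermediateField.fixedField H) = dim F := fun H =>
      dim_eq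
    unfold gterm
    simp only [h5]
    have h7 := hb T n hrel (p : ℕ)
    have h6 : ∀ H ∈ T, (Nat.card Gal(N/F) : ℂ)⁻¹ * (n H : ℂ) *
        ((((∑ᶠ z : A H →+* ZMod p, a p (restr R₁
        ((algebraMap F (IntermediateField.fixedField H)).comp φ) (A H) (hmem H) p z) : ℤ) : ℂ) /
        ((p : ℕ) : ℂ) ^ (dim F) - b H p) *
        (Real.log (p : ℕ) : ℂ) * ((p : ℕ) : ℂ) ^ (-s)) =
        (((n H : ℂ) * ((∑ᶠ z : A H →+* ZMod p, a p (restr R₁
        ((algebraMap F (IntermediateField.fixedField H)).comp φ) (A H) (hmem H) p z) : ℤ) : ℂ)) /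
        ((p : ℕ) : ℂ) ^ (dim F) - (n H : ℂ) * b H p) *
        ((Nat.card Gal(N/F) : ℂ)⁻¹ *
        (Real.log (p : ℕ) : ℂ) * ((p : ℕ) : ℂ) ^ (-s)) := by
      intro H _
      ring
    rw [Finset.sum_congr rfl h6, ← Finset.sum_mul, Finset.sum_sub_distrib, ← Finset.sum_div, h4, h7]
    field_simp
  rw [h1, h2] at hcomb
  exact hcomb

end

end Pool.Agent.MP_3d3918
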