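import Pool.Agent.Lib.MP_3d3918_nt.Defs
import Pool.Agent.Lib.MP_3d3918_nt.Count

/-!
# Models over the fields of a Galois extension
-/

set_option autoImplicit false

open Polynomial

namespace Pool.Agent.MP_3d3918

section basic

variable {K K' : Type} [Field K] [Field K'] [Algebra K K'] (θ : K')

/-- The ring generated by `R` and `θ`. -/
def BR (R : Subring K) : Subring K' :=
  Subring.closure (algebraMap K K' '' (R : Set K) ∪ {θ})

theorem theta_mem (R : Subring K) : θ ∈ BR θ R := Subring.subset_closure (Or.inr rfl)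

theorem alg_mem {R : Subring K} {r : K} (hr : r ∈ R) : algebraMap K K' r ∈ BR θ R :=
  Subring.subset_closure (Or.inl ⟨r, hr, rfl⟩)

theorem aeval_mem {R : Subring K} (q : K[X]) (hq : ∀ n, q.coeff n ∈ R) : aeval θ q ∈ BR θ R := by
  rw [aeval_eq_sum_range]
  refine sum_mem fun i _ => ?_
  rw [Algebra.smul_def]
  exact mul_mem (alg_mem θ (hq i)) (pow_mem (theta_mem θ R) i)

theorem exists_poly {R : Subring K} {x : K'} (hx : x ∈ BR θ R) :
    ∃ q : R[X], aeval θ (q.map R.subtype) = x := by
  unfold BR at hx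
  induction hx using Subring.closure_induction with
  | mem x hx =>
    rcases hx with ⟨r, hr, rfl⟩ | hx
    · exact ⟨C ⟨r, hr⟩, by simp⟩
    · rw [Set.mem_singleton_iff.1 hx]
      exact ⟨X, by simp⟩
  | zero => exact ⟨0, by simp⟩
  | one => exact ⟨1, by simp⟩
  | add x y _ _ hx hy =>
    obtain ⟨a, ha⟩ := hx
    obtain ⟨b, hb⟩ := hy
    exact ⟨a + b, by rw [Polynomial.map_add, map_add, ha, hb]⟩
  | neg x _ hx =>
    obtain ⟨a, ha⟩ := hx
    exact ⟨-a, by rw [Polynomial.map_neg, map_neg, ha]⟩
  | mul x y _ _ hx hy =>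
    obtain ⟨a, ha⟩ := hx
    obtain ⟨b, hb⟩ := hy
    exact ⟨a * b, by rw [Polynomial.map_mul, map_mul, ha, hb]⟩

variable [FiniteDimensional K K']

/-- The elements of `BR` are the values at `θ` of the polynomials of small degree. -/
theorem exists_poly' {R : Subring K} (hR : ∀ n, (minpoly K θ).coeff n ∈ R) {x : K'}
    (hx : x ∈ BR θ R) : ∃ q : R[X], aeval θ (q.map R.subtype) = x ∧
      (q.map R.subtype).degree < (minpoly K θ).degree := by
  obtain ⟨q, hq⟩ := exists_poly θ hx
  have hint : IsIntegral K θ := Algebra.IsIntegral.isIntegral θ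
  have hmon := minpoly.monic hint
  have hl : minpoly K θ ∈ Polynomial.lifts R.subtype := by
    rw [Polynomial.lifts_iff_coeff_lifts]
    intro n
    exact ⟨⟨_, hR n⟩, rfl⟩
  obtain ⟨f, hf, -, hfm⟩ := Polynomial.lifts_and_degree_eq_and_monic hl hmon
  refine ⟨q %ₘ f, ?_, ?_⟩
  · rw [Polynomial.map_modByMonic _ hfm, hf,
      Polynomial.aeval_modByMonic_eq_self_of_root (minpoly.aeval K θ)]
    exact hq
  · rw [Polynomial.map_modByMonic _ hfm, hf]
    exact Polynomial.degree_modByMonic_lt _ hmon

theorem mem_of_alg_mem {R : Subring K} (hR : ∀ n, (minpoly K θ).coeff n ∈ R) {c : K}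
    (hc : algebraMap K K' c ∈ BR θ R) : c ∈ R := by
  obtain ⟨q, hq, hdeg⟩ := exists_poly' θ hR hc
  have hint : IsIntegral K θ := Algebra.IsIntegral.isIntegral θ
  have h1 : q.map R.subtype - C c = 0 := by
    by_contra hne
    have h2 := minpoly.degree_le_of_ne_zero K θ hne (by
      rw [map_sub, hq, aeval_C, sub_self])
    have h3 : (q.map R.subtype - C c).degree < (minpoly K θ).degree := by
      refine lt_of_le_of_lt (degree_sub_le _ _) (max_lt hdeg ?_)
      refine lt_of_le_of_lt degree_C_le ?_
      exact minpoly.degree_pos hint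
    exact absurd h2 (not_le.2 h3)
  have h4 := congrArg (fun g => g.coeff 0) (sub_eq_zero.1 h1)
  simp only [coeff_map, coeff_C_zero] at h4
  rw [← h4]
  exact (q.coeff 0).2

theorem exists_finset (hθ : IntermediateField.adjoin K {θ} = ⊤) (x : K') :
    ∃ T : Finset K, ∀ R : Subring K, (T : Set K) ⊆ R → x ∈ BR θ R := by
  classical
  have hint : IsIntegral K θ := Algebra.IsIntegral.isIntegral θ
  have h1 : Algebra.adjoin K {θ} = ⊤ := by
    rw [← IntermediateField.adjoin_simple_toSubalgebra_of_isAlgebraic hint.isAlgebraic, hθ]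
    rfl
  have h2 : x ∈ Algebra.adjoin K {θ} := by
    rw [h1]
    trivial
  rw [Algebra.adjoin_singleton_eq_range_aeval] at h2
  obtain ⟨q, rfl⟩ := h2
  refine ⟨q.coeffs ∪ {0}, fun R hR => ?_⟩
  refine aeval_mem θ q fun n => ?_
  by_cases hn : q.coeff n = 0
  · rw [hn]
    exact zero_mem R
  · exact hR (by
      rw [Finset.mem_coe, Finset.mem_union]
      exact Or.inl (Polynomial.coeff_mem_coeffs hn))

theorem exists_finset_set (hθ : IntermediateField.adjoin K {θ} = ⊤) (S : Set K') (hS : S.Finite) :
    ∃ T : Finset K, ∀ R : Subring K, (T : Set K) ⊆ R → ∀ x ∈ S, x ∈ BR θ R := by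
  classical
  choose t ht using exists_finset θ hθ
  refine ⟨hS.toFinset.biUnion t, fun R hR x hx => ht x R ?_⟩
  intro y hy
  apply hR
  rw [Finset.mem_coe, Finset.mem_biUnion]
  exact ⟨x, hS.mem_toFinset.2 hx, hy⟩

end basic

section galois

variable {K K' : Type} [Field K] [Field K'] [Algebra K K'] (θ : K')

/-- The conditions on `R`. -/
structure Large (R : Subring K) : Prop where
  coeff : ∀ n, (minpoly K θ).coeff n ∈ R
  conj : ∀ σ : Gal(K'/K), σ θ ∈ BR θ R
  unit : ∀ σ τ : Gal(K'/K), (σ θ - τ θ)⁻¹ ∈ BR θ R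
  inv : ∀ H : Subgroup Gal(K'/K), ((Nat.card H : K))⁻¹ ∈ R

theorem exists_large [FiniteDimensional K K'] (hθ : IntermediateField.adjoin K {θ} = ⊤) :
    ∃ T : Finset K, ∀ R : Subring K, (T : Set K) ⊆ R → Large θ R := by
  classical
  obtain ⟨T₁, hT₁⟩ := exists_finset_set θ hθ (Set.range fun σ : Gal(K'/K) => σ θ)
    (Set.finite_range _)
  obtain ⟨T₂, hT₂⟩ := exists_finset_set θ hθ
    (Set.range fun q : Gal(K'/K) × Gal(K'/K) => (q.1 θ - q.2 θ)⁻¹) (Set.finite_range _)
  have hfin : (Set.range fun H : Subgroup Gal(K'/K) => ((Nat.card H : K))⁻¹).Finite :=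
    Set.finite_range _
  refine ⟨T₁ ∪ T₂ ∪ (minpoly K θ).coeffs ∪ hfin.toFinset, fun R hR => ?_⟩
  have h1 : (T₁ : Set K) ⊆ R := fun x hx => hR (by
    simp only [Finset.coe_union, Set.mem_union]; tauto)
  have h2 : (T₂ : Set K) ⊆ R := fun x hx => hR (by
    simp only [Finset.coe_union, Set.mem_union]; tauto)
  have h3 : ((minpoly K θ).coeffs : Set K) ⊆ R := fun x hx => hR (by
    simp only [Finset.coe_union, Set.mem_union]; tauto)
  have h4 : (hfin.toFinset : Set K) ⊆ R := fun x hx => hR (by
    simp only [Finset.coe_union, Set.mem_union]; tauto)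
  refine ⟨fun n => ?_, fun σ => hT₁ R h1 _ ⟨σ, rfl⟩, fun σ τ => hT₂ R h2 _ ⟨(σ, τ), rfl⟩,
    fun H => h4 ?_⟩
  · by_cases hn : (minpoly K θ).coeff n = 0
    · rw [hn]
      exact zero_mem R
    · exact h3 (Polynomial.coeff_mem_coeffs hn)
  · rw [Set.Finite.coe_toFinset]
    exact ⟨H, rfl⟩

variable {θ}

theorem smul_mem_BR {R : Subring K} (hR : Large θ R) (σ : Gal(K'/K)) {x : K'}
    (hx : x ∈ BR θ R) : σ x ∈ BR θ R := by
  have h1 : BR θ R ≤ (BR θ R).comap (σ : K' →+* K') := by
    unfold BR
    rw [Subring.closure_le]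
    rintro _ (⟨r, hr, rfl⟩ | hx)
    · change σ (algebraMap K K' r) ∈ BR θ R
      rw [AlgEquiv.commutes]
      exact alg_mem θ hr
    · rw [Set.mem_singleton_iff.1 hx]
      exact hR.conj σ
  exact h1 hx

/-- The action of the Galois group on the ring. -/
@[instance_reducible]
def bAct {R : Subring K} (hR : Large θ R) : MulSemiringAction Gal(K'/K) (BR θ R) where
  smul σ b := ⟨σ b.1, smul_mem_BR hR σ b.2⟩
  one_smul _ := rfl
  mul_smul _ _ _ := rfl
  smul_zero σ := Subtype.ext (map_zero σ)
  smul_add σ _ _ := Subtype.ext (map_add σ _ _)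
  smul_one σ := Subtype.ext (map_one σ)
  smul_mul σ _ _ := Subtype.ext (map_mul σ _ _)

variable (θ)

/-- The ring of the elements of `L` in `BR`. -/
def AR (R : Subring K) {L : Type} [Field L] [Algebra K L] (f : L →ₐ[K] K') : Subring L :=
  (BR θ R).comap (f : L →+* K')

theorem mem_AR (R : Subring K) {L : Type} [Field L] [Algebra K L] (f : L →ₐ[K] K') (x : L) :
    x ∈ AR θ R f ↔ f x ∈ BR θ R := Iff.rfl

/-- The inclusion of `R`. -/
def incl (R : Subring K) {L : Type} [Field L] [Algebra K L] (f : L →ₐ[K] K') : R →+* AR θ R f :=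
  ((algebraMap K L).comp R.subtype).codRestrict (AR θ R f) (fun r => by
    rw [mem_AR]
    change f (algebraMap K L r) ∈ _
    rw [f.commutes]
    exact alg_mem θ r.2)

theorem subtype_incl (R : Subring K) {L : Type} [Field L] [Algebra K L] (f : L →ₐ[K] K') :
    (AR θ R f).subtype.comp (incl θ R f) = (algebraMap K L).comp R.subtype := rfl

variable {θ}

/-- The ring `AR` is finitely generated. -/
theorem fg_AR [FiniteDimensional K K'] [CharZero K] {R : Subring K} (hfg : FG R)
    (hR : Large θ R) (H : Subgroup Gal(K'/K)) {L : Type} [Field L] [Algebra K L] (f : L →ₐ[K] K')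
    (hf : ∀ x : K', (∀ σ ∈ H, σ x = x) ↔ x ∈ Set.range f) : FG (AR θ R f) := by
  classical
  obtain ⟨s, hs⟩ := hfg
  have := Fintype.ofFinite H
  have hc0 : (Nat.card H : K) ≠ 0 := by
    exact_mod_cast Nat.card_pos.ne'
  -- the averages of the powers
  have he : ∀ i : ℕ, ∃ e : L, f e = algebraMap K K' ((Nat.card H : K))⁻¹ *
      ∑ h : H, (h.1 θ) ^ i := by
    intro i
    obtain ⟨e, he⟩ := (hf (algebraMap K K' ((Nat.card H : K))⁻¹ * ∑ h : H, (h.1 θ) ^ i)).1 (by
      intro σ hσ
      rw [map_mul, AlgEquiv.commutes, map_sum]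
      congr 1
      exact Fintype.sum_bijective (fun k : H => (⟨σ, hσ⟩ : H) * k) (Group.mulLeft_bijective _) _ _
        (fun k => by rw [map_pow]; rfl))
    exact ⟨e, he⟩
  choose e he using he
  set d := (minpoly K θ).natDegree with hd
  refine ⟨s.image (algebraMap K L) ∪ (Finset.range d).image e, le_antisymm ?_ ?_⟩
  · rw [Subring.closure_le]
    intro x hx
    rw [Finset.coe_union, Finset.coe_image, Finset.coe_image] at hx
    rcases hx with ⟨r, hr, rfl⟩ | ⟨i, _, rfl⟩
    · change f (algebraMap K L r) ∈ BR θ R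
      rw [f.commutes]
      refine alg_mem θ ?_
      rw [← hs]
      exact Subring.subset_closure hr
    · change f (e i) ∈ BR θ R
      rw [he]
      refine mul_mem (alg_mem θ (hR.inv H)) (sum_mem fun h _ => pow_mem (hR.conj h.1) i)
  · intro x hx
    set C : Subring L := Subring.closure
      ((s.image (algebraMap K L) ∪ (Finset.range d).image e : Finset L) : Set L) with hC
    have hRC : ∀ r ∈ R, algebraMap K L r ∈ C := by
      intro r hr
      have h1 : R ≤ C.comap (algebraMap K L) := by
        rw [← hs, Subring.closure_le]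
        intro t ht
        change algebraMap K L t ∈ C
        apply Subring.subset_closure
        rw [Finset.coe_union, Finset.coe_image]
        exact Or.inl ⟨t, ht, rfl⟩
      exact h1 hr
    have heC : ∀ i < d, e i ∈ C := by
      intro i hi
      apply Subring.subset_closure
      rw [Finset.coe_union, Finset.coe_image, Finset.coe_image]
      exact Or.inr ⟨i, by simpa using hi, rfl⟩
    rw [mem_AR] at hx
    obtain ⟨q, hq, hdeg⟩ := exists_poly' θ hR.coeff hx
    set g := q.map R.subtype with hg
    have hgd : g.natDegree < d ∨ g = 0 := by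
      by_cases hg0 : g = 0
      · exact Or.inr hg0
      · exact Or.inl (Polynomial.natDegree_lt_natDegree hg0 hdeg)
    have hsum : f x = ∑ i ∈ Finset.range d, algebraMap K K' (g.coeff i) * θ ^ i := by
      rw [← hq]
      rcases hgd with h | h
      · rw [aeval_eq_sum_range' h]
        exact Finset.sum_congr rfl fun i _ => Algebra.smul_def _ _
      · rw [h]
        simp
    have hx' : x = ∑ i ∈ Finset.range d, algebraMap K L (g.coeff i) * e i := by
      refine (f : L →+* K').injective ?_
      change f x = f _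
      have hfx : ∀ h : H, h.1 (f x) = f x := fun h => (hf _).2 ⟨x, rfl⟩ h.1 h.2
      have h1 : f x = algebraMap K K' ((Nat.card H : K))⁻¹ * ∑ h : H, h.1 (f x) := by
        rw [Finset.sum_congr rfl (fun h _ => hfx h), Finset.sum_const, Finset.card_univ,
          nsmul_eq_mul, ← mul_assoc, ← Nat.card_eq_fintype_card, map_inv₀, map_natCast,
          inv_mul_cancel₀, one_mul]
        have h2 := (map_ne_zero (algebraMap K K')).2 hc0
        rwa [map_natCast] at h2
      rw [h1]
      have h2 : ∀ h : H, h.1 (f x) = ∑ i ∈ Finset.range d, algebraMap K K' (g.coeff i) *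
          (h.1 θ) ^ i := by
        intro h
        rw [hsum, map_sum]
        refine Finset.sum_congr rfl fun i _ => ?_
        rw [map_mul, AlgEquiv.commutes, map_pow]
      rw [Finset.sum_congr rfl (fun h _ => h2 h), Finset.sum_comm, map_sum, Finset.mul_sum]
      refine Finset.sum_congr rfl fun i _ => ?_
      rw [map_mul, f.commutes, he, ← Finset.mul_sum]
      ring
    rw [hx']
    refine sum_mem fun i hi => mul_mem (hRC _ ?_) (heC i (Finset.mem_range.1 hi))
    rw [hg, coeff_map]
    exact (q.coeff i).2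

/-- The number of the points above a point. -/
theorem count_AR [FiniteDimensional K K'] [IsGalois K K'] {R : Subring K}
    (hR : Large θ R) (hθ : IntermediateField.adjoin K {θ} = ⊤) (p : ℕ) [Fact p.Prime]
    (y : R →+* ZMod p) :
    ∃ σ : Gal(K'/K), ∀ (H : Subgroup Gal(K'/K)) (L : Type) (_ : Field L) (_ : Algebra K L)
      (f : L →ₐ[K] K') (_ : ∀ x : K', (∀ σ ∈ H, σ x = x) ↔ x ∈ Set.range f),
      Nat.card {z : AR θ R f →+* ZMod p // z.comp (incl θ R f) = y} =
        Nat.card {x : Gal(K'/K) ⧸ H // σ • x = x} := by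
  classical
  let act := bAct hR
  have hsmul : ∀ (σ : Gal(K'/K)) (b : BR θ R), ((σ • b : BR θ R) : K') = σ b := fun σ b => rfl
  let i : R →+* BR θ R := ((algebraMap K K').comp R.subtype).codRestrict (BR θ R)
    (fun r => alg_mem θ r.2)
  have hi : Function.Injective i := by
    intro a b h
    exact Subtype.ext ((algebraMap K K').injective (congrArg Subtype.val h))
  have hiG : ∀ b, (∀ g : Gal(K'/K), g • b = b) ↔ b ∈ i.range := by
    intro b
    constructor
    · intro h
      have h1 : (b : K') ∈ Set.range (algebraMap K K') := by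
        rw [IsGalois.mem_range_algebraMap_iff_fixed]
        intro g
        exact congrArg Subtype.val (h g)
      obtain ⟨c, hc⟩ := h1
      have h2 : algebraMap K K' c ∈ BR θ R := by
        rw [hc]
        exact b.2
      exact ⟨⟨c, mem_of_alg_mem θ hR.coeff h2⟩, Subtype.ext hc⟩
    · rintro ⟨r, rfl⟩ g
      apply Subtype.ext
      rw [hsmul]
      exact AlgEquiv.commutes g _
  let t : BR θ R := ⟨θ, theta_mem θ R⟩
  have ht : Subring.closure (Set.range i ∪ {t}) = ⊤ := by
    rw [eq_top_iff]
    rintro ⟨x, hx⟩ -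
    have key : ∀ (x : K') (hx : x ∈ BR θ R), (⟨x, hx⟩ : BR θ R) ∈
        Subring.closure (Set.range i ∪ {t}) := by
      intro x hx
      induction hx using Subring.closure_induction with
      | mem x hx =>
        rcases hx with ⟨r, hr, rfl⟩ | hx
        · exact Subring.subset_closure (Or.inl ⟨⟨r, hr⟩, rfl⟩)
        · apply Subring.subset_closure
          right
          exact Subtype.ext (Set.mem_singleton_iff.1 hx)
      | zero => exact zero_mem _
      | one => exact one_mem _
      | add x y _ _ hx hy => exact add_mem hx hy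
      | neg x _ hx => exact neg_mem hx
      | mul x y _ _ hx hy => exact mul_mem hx hy
    exact key x hx
  have hgen : ∀ g h : Gal(K'/K), g θ = h θ → g = h := by
    intro g h hgh
    have h1 : (g : K' →ₐ[K] K') = h := by
      have h2 : ∀ x ∈ IntermediateField.adjoin K {θ}, g x = h x := by
        intro x hx
        have h3 : IntermediateField.adjoin K {θ} ≤
            IntermediateField.fixedField (Subgroup.zpowers (h⁻¹ * g)) := by
          rw [IntermediateField.adjoin_le_iff]
          intro w hw
          rw [Set.mem_singleton_iff.1 hw]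
          change θ ∈ IntermediateField.fixedField _
          rw [IntermediateField.mem_fixedField_iff]
          intro ρ hρ
          have h4 : h⁻¹ * g ∈ MulAction.stabilizer Gal(K'/K) θ := by
            change h⁻¹ (g θ) = θ
            rw [hgh]
            exact h.symm_apply_apply θ
          exact (Subgroup.zpowers_le.2 h4) hρ
        have h5 := h3 hx
        rw [IntermediateField.mem_fixedField_iff] at h5
        have h6 := h5 _ (Subgroup.mem_zpowers _)
        have h7 : h (h⁻¹ (g x)) = g x := h.apply_symm_apply _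
        rw [← h7]
        exact congrArg h h6
      ext x
      exact h2 x (by rw [hθ]; trivial)
    ext x
    exact congrArg (fun f => f x) h1
  have hu : ∀ g h : Gal(K'/K), g ≠ h → IsUnit (g • t - h • t) := by
    intro g h hne
    have h0 : g θ - h θ ≠ 0 := by
      intro h0
      exact hne (hgen g h (sub_eq_zero.1 h0))
    refine IsUnit.of_mul_eq_one ⟨_, hR.unit g h⟩ ?_
    apply Subtype.ext
    exact mul_inv_cancel₀ h0
  obtain ⟨σ, hσ⟩ := count i hi hiG t ht hu p y
  refine ⟨σ, ?_⟩
  intro H L _ _ f hf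
  let j : AR θ R f →+* BR θ R := ((f : L →+* K').comp (AR θ R f).subtype).codRestrict (BR θ R)
    (fun a => a.2)
  refine hσ H (AR θ R f) inferInstance j ?_ ?_ (incl θ R f) ?_
  · intro a b h
    exact Subtype.ext (f.injective (congrArg Subtype.val h))
  · intro b
    constructor
    · intro h
      obtain ⟨x, hx⟩ := (hf b.1).1 fun σ hσ => congrArg Subtype.val (h σ hσ)
      refine ⟨⟨x, ?_⟩, Subtype.ext hx⟩
      rw [mem_AR, hx]
      exact b.2
    · rintro ⟨a, rfl⟩ g hg
      apply Subtype.ext
      exact (hf _).2 ⟨a.1, rfl⟩ g hg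
  · ext r
    exact f.commutes _

end galois

end Pool.Agent.MP_3d3918
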