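import Pool.Agent.Lib.MP_3d3918_nt.Reduce
import Pool.Agent.Lib.MP_3d3918_nt.Change

/-!
# Nagao's formula for isomorphic fields and for isomorphic curves
-/

set_option autoImplicit false

open Filter Topology

namespace Pool.Agent.MP_3d3918

/-- The sum over the fibres for isomorphic rings. -/
theorem fibreSum_equiv {R R' : Type} [CommRing R] [CommRing R'] (e : R ≃+* R') (p : ℕ)
    (W : WeierstrassCurve R) : fibreSum p R' (W.map (e : R →+* R')) = fibreSum p R W := by
  unfold fibreSum
  let g : (R' →+* ZMod p) ≃ (R →+* ZMod p) :=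
    { toFun := fun y => y.comp (e : R →+* R')
      invFun := fun y => y.comp (e.symm : R' →+* R)
      left_inv := fun y => by
        ext x
        simp
      right_inv := fun y => by
        ext x
        simp }
  rw [← finsum_comp_equiv g]
  refine finsum_congr fun y => ?_
  rw [WeierstrassCurve.map_map]
  rfl

theorem mwRank_equiv {K L : Type} [Field K] [Field L] (e : K ≃+* L) (E : WeierstrassCurve K) :
    mwRank (E.map (e : K →+* L)) = mwRank E := by
  classical
  let _ : Algebra K L := (e : K →+* L).toAlgebra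
  rw [mwRank_eq inferInstance, mwRank_eq inferInstance]
  obtain ⟨f⟩ := exists_equiv E (⊥ : Subgroup Gal(L/K)) K (Algebra.ofId K L) (by
    intro x
    refine ⟨fun _ => ⟨e.symm x, ?_⟩, fun _ σ hσ => by rw [Subgroup.mem_bot.1 hσ]; rfl⟩
    exact e.apply_symm_apply x)
  have h1 : fixedSub (E.baseChange L).toAffine.Point (⊥ : Subgroup Gal(L/K)) = ⊤ := by
    rw [eq_top_iff]
    intro a _ h hh
    rw [Subgroup.mem_bot.1 hh, one_smul]
  have hE : E.baseChange K = E := E.map_id
  rw [hE] at f
  rw [f.rank_eq, h1, rank_top]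
  rfl

section

variable {K L : Type} [Field K] [Field L] [CharZero K] [CharZero L] (e : K ≃+* L)

include e in
theorem dim_equiv : dim L = dim K := by
  let _ : Algebra K L := (e : K →+* L).toAlgebra
  have h : Algebra.IsAlgebraic K L := by
    refine ⟨fun x => ?_⟩
    have h1 : x = algebraMap K L (e.symm x) := (e.apply_symm_apply x).symm
    rw [h1]
    exact isAlgebraic_algebraMap _
  exact dim_eq

omit [CharZero K] [CharZero L] in
theorem fg_comap {R : Subring L} (h : FG R) : FG (R.comap (e : K →+* L)) := by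
  classical
  obtain ⟨s, hs⟩ := h
  refine ⟨s.image e.symm, ?_⟩
  rw [Subring.comap_equiv_eq_map_symm, ← hs, RingHom.map_closure, Finset.coe_image]
  rfl

omit [CharZero K] [CharZero L] in
theorem fg_map {R : Subring K} (h : FG R) : FG (R.map (e : K →+* L)) := by
  classical
  obtain ⟨s, hs⟩ := h
  refine ⟨s.image e, ?_⟩
  rw [← hs, RingHom.map_closure, Finset.coe_image]
  rfl

/-- Nagao's formula for isomorphic fields. -/
theorem nagao_equiv (U : Set ℂ) (E : WeierstrassCurve K) (h : Nagao U E) :
    Nagao U (E.map (e : K →+* L)) := by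
  obtain ⟨R₀, hR₀, h⟩ := h
  refine ⟨R₀.map (e : K →+* L), fg_map e hR₀, fun R hR hle => ?_⟩
  obtain ⟨W, r, hW, hWu, hr, hgood⟩ := (h (R.comap (e : K →+* L)) (fg_comap e hR)
    (Subring.map_le_iff_le_comap.1 hle)).exists
  let i : (R.comap (e : K →+* L)) ≃+* R :=
    { toFun := fun x => ⟨e x.1, x.2⟩
      invFun := fun x => ⟨e.symm x.1, by
        change e (e.symm x.1) ∈ R
        rw [e.apply_symm_apply]
        exact x.2⟩
      left_inv := fun x => Subtype.ext (e.symm_apply_apply x.1)
      right_inv := fun x => Subtype.ext (e.apply_symm_apply x.1)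
      map_mul' := fun x y => Subtype.ext (map_mul e x.1 y.1)
      map_add' := fun x y => Subtype.ext (map_add e x.1 y.1) }
  refine NagaoAt.mk (W.map i.toRingHom) ?_ ?_ r ?_ ?_
  · rw [← hW, WeierstrassCurve.map_map, WeierstrassCurve.map_map]
    rfl
  · rw [WeierstrassCurve.map_Δ]
    exact hWu.map _
  · rw [mwRank_equiv, hr]
  · have h1 : term L R (W.map i.toRingHom) = term K (R.comap (e : K →+* L)) W :=
      term_congr (dim_equiv e) (fun p => fibreSum_equiv i p W)
    rw [h1]
    exact hgood

end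

section

variable {K : Type} [Field K] [CharZero K]

omit [CharZero K] in
theorem mwRank_vc (E : WeierstrassCurve K) [E.IsElliptic] (C : WeierstrassCurve.VariableChange K) :
    mwRank (C • E) = mwRank E := by
  classical
  rw [mwRank_eq inferInstance, mwRank_eq inferInstance]
  exact (LinearEquiv.ofBijective (vcMap E C).toIntLinearMap (vcMap_bijective E C)).rank_eq

/-- Nagao's formula for isomorphic curves. -/
theorem nagao_vc (U : Set ℂ) (E : WeierstrassCurve K) [E.IsElliptic]
    (C : WeierstrassCurve.VariableChange K) (h : Nagao U E) : Nagao U (C • E) := by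
  classical
  obtain ⟨R₀, ⟨s, hs⟩, h⟩ := h
  refine ⟨Subring.closure ((s ∪ {(C.u : K), ((C.u⁻¹ : Kˣ) : K), C.r, C.s, C.t} : Finset K) : Set K),
    fg_closure _, fun R hR hle => ?_⟩
  have hsub : ((s ∪ {(C.u : K), ((C.u⁻¹ : Kˣ) : K), C.r, C.s, C.t} : Finset K) : Set K) ⊆ R :=
    fun x hx => hle (Subring.subset_closure hx)
  obtain ⟨W, r, hW, hWu, hr, hgood⟩ := (h R hR (by
    rw [← hs, Subring.closure_le]
    exact fun x hx => hsub (by rw [Finset.coe_union]; exact Or.inl hx))).exists
  have hm : ∀ x ∈ ({(C.u : K), ((C.u⁻¹ : Kˣ) : K), C.r, C.s, C.t} : Finset K), x ∈ R := fun x hx =>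
    hsub (by rw [Finset.coe_union]; exact Or.inr hx)
  let u : Rˣ := ⟨⟨(C.u : K), hm _ (by simp)⟩, ⟨((C.u⁻¹ : Kˣ) : K), hm _ (by simp)⟩,
    Subtype.ext (C.u.mul_inv), Subtype.ext (C.u.inv_mul)⟩
  let CR : WeierstrassCurve.VariableChange R := ⟨u, ⟨C.r, hm _ (by simp)⟩, ⟨C.s, hm _ (by simp)⟩,
    ⟨C.t, hm _ (by simp)⟩⟩
  have hCR : CR.map R.subtype = C := by
    ext
    · rfl
    · rfl
    · rfl
    · rfl
  refine NagaoAt.mk (CR • W) ?_ ?_ r ?_ ?_
  · rw [← WeierstrassCurve.map_variableChange, hCR, hW]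
  · rw [WeierstrassCurve.variableChange_Δ]
    exact ((u⁻¹).isUnit.pow 12).mul hWu
  · rw [mwRank_vc, hr]
  · have h1 : term K R (CR • W) = term K R W := by
      refine term_congr rfl fun p => ?_
      unfold fibreSum
      refine finsum_congr fun y => ?_
      rw [← WeierstrassCurve.map_variableChange]
      unfold trace
      rw [MP_0d9be2.H29.card_smul]
    rw [h1]
    exact hgood

end

end Pool.Agent.MP_3d3918
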