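import Pool.Agent.Lib.MP_3d3918_nt.Curve

/-!
# Inertia: the extension `M F / F` is unramified outside the place `v₀`
-/

set_option autoImplicit false

open Filter Topology Polynomial Pool.Agent.MP_0d9be2.H63

namespace Pool.Agent.MP_3d3918

section

variable {K : Type} [Field K] [CharZero K]

theorem nonarch_of_trivialOn {w : AbsoluteValue (AlgebraicClosure K) ℝ} {k₀ : Subfield K}
    (h : TrivialOn w k₀) : IsNonarchimedean w := by
  have h1 : ∀ n : ℕ, w (n : AlgebraicClosure K) ≤ 1 := by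
    intro n
    by_cases hn : n = 0
    · rw [hn, Nat.cast_zero, map_zero]
      exact zero_le_one
    · have h2 := h (n : K) (natCast_mem k₀ n) (Nat.cast_ne_zero.2 hn)
      rw [map_natCast] at h2
      exact h2.le
  have h2 : IsUltrametricDist (WithAbs w) :=
    IsUltrametricDist.isUltrametricDist_of_forall_norm_natCast_le_one fun n => by
      rw [WithAbs.norm_eq_apply_ofAbs]
      exact h1 n
  intro x y
  have h3 := IsUltrametricDist.norm_add_le_max (WithAbs.toAbs w x) (WithAbs.toAbs w y)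
  rw [WithAbs.norm_eq_apply_ofAbs, WithAbs.norm_eq_apply_ofAbs, WithAbs.norm_eq_apply_ofAbs] at h3
  exact h3

/-- A power of a nonarchimedean absolute value. -/
noncomputable def powAbs (w : AbsoluteValue (AlgebraicClosure K) ℝ) (hw : IsNonarchimedean w)
    (c : ℝ) (hc : 0 < c) : AbsoluteValue (AlgebraicClosure K) ℝ where
  toFun x := w x ^ c
  map_mul' x y := by rw [map_mul, Real.mul_rpow (w.nonneg _) (w.nonneg _)]
  nonneg' x := Real.rpow_nonneg (w.nonneg _) _
  eq_zero' x := by rw [Real.rpow_eq_zero (w.nonneg _) hc.ne', map_eq_zero]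
  add_le' x y := by
    have h1 : w (x + y) ^ c ≤ (max (w x) (w y)) ^ c :=
      Real.rpow_le_rpow (w.nonneg _) (hw x y) hc.le
    rcases le_total (w x) (w y) with h | h
    · rw [max_eq_right h] at h1
      have := Real.rpow_nonneg (w.nonneg x) c
      linarith
    · rw [max_eq_left h] at h1
      have := Real.rpow_nonneg (w.nonneg y) c
      linarith

/-- Equivalent restrictions to `K`. -/
theorem conj_of_equiv (w w' : AbsoluteValue (AlgebraicClosure K) ℝ) (hw : w.IsNontrivial)
    (hna : IsNonarchimedean w)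
    (h : (w.comp (f := algebraMap K (AlgebraicClosure K)) (RingHom.injective _)).IsEquiv
      (w'.comp (f := algebraMap K (AlgebraicClosure K)) (RingHom.injective _))) :
    ∃ (ρ : Gal(AlgebraicClosure K/K)) (c : ℝ), 0 < c ∧ ∀ x, w' x = w (ρ x) ^ c := by
  obtain ⟨c, hc, hcx⟩ := AbsoluteValue.isEquiv_iff_exists_rpow_eq.1 h
  have hnt : (powAbs w hna c hc).IsNontrivial := by
    obtain ⟨y, hy0, hy1⟩ := hw
    refine ⟨y, hy0, ?_⟩
    change w y ^ c ≠ 1
    intro h1
    apply hy1
    have h2 : w y ^ c = (1 : ℝ) ^ c := by rw [h1, Real.one_rpow]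
    have h3 : (0 : ℝ) ≤ 1 := zero_le_one
    exact Real.rpow_left_injOn hc.ne' (w.nonneg y) h3 h2
  obtain ⟨ρ, hρ⟩ := conj_abs (powAbs w hna c hc) w' hnt (fun x => (congrFun hcx x).symm)
  exact ⟨ρ, c, hc, hρ⟩

theorem preserved_of_inert (w : AbsoluteValue (AlgebraicClosure K) ℝ) (hna : IsNonarchimedean w)
    (g : Gal(AlgebraicClosure K/K)) (hg : Inert w g) (x : AlgebraicClosure K) :
    w (g x) = w x := by
  have h1 : ∀ y, w y ≤ 1 → w (g y) ≤ 1 := by
    intro y hy
    have h2 := hna (g y - y) y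
    rw [sub_add_cancel] at h2
    exact h2.trans (max_le (hg y hy).le hy)
  have hpow : ∀ (n : ℕ) y, w y ≤ 1 → w ((g ^ n) y) ≤ 1 := by
    intro n
    induction n with
    | zero => intro y hy; simpa using hy
    | succ n ih =>
      intro y hy
      rw [pow_succ', AlgEquiv.mul_apply]
      exact h1 _ (ih y hy)
  have h2 : ∀ y, w (g y) ≤ 1 → w y ≤ 1 := by
    intro y hy
    obtain ⟨r, hr, hrx⟩ := finite_orbit (k := K) g y
    obtain ⟨n, rfl⟩ : ∃ n, r = n + 1 := ⟨r - 1, by omega⟩
    have h3 := hpow n (g y) hy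
    rw [← AlgEquiv.mul_apply, ← pow_succ, hrx] at h3
    exact h3
  have h3 : ∀ y, w y ≤ 1 ↔ w (g y) ≤ 1 := fun y => ⟨h1 y, h2 y⟩
  have h4 : ∀ y, w y < 1 ↔ w (g y) < 1 := by
    intro y
    by_cases hy : y = 0
    · rw [hy, map_zero g]
    · have h5 := h3 y⁻¹
      rw [map_inv₀, map_inv₀, map_inv₀, inv_le_one₀ (w.pos hy),
        inv_le_one₀ (w.pos ((map_ne_zero g).2 hy))] at h5
      rw [← not_le, ← not_le, h5]
  refine eq_of_isEquiv (k := K) g w (fun y z => ?_) x
  by_cases hz : z = 0
  · rw [hz, map_zero g, map_zero w]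
    constructor
    · intro h
      exact absurd h (not_lt.2 (w.nonneg _))
    · intro h
      exact absurd h (not_lt.2 (w.nonneg _))
  · have h5 := h4 (y / z)
    rw [map_div₀, map_div₀, map_div₀, div_lt_one (w.pos hz),
      div_lt_one (w.pos ((map_ne_zero g).2 hz))] at h5
    exact h5

/-- Outside finitely many elements of `K` the extension `M/K` is unramified. -/
theorem exists_ramified (M : IntermediateField K (AlgebraicClosure K)) [FiniteDimensional K M]
    [IsGalois K M] : ∃ S : Finset K, (∀ s ∈ S, s ≠ 0) ∧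
      ∀ w : AbsoluteValue (AlgebraicClosure K) ℝ, IsNonarchimedean w →
        ∀ g : Gal(AlgebraicClosure K/K), Inert w g → (∃ x ∈ M, g x ≠ x) →
          ∃ s ∈ S, w (algebraMap K _ s) ≠ 1 := by
  classical
  obtain ⟨θ, hθ⟩ := Field.exists_primitive_element K M
  set f := minpoly K θ with hf
  have hint : IsIntegral K θ := IsIntegral.of_finite K θ
  set D : M := ∏ ρ ∈ (Finset.univ : Finset Gal(M/K)).erase 1, (ρ θ - θ) with hD
  have hθne : ∀ ρ : Gal(M/K), ρ ≠ 1 → ρ θ - θ ≠ 0 := by
    intro ρ hρ h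
    apply hρ
    have h1 : ρ θ = θ := sub_eq_zero.1 h
    have h2 : ρ ∈ (IntermediateField.adjoin K {θ}).fixingSubgroup := by
      rw [IntermediateField.mem_fixingSubgroup_iff]
      intro y hy
      have h5 : IntermediateField.adjoin K {θ} ≤
          IntermediateField.fixedField (Subgroup.zpowers ρ) := by
        rw [IntermediateField.adjoin_le_iff]
        intro u hu
        rw [Set.mem_singleton_iff.1 hu]
        change θ ∈ IntermediateField.fixedField (Subgroup.zpowers ρ)
        rw [IntermediateField.mem_fixedField_iff]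
        intro τ hτ
        have h6 : ρ ∈ MulAction.stabilizer Gal(M/K) θ := h1
        exact (Subgroup.zpowers_le.2 h6) hτ
      exact (IntermediateField.mem_fixedField_iff _ _).1 (h5 hy) ρ (Subgroup.mem_zpowers ρ)
    ext y
    rw [hθ] at h2
    have h3 := (IntermediateField.mem_fixingSubgroup_iff _ _).1 h2 y IntermediateField.mem_top
    rw [h3]
    rfl
  have hD0 : D ≠ 0 := by
    rw [hD, Finset.prod_ne_zero_iff]
    intro ρ hρ
    exact hθne ρ (Finset.ne_of_mem_erase hρ)
  refine ⟨insert (Algebra.norm K D) ((Finset.range (f.natDegree + 1)).image f.coeff |>.erase 0),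
    ?_, ?_⟩
  · intro s hs
    rcases Finset.mem_insert.1 hs with h | h
    · rw [h]
      exact Algebra.norm_ne_zero_iff.2 hD0
    · exact Finset.ne_of_mem_erase h
  · intro w hna g hg hgM
    by_contra hcon
    push Not at hcon
    -- the conjugates of `θ` are integral
    have hcoef : ∀ i, w (algebraMap K _ (f.coeff i)) ≤ 1 := by
      intro i
      by_cases h0 : f.coeff i = 0
      · rw [h0, map_zero, map_zero]
        exact zero_le_one
      · by_cases hi : i ≤ f.natDegree
        · refine (hcon _ (Finset.mem_insert_of_mem (Finset.mem_erase.2 ⟨h0, ?_⟩))).le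
          exact Finset.mem_image_of_mem _ (Finset.mem_range.2 (by omega))
        · exact absurd (coeff_eq_zero_of_natDegree_lt (by omega)) h0
    have hroot : ∀ r : AlgebraicClosure K, aeval r f = 0 → w r ≤ 1 := by
      intro r hr
      by_contra hr1
      push Not at hr1
      have hm : f.Monic := minpoly.monic hint
      have h1 : aeval r f = ∑ i ∈ Finset.range (f.natDegree + 1), f.coeff i • r ^ i :=
        aeval_eq_sum_range r
      have hterm : w (f.coeff f.natDegree • r ^ f.natDegree) = w r ^ f.natDegree := by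
        rw [hm.coeff_natDegree, one_smul, map_pow]
      have h2 : w (∑ i ∈ Finset.range (f.natDegree + 1), f.coeff i • r ^ i) =
          w (f.coeff f.natDegree • r ^ f.natDegree) := by
        refine IsNonarchimedean.apply_sum_eq_of_lt hna (fun a => (w.map_neg a).symm)
          (Finset.mem_range.2 (Nat.lt_succ_self _)) ?_
        intro j hj hne
        rw [hterm, Algebra.smul_def, map_mul, map_pow]
        have hlt : j < f.natDegree := by
          rw [Finset.mem_range] at hj
          omega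
        have h2 : w r ^ j < w r ^ f.natDegree := pow_lt_pow_right₀ hr1 hlt
        have h3 : w (algebraMap K _ (f.coeff j)) * w r ^ j ≤ 1 * w r ^ j :=
          mul_le_mul_of_nonneg_right (hcoef j) (pow_nonneg (w.nonneg _) _)
        linarith
      rw [← h1, hr, map_zero, hterm] at h2
      have h3 : 0 < w r ^ f.natDegree := pow_pos (by linarith) _
      linarith
    have hconj : ∀ ρ : Gal(M/K), w ((ρ θ : M) : AlgebraicClosure K) ≤ 1 := by
      intro ρ
      apply hroot
      have h1 : aeval (ρ θ) f = 0 := by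
        have h0 : aeval ((ρ : M →ₐ[K] M) θ) f = 0 := by
          rw [aeval_algHom_apply, hf, minpoly.aeval, map_zero]
        exact h0
      have h2 : aeval ((ρ θ : M) : AlgebraicClosure K) f =
          algebraMap M (AlgebraicClosure K) (aeval (ρ θ) f) :=
        (aeval_algebraMap_apply (AlgebraicClosure K) (ρ θ) f)
      rw [h2, h1, map_zero]
    have hdiff : ∀ τ ρ : Gal(M/K), w ((τ (ρ θ - θ) : M) : AlgebraicClosure K) ≤ 1 := by
      intro τ ρ
      rw [map_sub]
      push_cast
      have h1 := hna ((τ (ρ θ) : M) : AlgebraicClosure K) (-((τ θ : M) : AlgebraicClosure K))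
      rw [w.map_neg, ← sub_eq_add_neg] at h1
      exact h1.trans (max_le (hconj (τ * ρ)) (hconj τ))
    have hDτ : ∀ τ : Gal(M/K), w ((τ D : M) : AlgebraicClosure K) ≤ 1 := by
      intro τ
      have h1 : ((τ D : M) : AlgebraicClosure K) =
          ∏ ρ ∈ (Finset.univ : Finset Gal(M/K)).erase 1,
            ((τ (ρ θ - θ) : M) : AlgebraicClosure K) := by
        rw [hD, map_prod]
        exact map_prod (algebraMap M (AlgebraicClosure K)) _ _
      rw [h1, map_prod]
      exact Finset.prod_le_one (fun _ _ => w.nonneg _) fun ρ _ => hdiff τ ρ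
    have hnorm : w (algebraMap K (AlgebraicClosure K) (Algebra.norm K D)) =
        ∏ τ : Gal(M/K), w ((τ D : M) : AlgebraicClosure K) := by
      rw [← map_prod]
      congr 1
      exact (congrArg (algebraMap M (AlgebraicClosure K))
        (Algebra.norm_eq_prod_automorphisms K D)).trans
        (map_prod (algebraMap M (AlgebraicClosure K)) (fun τ : Gal(M/K) => τ D) Finset.univ)
    have hN1 := hcon _ (Finset.mem_insert_self _ _)
    rw [hnorm, ← Finset.mul_prod_erase Finset.univ _ (Finset.mem_univ (1 : Gal(M/K)))] at hN1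
    have hD1 : 1 ≤ w (D : AlgebraicClosure K) := by
      have h1 : ∏ τ ∈ (Finset.univ : Finset Gal(M/K)).erase 1,
          w ((τ D : M) : AlgebraicClosure K) ≤ 1 :=
        Finset.prod_le_one (fun _ _ => w.nonneg _) fun τ _ => hDτ τ
      have h2 : w (((1 : Gal(M/K)) D : M) : AlgebraicClosure K) *
          ∏ τ ∈ (Finset.univ : Finset Gal(M/K)).erase 1,
            w ((τ D : M) : AlgebraicClosure K) ≤
          w (((1 : Gal(M/K)) D : M) : AlgebraicClosure K) * 1 :=
        mul_le_mul_of_nonneg_left h1 (w.nonneg _)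
      rw [hN1, mul_one] at h2
      exact h2
    -- the restriction of `g`
    have hgθ := AlgEquiv.restrictNormalHom_apply M g θ
    have hne : AlgEquiv.restrictNormalHom M g ≠ 1 := by
      intro h
      obtain ⟨x, hx, hgx⟩ := hgM
      apply hgx
      have h1 := AlgEquiv.restrictNormalHom_apply M g ⟨x, hx⟩
      rw [h] at h1
      exact h1.symm
    have h1 : w ((AlgEquiv.restrictNormalHom M g θ - θ : M) : AlgebraicClosure K) < 1 := by
      push_cast
      rw [hgθ]
      exact hg _ (hconj 1)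
    have h2 : w (D : AlgebraicClosure K) < 1 := by
      have h3 : (D : AlgebraicClosure K) =
          ∏ ρ ∈ (Finset.univ : Finset Gal(M/K)).erase 1,
            ((ρ θ - θ : M) : AlgebraicClosure K) := by
        rw [hD]
        exact map_prod (algebraMap M (AlgebraicClosure K)) _ _
      rw [h3, map_prod, ← Finset.mul_prod_erase _ _
        (Finset.mem_erase.2 ⟨hne, Finset.mem_univ _⟩)]
      have h4 : ∏ ρ ∈ ((Finset.univ : Finset Gal(M/K)).erase 1).erase
          (AlgEquiv.restrictNormalHom M g), w ((ρ θ - θ : M) : AlgebraicClosure K) ≤ 1 :=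
        Finset.prod_le_one (fun _ _ => w.nonneg _) fun ρ _ => hdiff 1 ρ
      exact mul_lt_one_of_nonneg_of_lt_one_left (w.nonneg _) h1 h4
    linarith

/-- The places over a place of `K` split. -/
theorem place_large (σ : Gal(AlgebraicClosure K/K)) (v₀ : AbsoluteValue (AlgebraicClosure K) ℝ)
    (h₀ : OnlyPlace σ v₀) (v : AbsoluteValue K ℝ) (hv : v.IsNontrivial)
    (M F₁ : IntermediateField K (AlgebraicClosure K)) [FiniteDimensional K M]
    [FiniteDimensional K F₁] :
    ∃ F₀ : IntermediateField K (AlgebraicClosure K), FiniteDimensional K F₀ ∧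
      (∀ x ∈ F₀, σ x = x) ∧ ∀ w : AbsoluteValue (AlgebraicClosure K) ℝ,
        (∀ x : K, w (algebraMap K _ x) = v x) → ¬ Over v₀ w F₁ →
        ∀ g : Gal(AlgebraicClosure K/K), (∀ x ∈ F₀, g x = x) → (∀ x, w (g x) = w x) →
          ∀ x ∈ M, g x = x := by
  by_cases hex : ∃ w₁ : AbsoluteValue (AlgebraicClosure K) ℝ, ∀ x : K, w₁ (algebraMap K _ x) = v x
  · obtain ⟨w₁, hw₁⟩ := hex
    have hnt : w₁.IsNontrivial := by
      obtain ⟨y, hy0, hy1⟩ := hv
      refine ⟨algebraMap K _ y, (_root_.map_ne_zero _).2 hy0, ?_⟩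
      rw [hw₁]
      exact hy1
    obtain ⟨F₀, h1, h2, h3⟩ := split_large σ v₀ h₀ w₁ hnt M F₁
    refine ⟨F₀, h1, h2, fun w hw hov g hg hgw => ?_⟩
    obtain ⟨ρ, hρ⟩ := conj_abs w₁ w hnt (fun x => by rw [hw, hw₁])
    have he : w = conjAbs w₁ ρ := by
      ext x
      exact hρ x
    rw [he] at hov
    refine h3 ρ hov g hg fun x => ?_
    rw [← hρ, ← hρ]
    exact hgw x
  · refine ⟨⊥, inferInstance, ?_, fun w hw => absurd ⟨w, hw⟩ hex⟩
    intro x hx
    obtain ⟨a, rfl⟩ := IntermediateField.mem_bot.1 hx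
    exact σ.commutes a

omit [CharZero K] in
theorem exists_sup_fixed (σ : Gal(AlgebraicClosure K/K)) {ι : Type} (T : Finset ι)
    (F : ι → IntermediateField K (AlgebraicClosure K)) (h1 : ∀ i, FiniteDimensional K (F i))
    (h2 : ∀ i, ∀ x ∈ F i, σ x = x) :
    ∃ F₀ : IntermediateField K (AlgebraicClosure K), FiniteDimensional K F₀ ∧
      (∀ x ∈ F₀, σ x = x) ∧ ∀ i ∈ T, F i ≤ F₀ := by
  classical
  induction T using Finset.induction_on with
  | empty =>
    refine ⟨⊥, inferInstance, ?_, fun i hi => absurd hi (Finset.notMem_empty i)⟩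
    intro x hx
    obtain ⟨a, rfl⟩ := IntermediateField.mem_bot.1 hx
    exact σ.commutes a
  | insert i s hi ih =>
    obtain ⟨F₀, h3, h4, h5⟩ := ih
    have := h1 i
    refine ⟨F₀ ⊔ F i, inferInstance, fixed_sup h4 (h2 i), fun j hj => ?_⟩
    rcases Finset.mem_insert.1 hj with rfl | hj
    · exact le_sup_right
    · exact (h5 j hj).trans le_sup_left

open Classical in
/-- Unramified outside `v₀`, for the places of `K = k₀(t)` which are trivial on `k₀`. -/
theorem inertia_large (σ : Gal(AlgebraicClosure K/K)) (v₀ : AbsoluteValue (AlgebraicClosure K) ℝ)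
    (h₀ : OnlyPlace σ v₀) (k₀ : Subfield K) (t : K) (hgen : RatGenC k₀ t)
    (M F₁ : IntermediateField K (AlgebraicClosure K)) [FiniteDimensional K M] [IsGalois K M]
    [FiniteDimensional K F₁] :
    ∃ F₀ : IntermediateField K (AlgebraicClosure K), FiniteDimensional K F₀ ∧
      (∀ x ∈ F₀, σ x = x) ∧ ∀ w : AbsoluteValue (AlgebraicClosure K) ℝ,
        w.IsNontrivial → TrivialOn w k₀ → ¬ Over v₀ w F₁ →
        ∀ g : Gal(AlgebraicClosure K/K), (∀ x ∈ F₀, g x = x) → Inert w g →
          ∀ x ∈ M, g x = x := by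
  obtain ⟨S, hS, hram⟩ := exists_ramified M
  obtain ⟨T, hT, hcase⟩ := exists_cases hgen S hS
  let res : AbsoluteValue (AlgebraicClosure K) ℝ → AbsoluteValue K ℝ := fun w =>
    w.comp (f := algebraMap K (AlgebraicClosure K)) (RingHom.injective _)
  have hres : ∀ w x, res w x = w (algebraMap K _ x) := fun w x => rfl
  let Q : Option (Polynomial k₀) → AbsoluteValue (AlgebraicClosure K) ℝ → Prop := fun c w =>
    w.IsNontrivial ∧ TrivialOn w k₀ ∧ Case (res w) t c
  have hF : ∀ c : Option (Polynomial k₀), ∃ F₀ : IntermediateField K (AlgebraicClosure K),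
      FiniteDimensional K F₀ ∧ (∀ x ∈ F₀, σ x = x) ∧
        (∀ w, Q c w → ∃ w₁, Q c w₁ ∧ ∀ ρ : Gal(AlgebraicClosure K/K),
          ¬ Over v₀ (conjAbs w₁ ρ) F₁ → ∀ g : Gal(AlgebraicClosure K/K), (∀ x ∈ F₀, g x = x) →
            (∀ x, w₁ (ρ (g x)) = w₁ (ρ x)) → ∀ x ∈ M, g x = x) := by
    intro c
    by_cases hex : ∃ w₁, Q c w₁
    · obtain ⟨w₁, hw₁⟩ := hex
      obtain ⟨F₀, h1, h2, h3⟩ := split_large σ v₀ h₀ w₁ hw₁.1 M F₁
      exact ⟨F₀, h1, h2, fun w hw => ⟨w₁, hw₁, h3⟩⟩
    · refine ⟨⊥, inferInstance, ?_, fun w hw => absurd ⟨w, hw⟩ hex⟩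
      intro x hx
      obtain ⟨a, rfl⟩ := IntermediateField.mem_bot.1 hx
      exact σ.commutes a
  choose F hF1 hF2 hF3 using hF
  obtain ⟨F₀, h1, h2, h3⟩ := exists_sup_fixed σ T F hF1 hF2
  refine ⟨F₀, h1, h2, fun w hnt htr hov g hg hin => ?_⟩
  by_contra hcon
  push Not at hcon
  have hna : IsNonarchimedean w := nonarch_of_trivialOn htr
  obtain ⟨s, hs, hs1⟩ := hram w hna g hin hcon
  have hnares : ∀ w : AbsoluteValue (AlgebraicClosure K) ℝ, IsNonarchimedean w →
      IsNonarchimedean (res w) := by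
    intro w hw x y
    rw [hres, hres, hres, map_add]
    exact hw _ _
  obtain ⟨c, hc, hcw⟩ := hcase (res w) (hnares w hna) htr ⟨s, hs, hs1⟩
  obtain ⟨w₁, ⟨hw1, hw2, hw3⟩, hw4⟩ := hF3 c w ⟨hnt, htr, hcw⟩
  have hna₁ : IsNonarchimedean w₁ := nonarch_of_trivialOn hw2
  have hnt₁ : (res w₁).IsNontrivial := by
    obtain ⟨a, ha⟩ := exists_one_lt w₁ hw1
    refine ⟨a, ?_, ha.ne'⟩
    rintro rfl
    rw [map_zero, map_zero] at ha
    linarith
  have hequiv : (res w₁).IsEquiv (res w) :=
    equiv_of_case hgen (res w₁) (res w) (hnares w₁ hna₁) (hnares w hna) hw2 htr hnt₁ c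
      (fun π hπ => hT π (hπ ▸ hc)) hw3 hcw
  obtain ⟨ρ, e, he, hρ⟩ := conj_of_equiv w₁ w hw1 hna₁ hequiv
  have hover : ¬ Over v₀ (conjAbs w₁ ρ) F₁ := by
    rintro ⟨h4, h5⟩
    refine hov ⟨h4, fun x hx => ?_⟩
    rw [hρ, Real.rpow_lt_one_iff' (w₁.nonneg _) he, ← conjAbs_apply]
    exact h5 x hx
  have hpres : ∀ x, w₁ (ρ (g x)) = w₁ (ρ x) := by
    intro x
    have h4 := preserved_of_inert w hna g hin x
    rw [hρ, hρ] at h4
    exact Real.rpow_left_injOn he.ne' (w₁.nonneg _) (w₁.nonneg _) h4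
  obtain ⟨x, hx, hgx⟩ := hcon
  exact hgx (hw4 ρ hover g (fun y hy => hg y (h3 c hc hy)) hpres x hx)

end

end Pool.Agent.MP_3d3918
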