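import Pool.Agent.Lib.MP_3d3918_nt.Embed
import Pool.Agent.Lib.MP_3d3918_nt.Inertia

/-!
# The field of rational functions, as rational functions in one of the variables
-/

set_option autoImplicit false

open Filter Topology Polynomial

namespace Pool.Agent.MP_3d3918

theorem ratGen_ratField (n : ℕ) (i : Fin (n + 1)) : RatGen (otherVars n i) (ratVar n i) := by
  have hpoly : ∀ q : MvPolynomial (Fin (n + 1)) ℚ, ∃ P : Polynomial (otherVars n i),
      algebraMap (MvPolynomial (Fin (n + 1)) ℚ) (RatField n) q = aeval (ratVar n i) P := by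
    intro q
    induction q using MvPolynomial.induction_on with
    | C a =>
      refine ⟨Polynomial.C (a : otherVars n i), ?_⟩
      rw [aeval_C]
      have h1 : algebraMap (MvPolynomial (Fin (n + 1)) ℚ) (RatField n) (MvPolynomial.C a) =
          (a : RatField n) := by
        exact map_ratCast
          ((algebraMap (MvPolynomial (Fin (n + 1)) ℚ) (RatField n)).comp MvPolynomial.C) a
      rw [h1, map_ratCast]
    | add p q hp hq =>
      obtain ⟨P, hP⟩ := hp
      obtain ⟨Q, hQ⟩ := hq
      exact ⟨P + Q, by rw [map_add, map_add, hP, hQ]⟩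
    | mul_X p j hp =>
      obtain ⟨P, hP⟩ := hp
      by_cases hj : j = i
      · refine ⟨P * Polynomial.X, ?_⟩
        rw [map_mul, map_mul, hP, aeval_X, hj]
        rfl
      · have hmem : ratVar n j ∈ otherVars n i := Subfield.subset_closure ⟨j, hj, rfl⟩
        refine ⟨P * Polynomial.C ⟨ratVar n j, hmem⟩, ?_⟩
        rw [map_mul, map_mul, hP, aeval_C]
        rfl
  intro y
  obtain ⟨a, b, rfl⟩ := IsLocalization.exists_mk'_eq
    (nonZeroDivisors (MvPolynomial (Fin (n + 1)) ℚ)) y
  obtain ⟨P, hP⟩ := hpoly a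
  obtain ⟨Q, hQ⟩ := hpoly b
  refine ⟨P, Q, ?_, ?_⟩
  · rw [← hQ]
    exact IsFractionRing.to_map_ne_zero_of_mem_nonZeroDivisors b.2
  · rw [IsFractionRing.mk'_eq_div, hP, hQ]

end Pool.Agent.MP_3d3918
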