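import Pool.Agent.Lib.MP_3d3918_nt.Step

/-!
# From the step of the tower to one automorphism
-/

set_option autoImplicit false

open Filter Topology

namespace Pool.Agent.MP_3d3918

section

variable (K : Type) [Field K] [CharZero K]

omit [CharZero K] in
theorem countable_closure [Countable K] : Countable (AlgebraicClosure K) := by
  have h2 := Algebraic.countable K (AlgebraicClosure K)
  have h3 : {x : AlgebraicClosure K | IsAlgebraic K x} = Set.univ := by
    ext x
    simp only [Set.mem_ofPred_eq, Set.mem_univ, iff_true]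
    exact Algebra.IsAlgebraic.isAlgebraic x
  rw [h3] at h2
  exact Set.countable_univ_iff.1 h2

theorem exists_galois (x : AlgebraicClosure K) :
    ∃ L : IntermediateField K (AlgebraicClosure K), x ∈ L ∧
      FiniteDimensional K L ∧ IsGalois K L := by
  have hint : IsIntegral K x := (Algebra.IsAlgebraic.isAlgebraic x).isIntegral
  have : FiniteDimensional K (IntermediateField.adjoin K {x}) :=
    IntermediateField.adjoin.finiteDimensional hint
  have : Normal K (AlgebraicClosure K) := IsAlgClosure.normal K (AlgebraicClosure K)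
  refine ⟨IntermediateField.normalClosure K (IntermediateField.adjoin K {x})
    (AlgebraicClosure K), ?_, inferInstance, ?_⟩
  · have h1 := (IntermediateField.le_normalClosure
      (IntermediateField.adjoin K {x} : IntermediateField K (AlgebraicClosure K)))
    exact h1 (IntermediateField.mem_adjoin_simple_self K x)
  · exact { }

/-- An increasing sequence of finite Galois extensions which exhausts the algebraic closure. -/
theorem exists_exhaustion [Countable K] :
    ∃ M : ℕ → IntermediateField K (AlgebraicClosure K), Monotone M ∧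
      (∀ n, FiniteDimensional K (M n)) ∧ (∀ n, IsGalois K (M n)) ∧ ∀ x, ∃ n, x ∈ M n := by
  have hc := countable_closure K
  obtain ⟨f, hf⟩ := exists_surjective_nat (AlgebraicClosure K)
  choose L hL using exists_galois K
  let S := {M : IntermediateField K (AlgebraicClosure K) // FiniteDimensional K M ∧ IsGalois K M}
  let M' : ℕ → S := fun n => Nat.rec (motive := fun _ => S)
    ⟨L 0, (hL 0).2.1, (hL 0).2.2⟩
    (fun n A => ⟨A.1 ⊔ L (f n), by
      have h1 := A.2.1
      have h2 := A.2.2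
      have h3 := (hL (f n)).2.1
      have h4 := (hL (f n)).2.2
      have h5 : Normal K A.1 := inferInstance
      have h6 : Normal K (L (f n)) := inferInstance
      refine ⟨inferInstance, ?_⟩
      exact { }⟩) n
  have hsucc : ∀ n, (M' (n + 1)).1 = (M' n).1 ⊔ L (f n) := fun n => rfl
  refine ⟨fun n => (M' n).1, ?_, fun n => (M' n).2.1, fun n => (M' n).2.2, ?_⟩
  · apply monotone_nat_of_le_succ
    intro n
    rw [hsucc]
    exact le_sup_left
  · intro x
    obtain ⟨n, rfl⟩ := hf x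
    refine ⟨n + 1, ?_⟩
    change f n ∈ (M' n).1 ⊔ L (f n)
    exact (le_sup_right : L (f n) ≤ (M' n).1 ⊔ L (f n)) (hL (f n)).1

end

section

variable {K : Type} [Field K] [CharZero K]

/-- Iteration of a step. -/
theorem exists_tower {α : Type} [Preorder α] (P : α → Prop) (R : ℕ → α → Prop)
    (step : ∀ n F, P F → ∃ F', F ≤ F' ∧ P F' ∧ R n F') (F₀ : α) (hF₀ : P F₀) :
    ∃ F : ℕ → α, Monotone F ∧ (∀ n, P (F n)) ∧ ∀ n, R n (F (n + 1)) := by
  choose! g hg1 hg2 hg3 using step
  let F' : ℕ → {F // P F} := fun n => Nat.rec (motive := fun _ => {F // P F}) ⟨F₀, hF₀⟩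
    (fun n A => ⟨g n A.1, hg2 n A.1 A.2⟩) n
  refine ⟨fun n => (F' n).1, ?_, fun n => (F' n).2, fun n => hg3 n _ (F' n).2⟩
  apply monotone_nat_of_le_succ
  intro n
  exact hg1 n _ (F' n).2

theorem le_of_le_iSup (G : ℕ → IntermediateField K (AlgebraicClosure K)) (hG : Monotone G)
    (F : IntermediateField K (AlgebraicClosure K)) [FiniteDimensional K F]
    (hF : ∀ x ∈ F, ∃ n, x ∈ G n) : ∃ n, F ≤ G n := by
  obtain ⟨θ, hθ⟩ := Field.exists_primitive_element K F
  obtain ⟨n, hn⟩ := hF θ θ.2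
  refine ⟨n, fun x hx => ?_⟩
  have h1 : (⟨x, hx⟩ : F) ∈ IntermediateField.adjoin K {θ} := by
    rw [hθ]
    trivial
  have h2 : IntermediateField.adjoin K {θ} ≤ (G n).comap F.val := by
    rw [IntermediateField.adjoin_le_iff]
    intro w hw
    rw [Set.mem_singleton_iff.1 hw]
    exact hn
  exact h2 h1

/-- The automorphism. -/
theorem exists_sigma (M : ℕ → IntermediateField K (AlgebraicClosure K)) (hmono : Monotone M)
    (hMex : ∀ x, ∃ n, x ∈ M n) (hfd : ∀ n, FiniteDimensional K (M n))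
    (hG : ∀ n, IsGalois K (M n)) (X : IntermediateField K (AlgebraicClosure K))
    (hcyc : ∀ n, IsCyclic (X.fixingSubgroup.map
      (AlgEquiv.restrictNormalHom (M n) : Gal(AlgebraicClosure K/K) →* Gal(M n/K)))) :
    ∃ σ : Gal(AlgebraicClosure K/K), ∀ x, σ x = x ↔ x ∈ X := by
  let r : (n : ℕ) → Gal(AlgebraicClosure K/K) →* Gal(M n/K) := fun n =>
    AlgEquiv.restrictNormalHom (M n)
  have hr : ∀ n (τ : Gal(AlgebraicClosure K/K)) (x : M n),
      ((r n τ x : M n) : AlgebraicClosure K) = τ x := fun n τ x =>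
    AlgEquiv.restrictNormalHom_apply (M n) τ x
  let C : ℕ → Set Gal(AlgebraicClosure K/K) := fun n => {τ | τ ∈ X.fixingSubgroup ∧
    ∀ ρ ∈ X.fixingSubgroup, r n ρ ∈ Subgroup.zpowers (r n τ)}
  have hCcl : ∀ n, IsClosed (C n) := by
    intro n
    have e1 : IsClosed {τ : Gal(AlgebraicClosure K/K) | τ ∈ X.fixingSubgroup} :=
      InfiniteGalois.fixingSubgroup_isClosed X
    have e2 : IsClosed {τ : Gal(AlgebraicClosure K/K) |
        ∀ ρ ∈ X.fixingSubgroup, r n ρ ∈ Subgroup.zpowers (r n τ)} := by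
      have hc : Continuous (r n) := InfiniteGalois.restrictNormalHom_continuous (M n)
      have hd : IsClosed {g : Gal(M n/K) | ∀ ρ ∈ X.fixingSubgroup,
        r n ρ ∈ Subgroup.zpowers g} := isClosed_discrete _
      exact hd.preimage hc
    exact e1.inter e2
  have hCne : ∀ n, (C n).Nonempty := by
    intro n
    obtain ⟨⟨_, τ, hτ, rfl⟩, hg⟩ := (hcyc n).exists_generator
    refine ⟨τ, hτ, fun ρ hρ => ?_⟩
    obtain ⟨k, hk⟩ := Subgroup.mem_zpowers_iff.1 (hg ⟨r n ρ, ρ, hρ, rfl⟩)
    refine Subgroup.mem_zpowers_iff.2 ⟨k, ?_⟩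
    have := congrArg Subtype.val hk
    simpa using this
  have hCanti : ∀ n, C (n + 1) ⊆ C n := by
    rintro n τ ⟨h1, h2⟩
    refine ⟨h1, fun ρ hρ => ?_⟩
    obtain ⟨k, hk⟩ := Subgroup.mem_zpowers_iff.1 (h2 ρ hρ)
    refine Subgroup.mem_zpowers_iff.2 ⟨k, ?_⟩
    ext x
    rw [← map_zpow, hr, hr]
    have h3 := hr (n + 1) ρ ⟨x, hmono (Nat.le_succ n) x.2⟩
    rw [← hk, ← map_zpow, hr] at h3
    exact h3
  obtain ⟨σ, hσ⟩ := IsCompact.nonempty_iInter_of_sequence_nonempty_isCompact_isClosed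
    C hCanti hCne ((hCcl 0).isCompact) hCcl
  rw [Set.mem_iInter] at hσ
  refine ⟨σ, fun x => ⟨fun hx => ?_, fun hx => ?_⟩⟩
  · rw [← InfiniteGalois.fixedField_fixingSubgroup X, IntermediateField.mem_fixedField_iff]
    intro ρ hρ
    obtain ⟨n, hn⟩ := hMex x
    obtain ⟨k, hk⟩ := Subgroup.mem_zpowers_iff.1 ((hσ n).2 ρ hρ)
    have h1 := hr n ρ ⟨x, hn⟩
    rw [← hk, ← map_zpow, hr] at h1
    rw [← h1]
    have h4 : σ ∈ MulAction.stabilizer Gal(AlgebraicClosure K/K) x := hx
    exact Subgroup.zpow_mem _ h4 k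
  · exact (IntermediateField.mem_fixingSubgroup_iff _ _).1 (hσ 0).1 x hx

/-- From the step to one automorphism. -/
theorem exists_sigma_of_step [Countable K] (P : IntermediateField K (AlgebraicClosure K) → Prop)
    (hstep : ∀ F, P F → ∀ (M : IntermediateField K (AlgebraicClosure K)) [FiniteDimensional K M]
      [IsGalois K M], ∃ F', F ≤ F' ∧ P F' ∧ IsCyclic (F'.fixingSubgroup.map
        (AlgEquiv.restrictNormalHom M : Gal(AlgebraicClosure K/K) →* Gal(M/K))))
    (F₀ : IntermediateField K (AlgebraicClosure K)) (hF₀ : P F₀) :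
    ∃ σ : Gal(AlgebraicClosure K/K), (∀ x ∈ F₀, σ x = x) ∧
      ∀ F : IntermediateField K (AlgebraicClosure K), FiniteDimensional K F →
        (∀ x ∈ F, σ x = x) → ∃ F', F ≤ F' ∧ (∀ x ∈ F', σ x = x) ∧ P F' := by
  obtain ⟨M, hMmono, hMfin, hMgal, hMex⟩ := exists_exhaustion K
  obtain ⟨G, hGmono, hGbad, hGR⟩ := exists_tower
    (fun F : IntermediateField K (AlgebraicClosure K) => F₀ ≤ F ∧ P F)
    (fun n F' => IsCyclic (F'.fixingSubgroup.map
        (AlgEquiv.restrictNormalHom (M n) : Gal(AlgebraicClosure K/K) →* Gal(M n/K))))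
    (fun n F hF => by
      have := hMfin n
      have := hMgal n
      obtain ⟨F', h1, h2, h3⟩ := hstep F hF.2 (M n)
      exact ⟨F', h1, ⟨hF.1.trans h1, h2⟩, h3⟩) F₀ ⟨le_rfl, hF₀⟩
  obtain ⟨σ, hσ⟩ := exists_sigma M hMmono hMex hMfin hMgal (⨆ n, G n) (fun n =>
    cyclic_of_le (Subgroup.map_mono (IntermediateField.fixingSubgroup_le
      (le_iSup G (n + 1)))) (hGR n))
  have hmem : ∀ n, ∀ x ∈ G n, σ x = x := fun n x hx => (hσ x).2 (le_iSup G n hx)
  refine ⟨σ, fun x hx => hmem 0 x ((hGbad 0).1 hx), ?_⟩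
  intro F hF hFσ
  obtain ⟨n, hn⟩ := le_of_le_iSup G hGmono F (fun x hx => by
    have h1 := (hσ x).1 (hFσ x hx)
    rw [← SetLike.mem_coe, IntermediateField.coe_iSup_of_directed hGmono.directed_le,
      Set.mem_iUnion] at h1
    exact h1)
  exact ⟨G n, hn, hmem n, (hGbad n).2⟩

end

end Pool.Agent.MP_3d3918
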