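import Pool.Agent.Lib.MP_3d3918_nt.Rank

/-!
# The groups of points over the fields of a Galois extension
-/

set_option autoImplicit false

open TensorProduct Module WeierstrassCurve WeierstrassCurve.Affine

namespace Pool.Agent.MP_3d3918

theorem finite_V {A : Type} [AddCommGroup A] (h : Module.rank ℤ A < Cardinal.aleph0) :
    Module.Finite ℚ (ℚ ⊗[ℤ] A) := by
  rw [← Module.rank_lt_aleph0_iff, IsLocalization.rank_eq ℚ (nonZeroDivisors ℤ) le_rfl]
  have h1 := IsLocalizedModule.lift_rank_eq (nonZeroDivisors ℤ) (toV A) le_rfl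
  rw [Cardinal.lift_id, Cardinal.lift_id] at h1
  refine lt_of_eq_of_lt ?_ h
  exact h1

section

variable {K K' : Type} [Field K] [Field K'] [Algebra K K'] [DecidableEq K'] (E : WeierstrassCurve K)

/-- The action of the Galois group on the points. -/
noncomputable instance galAct : DistribMulAction Gal(K'/K) (E.baseChange K').toAffine.Point where
  smul σ P := Point.map (W' := E) (σ : K' →ₐ[K] K') P
  one_smul P := by
    change Point.map (W' := E) ((1 : Gal(K'/K)) : K' →ₐ[K] K') P = P
    cases P <;> rfl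
  mul_smul σ τ P := by
    change Point.map (W' := E) ((σ * τ : Gal(K'/K)) : K' →ₐ[K] K') P =
      Point.map (W' := E) (σ : K' →ₐ[K] K') (Point.map (W' := E) (τ : K' →ₐ[K] K') P)
    cases P <;> rfl
  smul_zero σ := rfl
  smul_add σ P Q := map_add _ _ _

theorem smul_def' (σ : Gal(K'/K)) (P : (E.baseChange K').toAffine.Point) :
    σ • P = Point.map (W' := E) (σ : K' →ₐ[K] K') P := rfl

/-- The points over the field of the elements fixed by `H`. -/
theorem exists_equiv (H : Subgroup Gal(K'/K)) (L : Type) [Field L] [DecidableEq L] [Algebra K L]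
    (f : L →ₐ[K] K') (hf : ∀ x : K', (∀ σ ∈ H, σ x = x) ↔ x ∈ Set.range f) :
    Nonempty ((E.baseChange L).toAffine.Point ≃ₗ[ℤ]
      fixedSub (E.baseChange K').toAffine.Point H) := by
  have hfix : ∀ (σ : Gal(K'/K)), σ ∈ H → ∀ x : L, σ (f x) = f x := fun σ hσ x =>
    (hf _).2 ⟨x, rfl⟩ σ hσ
  let g : (E.baseChange L).toAffine.Point →ₗ[ℤ] (E.baseChange K').toAffine.Point :=
    (Point.map (W' := E) f).toIntLinearMap
  have hg : ∀ P, g P = Point.map (W' := E) f P := fun P => rfl
  have hmem : ∀ P, g P ∈ fixedSub (E.baseChange K').toAffine.Point H := by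
    intro P σ hσ
    rw [smul_def', hg, Point.map_map]
    have : (σ : K' →ₐ[K] K').comp f = f := by
      ext x
      exact hfix σ hσ x
    rw [this]
  let g' : (E.baseChange L).toAffine.Point →ₗ[ℤ] fixedSub (E.baseChange K').toAffine.Point H :=
    g.codRestrict _ hmem
  refine ⟨LinearEquiv.ofBijective g' ⟨?_, ?_⟩⟩
  · intro P Q h
    exact Point.map_injective f (congrArg Subtype.val h)
  · rintro ⟨P, hP⟩
    rcases P with _ | ⟨x, y, hn⟩
    · exact ⟨0, rfl⟩
    · have h1 : ∀ σ ∈ H, σ x = x ∧ σ y = y := by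
        intro σ hσ
        have h2 := hP σ hσ
        rw [smul_def', Point.map_some] at h2
        exact Point.some.inj h2
      obtain ⟨a, rfl⟩ := (hf x).1 fun σ hσ => (h1 σ hσ).1
      obtain ⟨b, rfl⟩ := (hf y).1 fun σ hσ => (h1 σ hσ).2
      exact ⟨Point.some _ _ ((E.toAffine.baseChange_nonsingular f.injective ..).1 hn), rfl⟩

end

end Pool.Agent.MP_3d3918
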