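import Pool.Agent.Lib.MP_3d3918_nt.Sums
import Pool.Agent.Lib.MP_3d3918_nt.Points

/-!
# Nagao's formula follows from Nagao's formula over the fixed fields of the cyclic subgroups
-/

set_option autoImplicit false

open Filter Topology

namespace Pool.Agent.MP_3d3918

/-- Linear combinations. -/
theorem Good.combine {ι : Type} {U : Set ℂ} (T : Finset ι) (a : ι → ℂ)
    (t : ι → ℂ → Nat.Primes → ℂ) (r : ι → ℂ) (h : ∀ i ∈ T, Good U (t i) (r i)) :
    Good U (fun s p => ∑ i ∈ T, a i * t i s p) (∑ i ∈ T, a i * r i) := by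
  classical
  unfold Good at h
  choose! F hF hlim c hc using h
  refine ⟨fun s => ∑ i ∈ T, a i * F i s, ?_, ?_, (∑ i ∈ T, |c i|), ?_⟩
  · intro x hx
    refine MeromorphicAt.fun_sum (fun i hi => ?_)
    exact (MeromorphicAt.const (a i) x).mul (hF i hi x hx)
  · have h1 : (fun s : ℂ => (s - 1) * ∑ i ∈ T, a i * F i s) =
        fun s : ℂ => ∑ i ∈ T, a i * ((s - 1) * F i s) := by
      funext s
      rw [Finset.mul_sum]
      exact Finset.sum_congr rfl fun i _ => by ring
    rw [h1, ← Finset.sum_neg_distrib]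
    refine tendsto_finsetSum _ fun i hi => ?_
    have h2 := (hlim i hi).const_mul (a i)
    rwa [mul_neg] at h2
  · intro s hs
    refine hasSum_sum fun i hi => ?_
    refine (hc i hi s (lt_of_le_of_lt ?_ hs)).mul_left (a i)
    exact (le_abs_self _).trans (Finset.single_le_sum (fun j _ => abs_nonneg (c j)) hi)

theorem NagaoAt.mk {U : Set ℂ} {K : Type} [Field K] [CharZero K] {E : WeierstrassCurve K}
    {R : Subring K} (W : WeierstrassCurve R) (hW : W.map R.subtype = E) (hWu : IsUnit W.Δ)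
    (r : ℕ) (hr : mwRank E = r) (h : Good U (term K R W) r) : NagaoAt U E R :=
  ⟨W, hW, hWu, r, hr, h⟩

theorem NagaoAt.elim {U : Set ℂ} {K : Type} [Field K] [CharZero K] {E : WeierstrassCurve K}
    {R : Subring K} (h : NagaoAt U E R) (W : WeierstrassCurve R) (hW : W.map R.subtype = E) :
    ∃ r : ℕ, mwRank E = r ∧ Good U (term K R W) r := by
  obtain ⟨W', hW', -, r, hr, hg⟩ := h
  have h1 : W' = W := WeierstrassCurve.map_injective R.subtype_injective (hW'.trans hW.symm)
  subst h1
  exact ⟨r, hr, hg⟩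

theorem NagaoAt.exists {U : Set ℂ} {K : Type} [Field K] [CharZero K] {E : WeierstrassCurve K}
    {R : Subring K} (h : NagaoAt U E R) :
    ∃ (W : WeierstrassCurve R) (r : ℕ), W.map R.subtype = E ∧ IsUnit W.Δ ∧ mwRank E = r ∧
      Good U (term K R W) r := by
  obtain ⟨W, hW, hWu, r, hr, hg⟩ := h
  exact ⟨W, r, hW, hWu, hr, hg⟩

theorem term_congr {K L : Type} [Field K] [CharZero K] [Field L] [CharZero L] {R : Subring K}
    {W : WeierstrassCurve R} {R' : Subring L} {W' : WeierstrassCurve R'} (hd : dim K = dim L)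
    (hs : ∀ p : ℕ, fibreSum p R W = fibreSum p R' W') : term K R W = term L R' W' := by
  funext s p
  unfold term
  rw [hd, hs]

theorem dim_eq {K L : Type} [Field K] [CharZero K] [Field L] [CharZero L] [Algebra K L]
    [Algebra.IsAlgebraic K L] : dim L = dim K := by
  unfold dim
  have tow : IsScalarTower ℚ K L := inferInstance
  have h1 := trdeg_add_eq (R := ℚ) (S := K) (A := L)
  rw [trdeg_eq_zero (R := K) (A := L), add_zero] at h1
  rw [h1]

theorem fg_closure {K : Type} [Field K] (s : Finset K) : FG (Subring.closure (s : Set K)) :=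
  ⟨s, rfl⟩

/-- A curve has an equation over a ring which contains its coefficients. -/
theorem exists_model {K : Type} [Field K] (E : WeierstrassCurve K) [E.IsElliptic] :
    ∃ T : Finset K, ∀ R : Subring K, (T : Set K) ⊆ R →
      ∃ W : WeierstrassCurve R, W.map R.subtype = E ∧ IsUnit W.Δ := by
  classical
  refine ⟨{E.a₁, E.a₂, E.a₃, E.a₄, E.a₆, (E.Δ)⁻¹}, fun R hR => ?_⟩
  have h : ∀ x ∈ ({E.a₁, E.a₂, E.a₃, E.a₄, E.a₆, (E.Δ)⁻¹} : Finset K), x ∈ R := fun x hx => hR hx
  let W : WeierstrassCurve R := ⟨⟨E.a₁, h _ (by simp)⟩, ⟨E.a₂, h _ (by simp)⟩,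
    ⟨E.a₃, h _ (by simp)⟩, ⟨E.a₄, h _ (by simp)⟩, ⟨E.a₆, h _ (by simp)⟩⟩
  have hW : W.map R.subtype = E := rfl
  refine ⟨W, hW, IsUnit.of_mul_eq_one ⟨(E.Δ)⁻¹, h _ (by simp)⟩ ?_⟩
  apply Subtype.ext
  have h1 : ((W.Δ : R) : K) = E.Δ := by
    have := W.map_Δ R.subtype
    rw [hW] at this
    exact this.symm
  change ((W.Δ : R) : K) * (E.Δ)⁻¹ = 1
  rw [h1]
  exact mul_inv_cancel₀ (WeierstrassCurve.isUnit_Δ E).ne_zero

/-- The equation is unique. -/
theorem model_unique {K : Type} [Field K] {R : Subring K} {W W' : WeierstrassCurve R}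
    (h : W.map R.subtype = W'.map R.subtype) : W = W' :=
  WeierstrassCurve.map_injective R.subtype_injective h

theorem mwRank_eq {K : Type} [Field K] (d : DecidableEq K) (E : WeierstrassCurve K) :
    mwRank E = Module.rank ℤ E.toAffine.Point := by
  unfold mwRank
  have h : (fun a b : K => Classical.propDecidable (a = b)) = d := Subsingleton.elim _ _
  subst h
  rfl

section

variable {K K' : Type} [Field K] [Field K'] [Algebra K K']
  [FiniteDimensional K K'] [IsGalois K K']

/-- The ranks. -/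
theorem ranks (E : WeierstrassCurve K) (T : Finset (Subgroup Gal(K'/K)))
    (n : Subgroup Gal(K'/K) → ℤ)
    (hrel : ∀ g : Gal(K'/K), ∑ H ∈ T, n H * (Nat.card {x : Gal(K'/K) ⧸ H // g • x = x} : ℤ) =
      Nat.card Gal(K'/K)) (r : Subgroup Gal(K'/K) → ℕ)
    (hr : ∀ H ∈ T, mwRank (E.map (algebraMap K (IntermediateField.fixedField H))) = r H)
    (r₀ : ℕ) (hr₀ : mwRank (E.map (algebraMap K (IntermediateField.fixedField
      (⊥ : Subgroup Gal(K'/K))))) = r₀) :
    ∃ r₁ : ℕ, mwRank E = r₁ ∧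
      ∑ H ∈ T, n H * (r H : ℤ) = Nat.card Gal(K'/K) * (r₁ : ℤ) := by
  classical
  rw [mwRank_eq inferInstance] at hr₀
  have hf : ∀ (H : Subgroup Gal(K'/K)) (x : K'), (∀ σ ∈ H, σ x = x) ↔
      x ∈ Set.range (IntermediateField.fixedField H).val := by
    intro H x
    rw [← IntermediateField.mem_fixedField_iff]
    constructor
    · intro h
      exact ⟨⟨x, h⟩, rfl⟩
    · rintro ⟨y, rfl⟩
      exact y.2
  let A := (E.baseChange K').toAffine.Point
  have hA : Module.rank ℤ A = r₀ := by
    obtain ⟨e⟩ := exists_equiv E (⊥ : Subgroup Gal(K'/K)) _ _ (hf ⊥)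
    rw [← hr₀]
    have h1 : fixedSub A (⊥ : Subgroup Gal(K'/K)) = ⊤ := by
      rw [eq_top_iff]
      intro a _ h hh
      rw [Subgroup.mem_bot.1 hh, one_smul]
    have h2 : Module.rank ℤ (fixedSub A (⊥ : Subgroup Gal(K'/K))) = Module.rank ℤ A := by
      rw [h1, rank_top]
    rw [← h2]
    exact e.rank_eq.symm
  have hA' : Module.rank ℤ A < Cardinal.aleph0 := by
    rw [hA]
    exact Cardinal.natCast_lt_aleph0
  have hfin := finite_V hA'
  have h1 := rank_relation hfin T n hrel
  obtain ⟨e⟩ := exists_equiv E (⊤ : Subgroup Gal(K'/K)) K (Algebra.ofId K K') (by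
    intro x
    refine Iff.trans ?_ (IsGalois.mem_range_algebraMap_iff_fixed x).symm
    exact ⟨fun h σ => h σ (Subgroup.mem_top σ), fun h σ _ => h σ⟩)
  have hE : E.baseChange K = E := E.map_id
  rw [hE] at e
  refine ⟨Module.finrank ℤ (fixedSub A (⊤ : Subgroup Gal(K'/K))), ?_, ?_⟩
  · rw [mwRank_eq inferInstance, e.rank_eq]
    unfold Module.finrank
    rw [Cardinal.cast_toNat_of_lt_aleph0]
    exact lt_of_le_of_lt (Submodule.rank_le _) hA'
  · rw [← h1]
    refine Finset.sum_congr rfl fun H hH => ?_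
    congr 2
    obtain ⟨e'⟩ := exists_equiv E H _ _ (hf H)
    rw [← e'.finrank_eq]
    symm
    unfold Module.finrank
    have h3 := hr H hH
    rw [mwRank_eq inferInstance] at h3
    change Cardinal.toNat (Module.rank ℤ
      (E.map (algebraMap K (IntermediateField.fixedField H))).toAffine.Point) = _
    rw [h3, Cardinal.toNat_natCast]

/-- Nagao's formula follows from Nagao's formula over the fixed fields of the cyclic subgroups. -/
theorem nagao_of_cyclic [CharZero K] [CharZero K'] (U : Set ℂ) (E : WeierstrassCurve K) [E.IsElliptic]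
    (h : ∀ H : Subgroup Gal(K'/K), IsCyclic H →
      Nagao U (E.map (algebraMap K (IntermediateField.fixedField H)))) : Nagao U E := by
  classical
  obtain ⟨θ, hθ⟩ := Field.exists_primitive_element K K'
  obtain ⟨T, n, hT, hrel⟩ := MP_0d9be2.H39.artin Gal(K'/K)
  have hbot : IsCyclic (⊥ : Subgroup Gal(K'/K)) := inferInstance
  have h' : ∀ H : {H : Subgroup Gal(K'/K) // IsCyclic H}, ∃ s : Finset
      (IntermediateField.fixedField H.1), ∀ R : Subring (IntermediateField.fixedField H.1), FG R →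
        (s : Set (IntermediateField.fixedField H.1)) ⊆ R →
        NagaoAt U (E.map (algebraMap K (IntermediateField.fixedField H.1))) R := by
    intro H
    obtain ⟨R₀, ⟨s, hs⟩, hR₀⟩ := h H.1 H.2
    refine ⟨s, fun R hR hsR => hR₀ R hR ?_⟩
    rw [← hs, Subring.closure_le]
    exact hsR
  choose s hs using h'
  -- the threshold
  obtain ⟨T₁, hT₁⟩ := exists_large θ hθ
  obtain ⟨T₂, hT₂⟩ := exists_finset_set θ hθ
    (⋃ H : {H : Subgroup Gal(K'/K) // IsCyclic H},
      ((fun x : IntermediateField.fixedField H.1 => (x : K')) '' (s H : Set _)))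
    (Set.finite_iUnion fun H => (Finset.finite_toSet _).image _)
  obtain ⟨T₃, hT₃⟩ := exists_model E
  refine ⟨Subring.closure ((T₁ ∪ T₂ ∪ T₃ : Finset K) : Set K), fg_closure _, ?_⟩
  intro R hR hle
  have hsub : ((T₁ ∪ T₂ ∪ T₃ : Finset K) : Set K) ⊆ R := fun x hx =>
    hle (Subring.subset_closure hx)
  have hl : Large θ R := hT₁ R fun x hx => hsub (by
    simp only [Finset.coe_union, Set.mem_union]; tauto)
  have hgen := hT₂ R fun x hx => hsub (by
    simp only [Finset.coe_union, Set.mem_union]; tauto)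
  obtain ⟨W, hW, hWu⟩ := hT₃ R fun x hx => hsub (by
    simp only [Finset.coe_union, Set.mem_union]; tauto)
  have hf : ∀ (H : Subgroup Gal(K'/K)) (x : K'), (∀ σ ∈ H, σ x = x) ↔
      x ∈ Set.range (IntermediateField.fixedField H).val := by
    intro H x
    rw [← IntermediateField.mem_fixedField_iff]
    constructor
    · intro h
      exact ⟨⟨x, h⟩, rfl⟩
    · rintro ⟨y, rfl⟩
      exact y.2
  -- the formulas
  have key : ∀ H : Subgroup Gal(K'/K), IsCyclic H → ∃ r : ℕ, mwRank
      (E.map (algebraMap K (IntermediateField.fixedField H))) = r ∧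
      Good U (term (IntermediateField.fixedField H) (AR θ R (IntermediateField.fixedField H).val)
        (W.map (incl θ R (IntermediateField.fixedField H).val))) r := by
    intro H hH
    obtain ⟨W', hW', -, r, hr, hgood⟩ := hs ⟨H, hH⟩
      (AR θ R (IntermediateField.fixedField H).val) (fg_AR hR hl H _ (hf H)) (by
        intro x hx
        change (x : K') ∈ BR θ R
        exact hgen _ (Set.mem_iUnion.2 ⟨⟨H, hH⟩, x, hx, rfl⟩))
    have h1 : W' = W.map (incl θ R (IntermediateField.fixedField H).val) := by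
      apply model_unique
      rw [hW', WeierstrassCurve.map_map, subtype_incl, ← WeierstrassCurve.map_map, hW]
    rw [h1] at hgood
    exact ⟨r, hr, hgood⟩
  choose! r hr hgood using key
  obtain ⟨r₁, hr₁, hsum⟩ := ranks E T n hrel r (fun H hH => hr H (hT H hH)) (r ⊥) (hr ⊥ hbot)
  have hN : (Nat.card Gal(K'/K) : ℂ) ≠ 0 := by
    exact_mod_cast Nat.card_pos.ne'
  have hcomb := Good.combine T (fun H => (Nat.card Gal(K'/K) : ℂ)⁻¹ * (n H : ℂ)) _ _
    (fun H hH => hgood H (hT H hH))
  refine ⟨W, hW, hWu, r₁, hr₁, ?_⟩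
  have h1 : ∑ H ∈ T, (Nat.card Gal(K'/K) : ℂ)⁻¹ * (n H : ℂ) * (r H : ℂ) = (r₁ : ℂ) := by
    have h2 : ∑ H ∈ T, (n H : ℂ) * (r H : ℂ) = (Nat.card Gal(K'/K) : ℂ) * (r₁ : ℂ) := by
      exact_mod_cast hsum
    simp only [mul_assoc]
    rw [← Finset.mul_sum, h2, inv_mul_cancel_left₀ hN]
  have h2 : (fun (s : ℂ) (p : Nat.Primes) => ∑ H ∈ T, (Nat.card Gal(K'/K) : ℂ)⁻¹ * (n H : ℂ) *
      term (IntermediateField.fixedField H) (AR θ R (IntermediateField.fixedField H).val)
        (W.map (incl θ R (IntermediateField.fixedField H).val)) s p) = term K R W := by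
    funext s p
    have hp : Fact (p : ℕ).Prime := ⟨p.2⟩
    have h3 := sum_relation hR hl hθ T n hrel p W
    have h4 : ∑ H ∈ T, (n H : ℂ) *
        (fibreSum p (AR θ R (IntermediateField.fixedField H).val)
        (W.map (incl θ R (IntermediateField.fixedField H).val)) : ℂ) =
        (Nat.card Gal(K'/K) : ℂ) * (fibreSum p R W : ℂ) := by
      exact_mod_cast h3
    have h5 : ∀ H : Subgroup Gal(K'/K), dim (IntermediateField.fixedField H) = dim K := fun H =>
      dim_eq
    unfold term
    simp only [h5]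
    have h6 : ∀ H ∈ T, (Nat.card Gal(K'/K) : ℂ)⁻¹ * (n H : ℂ) *
        ((fibreSum p (AR θ R (IntermediateField.fixedField H).val)
        (W.map (incl θ R (IntermediateField.fixedField H).val)) : ℂ) / ((p : ℕ) : ℂ) ^ (dim K) *
        (Real.log (p : ℕ) : ℂ) * ((p : ℕ) : ℂ) ^ (-s)) =
        ((n H : ℂ) * (fibreSum p (AR θ R (IntermediateField.fixedField H).val)
        (W.map (incl θ R (IntermediateField.fixedField H).val)) : ℂ)) *
        ((Nat.card Gal(K'/K) : ℂ)⁻¹ / ((p : ℕ) : ℂ) ^ (dim K) *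
        (Real.log (p : ℕ) : ℂ) * ((p : ℕ) : ℂ) ^ (-s)) := by
      intro H _
      ring
    rw [Finset.sum_congr rfl h6, ← Finset.sum_mul, h4]
    field_simp
  rw [h1, h2] at hcomb
  exact hcomb

end

end Pool.Agent.MP_3d3918
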