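import Pool.Agent.Lib.MP_0d9be2_nt.H63.Pro
import Pool.Agent.Lib.MP_3d3918_nt.Abstract

/-!
# The places: F. K. Schmidt's theorem and compactness
-/

set_option autoImplicit false

open Filter Topology Pool.Agent.MP_0d9be2.H63

namespace Pool.Agent.MP_3d3918

section

variable {K : Type} [Field K] [CharZero K]

omit [CharZero K] in
theorem restrict_mem_zpowers (σ τ : Gal(AlgebraicClosure K/K)) (h : InClosure σ τ)
    (M : IntermediateField K (AlgebraicClosure K)) [FiniteDimensional K M] [Normal K M] :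
    ∃ k : ℤ, ∀ x ∈ M, τ x = (σ ^ k) x := by
  have h0 : (AlgEquiv.restrictNormalHom M : Gal(AlgebraicClosure K/K) →* Gal(M/K)) τ ∈
      Subgroup.zpowers
        ((AlgEquiv.restrictNormalHom M : Gal(AlgebraicClosure K/K) →* Gal(M/K)) σ) := by
    rw [← IntermediateField.fixingSubgroup_fixedField (Subgroup.zpowers
          ((AlgEquiv.restrictNormalHom M : Gal(AlgebraicClosure K/K) →* Gal(M/K)) σ)),
      IntermediateField.mem_fixingSubgroup_iff]
    intro x hx
    rw [IntermediateField.mem_fixedField_iff] at hx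
    have h1 := hx _ (Subgroup.mem_zpowers _)
    have h2 : σ (x : AlgebraicClosure K) = x := by
      rw [← AlgEquiv.restrictNormalHom_apply M σ x, h1]
    apply Subtype.ext
    rw [AlgEquiv.restrictNormalHom_apply]
    exact h _ h2
  obtain ⟨k, hk⟩ := Subgroup.mem_zpowers_iff.1 h0
  refine ⟨k, fun x hx => ?_⟩
  have h1 := AlgEquiv.restrictNormalHom_apply M τ ⟨x, hx⟩
  rw [← hk, ← map_zpow, AlgEquiv.restrictNormalHom_apply] at h1
  exact h1.symm

/-- Two inequivalent absolute values are not both preserved by a nontrivial automorphism. -/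
theorem schmidt_gal (σ : Gal(AlgebraicClosure K/K)) (v w : AbsoluteValue (AlgebraicClosure K) ℝ)
    (hv : v.IsNontrivial) (hw : w.IsNontrivial) (hne : ¬ v.IsEquiv w)
    (hσv : ∀ x, v (σ x) = v x) (hσw : ∀ x, w (σ x) = w x) : σ = 1 :=
  schmidt' (k := K) σ v w hv hw hne hσv hσw

/-- The absolute value `x ↦ w (ρ x)`. -/
noncomputable def conjAbs (w : AbsoluteValue (AlgebraicClosure K) ℝ)
    (ρ : Gal(AlgebraicClosure K/K)) : AbsoluteValue (AlgebraicClosure K) ℝ :=
  w.comp (f := (ρ : AlgebraicClosure K ≃ₐ[K] AlgebraicClosure K).toRingEquiv.toRingHom) ρ.injective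

omit [CharZero K] in
theorem conjAbs_apply (w : AbsoluteValue (AlgebraicClosure K) ℝ)
    (ρ : Gal(AlgebraicClosure K/K)) (x : AlgebraicClosure K) : conjAbs w ρ x = w (ρ x) := rfl

omit [CharZero K] in
theorem conjAbs_nontrivial {w : AbsoluteValue (AlgebraicClosure K) ℝ} (hw : w.IsNontrivial)
    (ρ : Gal(AlgebraicClosure K/K)) : (conjAbs w ρ).IsNontrivial := by
  obtain ⟨y, hy0, hy1⟩ := hw
  refine ⟨ρ⁻¹ y, ?_, ?_⟩
  · intro h
    apply hy0
    rwa [map_eq_zero] at h
  · rw [conjAbs_apply, ← AlgEquiv.mul_apply, mul_inv_cancel, AlgEquiv.one_apply]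
    exact hy1

/-- If a nontrivial automorphism preserves an absolute value then so does every automorphism which
commutes with it. -/
theorem preserved_of_commute (σ τ : Gal(AlgebraicClosure K/K)) (hτ : τ ≠ 1)
    (hcomm : σ * τ = τ * σ) (v : AbsoluteValue (AlgebraicClosure K) ℝ) (hv : v.IsNontrivial)
    (hτv : ∀ x, v (τ x) = v x) (x : AlgebraicClosure K) : v (σ x) = v x := by
  have hτw : ∀ x, conjAbs v σ (τ x) = conjAbs v σ x := by
    intro x
    rw [conjAbs_apply, conjAbs_apply, ← AlgEquiv.mul_apply, hcomm, AlgEquiv.mul_apply, hτv]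
  have heq : v.IsEquiv (conjAbs v σ) := by
    by_contra hne
    exact hτ (schmidt_gal τ v _ hv (conjAbs_nontrivial hv σ) hne hτv hτw)
  refine eq_of_isEquiv (k := K) σ v (fun y z => ?_) x
  have := heq.lt_iff_lt (x := y) (y := z)
  rw [conjAbs_apply, conjAbs_apply] at this
  exact this

open Classical in
/-- The local alternative for the closure of a cyclic group. -/
theorem exists_place (σ : Gal(AlgebraicClosure K/K)) :
    ∃ v₀ : AbsoluteValue (AlgebraicClosure K) ℝ, OnlyPlace σ v₀ := by
  -- the automorphisms in question commute with each other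
  have hcomm : ∀ τ τ' : Gal(AlgebraicClosure K/K), InClosure σ τ →
      InClosure σ τ' → τ * τ' = τ' * τ := by
    intro τ τ' h h'
    ext x
    obtain ⟨M, hxM, hfd, hG⟩ := exists_galois K x
    have := hfd
    have := hG
    obtain ⟨a, ha⟩ := restrict_mem_zpowers σ τ h M
    obtain ⟨b, hb⟩ := restrict_mem_zpowers σ τ' h' M
    have hstab : ∀ (ρ : Gal(AlgebraicClosure K/K)), ρ x ∈ M := by
      intro ρ
      have h1 := AlgEquiv.restrictNormalHom_apply M ρ ⟨x, hxM⟩
      rw [← h1]
      exact ((AlgEquiv.restrictNormalHom M ρ) ⟨x, hxM⟩).2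
    rw [AlgEquiv.mul_apply, AlgEquiv.mul_apply, ha _ (hstab τ'), hb _ (hstab τ), hb x hxM, ha x hxM,
      ← AlgEquiv.mul_apply, ← AlgEquiv.mul_apply, ← zpow_add, ← zpow_add, add_comm]
  by_cases hcase : ∃ (τ : Gal(AlgebraicClosure K/K)) (v : AbsoluteValue (AlgebraicClosure K) ℝ),
      InClosure σ τ ∧ τ ≠ 1 ∧ v.IsNontrivial ∧ ∀ x, v (τ x) = v x
  · obtain ⟨τ, v, hτ, hτ1, hv, hτv⟩ := hcase
    have hall : ∀ ρ : Gal(AlgebraicClosure K/K), InClosure σ ρ →
        ∀ x, v (ρ x) = v x := fun ρ hρ x =>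
      preserved_of_commute ρ τ hτ1 (hcomm ρ τ hρ hτ) v hv hτv x
    refine ⟨v, hall σ fun x hx => hx, fun w hw hne ρ hρ hρw => ?_⟩
    exact schmidt_gal ρ v w hv hw hne (hall ρ hρ) hρw
  · refine ⟨AbsoluteValue.trivial, ?_, ?_⟩
    · intro x
      by_cases hx : x = 0
      · rw [hx, map_zero]
      · rw [AbsoluteValue.trivial_apply hx, AbsoluteValue.trivial_apply]
        rwa [ne_eq, map_eq_zero]
    · intro w hw _ τ hτ hτw
      by_contra h1
      exact hcase ⟨τ, w, hτ, h1, hw, hτw⟩

theorem locallyConstant_eval (x : AlgebraicClosure K) :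
    IsLocallyConstant (fun ρ : Gal(AlgebraicClosure K/K) => ρ x) := by
  obtain ⟨L, hxL, hfd, hG⟩ := exists_galois K x
  have := hfd
  have := hG
  have hc : Continuous (AlgEquiv.restrictNormalHom L : Gal(AlgebraicClosure K/K) →* Gal(L/K)) :=
    InfiniteGalois.restrictNormalHom_continuous L
  have h1 : (fun ρ : Gal(AlgebraicClosure K/K) => ρ x) =
      (fun g : Gal(L/K) => ((g ⟨x, hxL⟩ : L) : AlgebraicClosure K)) ∘
        (AlgEquiv.restrictNormalHom L : Gal(AlgebraicClosure K/K) →* Gal(L/K)) := by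
    funext ρ
    exact (AlgEquiv.restrictNormalHom_apply L ρ ⟨x, hxL⟩).symm
  rw [h1]
  exact (IsLocallyConstant.of_discrete _).comp_continuous hc

theorem isClosed_of_locallyConstant {X Y : Type*} [TopologicalSpace X] {f : X → Y}
    (hf : IsLocallyConstant f) (S : Set Y) : IsClosed (f ⁻¹' S) := by
  rw [← isOpen_compl_iff, ← Set.preimage_compl]
  exact hf Sᶜ

omit [CharZero K] in
/-- The fields fixed by `σ` are directed. -/
theorem fixed_sup {σ : Gal(AlgebraicClosure K/K)}
    {F F' : IntermediateField K (AlgebraicClosure K)} (h : ∀ x ∈ F, σ x = x)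
    (h' : ∀ x ∈ F', σ x = x) : ∀ x ∈ F ⊔ F', σ x = x := by
  let Y : IntermediateField K (AlgebraicClosure K) :=
    IntermediateField.fixedField (Subgroup.zpowers σ)
  have hY : ∀ x, x ∈ Y ↔ σ x = x := by
    intro x
    change x ∈ IntermediateField.fixedField (Subgroup.zpowers σ) ↔ _
    rw [IntermediateField.mem_fixedField_iff]
    constructor
    · intro h
      exact h σ (Subgroup.mem_zpowers σ)
    · rintro h ρ hρ
      have h4 : σ ∈ MulAction.stabilizer Gal(AlgebraicClosure K/K) x := h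
      exact (Subgroup.zpowers_le.2 h4) hρ
  intro x hx
  have h1 : F ⊔ F' ≤ Y := sup_le (fun x hx => (hY x).2 (h x hx)) (fun x hx => (hY x).2 (h' x hx))
  exact (hY x).1 (h1 hx)

/-- Compactness: the conjugates of a nontrivial absolute value split. -/
theorem split_large (σ : Gal(AlgebraicClosure K/K)) (v₀ : AbsoluteValue (AlgebraicClosure K) ℝ)
    (h₀ : OnlyPlace σ v₀) (w : AbsoluteValue (AlgebraicClosure K) ℝ) (hw : w.IsNontrivial)
    (M F₁ : IntermediateField K (AlgebraicClosure K)) [FiniteDimensional K M]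
    [FiniteDimensional K F₁] :
    ∃ F₀ : IntermediateField K (AlgebraicClosure K), FiniteDimensional K F₀ ∧
      (∀ x ∈ F₀, σ x = x) ∧ ∀ ρ : Gal(AlgebraicClosure K/K), ¬ Over v₀ (conjAbs w ρ) F₁ →
        ∀ g : Gal(AlgebraicClosure K/K), (∀ x ∈ F₀, g x = x) → (∀ x, w (ρ (g x)) = w (ρ x)) →
          ∀ x ∈ M, g x = x := by
  by_contra hcon
  push Not at hcon
  obtain ⟨θ, hθ⟩ := Field.exists_primitive_element K M
  have gal0 : IsGalois K (⊥ : IntermediateField K (AlgebraicClosure K)) := inferInstance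
  obtain ⟨L, hL, -, finL, galL⟩ := exists_galois_sup F₁ (⊥ : IntermediateField K
    (AlgebraicClosure K))
  let S₁ : Set (Gal(AlgebraicClosure K/K) × Gal(AlgebraicClosure K/K)) :=
    {z | ∀ x, w ((z.1 * z.2) x) = w (z.1 x)}
  let S₂ : Set (Gal(AlgebraicClosure K/K) × Gal(AlgebraicClosure K/K)) :=
    {z | z.2 (θ : AlgebraicClosure K) ≠ θ}
  let S₃ : Set (Gal(AlgebraicClosure K/K) × Gal(AlgebraicClosure K/K)) :=
    {z | ¬ Over v₀ (conjAbs w z.1) F₁}
  have hS₁ : IsClosed S₁ := by
    have h1 : S₁ = ⋂ x, {z | w ((z.1 * z.2) x) = w (z.1 x)} := by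
      ext z
      simp [S₁]
    rw [h1]
    refine isClosed_iInter fun x => ?_
    have h2 : IsLocallyConstant
        (fun z : Gal(AlgebraicClosure K/K) × Gal(AlgebraicClosure K/K) =>
          ((z.1 * z.2) x, z.1 x)) :=
      ((locallyConstant_eval x).comp_continuous
        (continuous_fst.mul continuous_snd)).prodMk
        ((locallyConstant_eval x).comp_continuous continuous_fst)
    exact isClosed_of_locallyConstant h2 {y | w y.1 = w y.2}
  have hS₂ : IsClosed S₂ :=
    isClosed_of_locallyConstant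
      ((locallyConstant_eval (θ : AlgebraicClosure K)).comp_continuous continuous_snd)
      {y | y ≠ (θ : AlgebraicClosure K)}
  have hS₃ : IsClosed S₃ := by
    have hc : Continuous (AlgEquiv.restrictNormalHom L : Gal(AlgebraicClosure K/K) →* Gal(L/K)) :=
      InfiniteGalois.restrictNormalHom_continuous L
    have h2 : IsLocallyConstant
        (fun z : Gal(AlgebraicClosure K/K) × Gal(AlgebraicClosure K/K) =>
          AlgEquiv.restrictNormalHom L z.1) :=
      (IsLocallyConstant.of_discrete (fun g : Gal(L/K) => g)).comp_continuous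
        (hc.comp continuous_fst)
    have h3 : S₃ = (fun z : Gal(AlgebraicClosure K/K) × Gal(AlgebraicClosure K/K) =>
          AlgEquiv.restrictNormalHom L z.1) ⁻¹' {g : Gal(L/K) | ¬ (v₀.IsNontrivial ∧
            ∀ x (hx : x ∈ F₁), w (g ⟨x, hL hx⟩ : L) < 1 ↔ v₀ x < 1)} := by
      ext z
      have h4 : ∀ x (hx : x ∈ F₁), conjAbs w z.1 x =
          w ((AlgEquiv.restrictNormalHom L z.1 ⟨x, hL hx⟩ : L) : AlgebraicClosure K) := by
        intro x hx
        rw [AlgEquiv.restrictNormalHom_apply, conjAbs_apply]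
      change ¬ (v₀.IsNontrivial ∧ ∀ x ∈ F₁, conjAbs w z.1 x < 1 ↔ v₀ x < 1) ↔
        ¬ (v₀.IsNontrivial ∧ ∀ x (hx : x ∈ F₁),
          w ((AlgEquiv.restrictNormalHom L z.1 ⟨x, hL hx⟩ : L) : AlgebraicClosure K) < 1 ↔
            v₀ x < 1)
      refine not_congr (and_congr_right fun _ => forall_congr' fun x => ?_)
      refine forall_congr' fun hx => ?_
      rw [h4 x hx]
    rw [h3]
    exact isClosed_of_locallyConstant h2 _
  let ι := {F₀ : IntermediateField K (AlgebraicClosure K) // FiniteDimensional K F₀ ∧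
    ∀ x ∈ F₀, σ x = x}
  let T : ι → Set (Gal(AlgebraicClosure K/K) × Gal(AlgebraicClosure K/K)) := fun F₀ =>
    {z | ∀ x ∈ F₀.1, z.2 x = x}
  have hT : ∀ F₀, IsClosed (T F₀) := by
    intro F₀
    have h1 : T F₀ = ⋂ x ∈ F₀.1, {z | z.2 x = x} := by
      ext z
      simp [T]
    rw [h1]
    refine isClosed_biInter fun x _ => ?_
    exact isClosed_of_locallyConstant ((locallyConstant_eval x).comp_continuous continuous_snd)
      {y | y = x}
  have hbot : FiniteDimensional K (⊥ : IntermediateField K (AlgebraicClosure K)) ∧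
      ∀ x ∈ (⊥ : IntermediateField K (AlgebraicClosure K)), σ x = x := by
    refine ⟨inferInstance, fun x hx => ?_⟩
    obtain ⟨a, rfl⟩ := IntermediateField.mem_bot.1 hx
    exact σ.commutes a
  have hι : Nonempty ι := ⟨⟨⊥, hbot⟩⟩
  have hclosed : ∀ F₀, IsClosed (T F₀ ∩ (S₁ ∩ (S₂ ∩ S₃))) := fun F₀ =>
    (hT F₀).inter (hS₁.inter (hS₂.inter hS₃))
  obtain ⟨z, hz⟩ := IsCompact.nonempty_iInter_of_directed_nonempty_isCompact_isClosed
    (fun F₀ : ι => T F₀ ∩ (S₁ ∩ (S₂ ∩ S₃))) (by
      intro F F'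
      have := F.2.1
      have := F'.2.1
      refine ⟨⟨F.1 ⊔ F'.1, inferInstance, fixed_sup F.2.2 F'.2.2⟩, ?_, ?_⟩
      · rintro z ⟨h1, h2⟩
        exact ⟨fun x hx => h1 x ((le_sup_left : F.1 ≤ F.1 ⊔ F'.1) hx), h2⟩
      · rintro z ⟨h1, h2⟩
        exact ⟨fun x hx => h1 x ((le_sup_right : F'.1 ≤ F.1 ⊔ F'.1) hx), h2⟩)
    (by
      intro F₀
      obtain ⟨ρ, hρ, g, hg, hw', x, hx, hgx⟩ := hcon F₀.1 F₀.2.1 F₀.2.2
      refine ⟨(ρ, g), hg, fun x => hw' x, ?_, hρ⟩
      intro hθ'
      apply hgx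
      have h4 : g ∈ (IntermediateField.adjoin K {(θ : AlgebraicClosure K)}).fixingSubgroup := by
        rw [IntermediateField.mem_fixingSubgroup_iff]
        intro y hy
        have h5 : IntermediateField.adjoin K {(θ : AlgebraicClosure K)} ≤
            IntermediateField.fixedField (Subgroup.zpowers g) := by
          rw [IntermediateField.adjoin_le_iff]
          intro u hu
          rw [Set.mem_singleton_iff.1 hu]
          change (θ : AlgebraicClosure K) ∈ IntermediateField.fixedField (Subgroup.zpowers g)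
          rw [IntermediateField.mem_fixedField_iff]
          intro τ hτ
          have h6 : g ∈ MulAction.stabilizer Gal(AlgebraicClosure K/K)
            (θ : AlgebraicClosure K) := hθ'
          exact (Subgroup.zpowers_le.2 h6) hτ
        exact (IntermediateField.mem_fixedField_iff _ _).1 (h5 hy) g (Subgroup.mem_zpowers g)
      exact (IntermediateField.mem_fixingSubgroup_iff _ _).1 h4 x
        (le_of_primitive M _ θ hθ (IntermediateField.mem_adjoin_simple_self K _) hx))
    (fun F₀ => (hclosed F₀).isCompact) hclosed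
  rw [Set.mem_iInter] at hz
  have hz0 := hz ⟨⊥, hbot⟩
  have hin : InClosure σ z.2 := by
    intro x hx
    have hint : IsIntegral K x := (Algebra.IsAlgebraic.isAlgebraic x).isIntegral
    have fin : FiniteDimensional K (IntermediateField.adjoin K {x}) :=
      IntermediateField.adjoin.finiteDimensional hint
    have hfix : ∀ y ∈ IntermediateField.adjoin K {x}, σ y = y := by
      intro y hy
      have h5 : IntermediateField.adjoin K {x} ≤
          IntermediateField.fixedField (Subgroup.zpowers σ) := by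
        rw [IntermediateField.adjoin_le_iff]
        intro u hu
        rw [Set.mem_singleton_iff.1 hu]
        change x ∈ IntermediateField.fixedField (Subgroup.zpowers σ)
        rw [IntermediateField.mem_fixedField_iff]
        intro τ hτ
        have h6 : σ ∈ MulAction.stabilizer Gal(AlgebraicClosure K/K) x := hx
        exact (Subgroup.zpowers_le.2 h6) hτ
      exact (IntermediateField.mem_fixedField_iff _ _).1 (h5 hy) σ (Subgroup.mem_zpowers σ)
    exact (hz ⟨_, fin, hfix⟩).1 x (IntermediateField.mem_adjoin_simple_self K x)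
  have hne : z.2 ≠ 1 := by
    intro h
    apply hz0.2.2.1
    rw [h]
    rfl
  have hpres : ∀ x, conjAbs w z.1 (z.2 x) = conjAbs w z.1 x := fun x => hz0.2.1 x
  have hequiv : v₀.IsEquiv (conjAbs w z.1) := by
    by_contra h
    exact hne (h₀.2 _ (conjAbs_nontrivial hw _) h z.2 hin hpres)
  apply hz0.2.2.2
  refine ⟨hequiv.isNontrivial_congr.2 (conjAbs_nontrivial hw _), fun x _ => ?_⟩
  exact hequiv.lt_one_iff.symm

end

end Pool.Agent.MP_3d3918
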