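import Pool.Agent.Lib.MP_0d9be2_nt.H39.Artin
import Pool.Agent.Lib.MP_3d3918_nt.Defs1

/-!
# Ranks of the subgroups of invariants
-/

set_option autoImplicit false

open TensorProduct Module

namespace Pool.Agent.MP_3d3918

section

variable {A G : Type} [AddCommGroup A] [Group G] [DistribMulAction G A]

theorem mem_fixedSub (H : Subgroup G) (a : A) : a ∈ fixedSub A H ↔ ∀ h ∈ H, h • a = a := Iff.rfl

/-- The map to the rational vector space. -/
noncomputable def toV (A : Type) [AddCommGroup A] : A →ₗ[ℤ] ℚ ⊗[ℤ] A := TensorProduct.mk ℤ ℚ A 1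

instance toV_localized : IsLocalizedModule (nonZeroDivisors ℤ) (toV A) := by
  rw [isLocalizedModule_iff_isBaseChange (nonZeroDivisors ℤ) ℚ]
  exact TensorProduct.isBaseChange ℤ A ℚ

/-- The action on the rational vector space. -/
noncomputable def bact (g : G) : ℚ ⊗[ℤ] A →ₗ[ℚ] ℚ ⊗[ℤ] A :=
  LinearMap.baseChange ℚ (DistribSMul.toAddMonoidHom A g).toIntLinearMap

theorem bact_toV (g : G) (a : A) : bact g (toV A a) = toV A (g • a) := by
  change LinearMap.baseChange ℚ (DistribSMul.toAddMonoidHom A g).toIntLinearMap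
    ((1 : ℚ) ⊗ₜ[ℤ] a) = (1 : ℚ) ⊗ₜ[ℤ] (g • a)
  rw [LinearMap.baseChange_tmul]
  rfl

theorem ext_V {f f' : ℚ ⊗[ℤ] A →ₗ[ℚ] ℚ ⊗[ℤ] A} (h : ∀ a : A, f (toV A a) = f' (toV A a)) :
    f = f' := by
  apply TensorProduct.AlgebraTensorModule.curry_injective
  ext a
  exact h a

theorem bact_mul (g h : G) : bact (A := A) (g * h) = bact g * bact h := by
  apply ext_V
  intro a
  rw [Module.End.mul_apply, bact_toV, bact_toV, bact_toV, mul_smul]

/-- The trace of `g`. -/
noncomputable def chi (A : Type) {G : Type} [AddCommGroup A] [Group G] [DistribMulAction G A]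
    (g : G) : ℚ := LinearMap.trace ℚ (ℚ ⊗[ℤ] A) (bact g)

theorem chi_conj (x g : G) : chi A (x⁻¹ * g * x) = chi A g := by
  unfold chi
  rw [bact_mul, LinearMap.trace_mul_comm, ← bact_mul]
  congr 2
  group

theorem chi_conj' (x g : G) : chi A (x * g * x⁻¹) = chi A g := by
  have := chi_conj (A := A) x⁻¹ g
  rwa [inv_inv] at this

/-- The projection to the invariants. -/
noncomputable def proj (A : Type) {G : Type} [AddCommGroup A] [Group G] [DistribMulAction G A]
    (H : Subgroup G) [Fintype H] : ℚ ⊗[ℤ] A →ₗ[ℚ] ℚ ⊗[ℤ] A :=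
  (Fintype.card H : ℚ)⁻¹ • ∑ h : H, bact h.1

theorem proj_toV (H : Subgroup G) [Fintype H] (a : A) :
    (Fintype.card H : ℚ) • proj A H (toV A a) = toV A (∑ h : H, h.1 • a) := by
  have h0 : (Fintype.card H : ℚ) ≠ 0 := by
    exact_mod_cast Fintype.card_ne_zero
  unfold proj
  rw [LinearMap.smul_apply, smul_smul, mul_inv_cancel₀ h0, one_smul, LinearMap.sum_apply, map_sum]
  exact Finset.sum_congr rfl fun h _ => bact_toV _ _

theorem isProj (H : Subgroup G) [Fintype H] :
    LinearMap.IsProj ((fixedSub A H).localized' ℚ (nonZeroDivisors ℤ) (toV A)) (proj A H) := by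
  have h0 : (Fintype.card H : ℚ) ≠ 0 := by
    exact_mod_cast Fintype.card_ne_zero
  set m := (fixedSub A H).localized' ℚ (nonZeroDivisors ℤ) (toV A) with hm
  have hmem : ∀ a ∈ fixedSub A H, toV A a ∈ m := by
    intro a ha
    rw [hm, Submodule.mem_localized']
    refine ⟨a, ha, 1, ?_⟩
    rw [IsLocalizedModule.mk'_one]
  have hmul : ∀ (c : ℤ), c ≠ 0 → ∀ v : ℚ ⊗[ℤ] A, (c : ℚ) • v ∈ m → v ∈ m := by
    intro c hc v hv
    have h1 := m.smul_mem ((c : ℚ)⁻¹) hv
    rwa [smul_smul, inv_mul_cancel₀ (by exact_mod_cast hc), one_smul] at h1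
  refine ⟨?_, ?_⟩
  · intro v
    obtain ⟨⟨a, s⟩, hs⟩ := IsLocalizedModule.surj (nonZeroDivisors ℤ) (toV A) v
    have hs' : ((s : ℤ) : ℚ) • v = toV A a := by
      rw [Int.cast_smul_eq_zsmul]
      exact hs
    apply hmul s (nonZeroDivisors.ne_zero s.2)
    rw [← map_smul, hs']
    apply hmul (Fintype.card H : ℤ) (by exact_mod_cast Fintype.card_ne_zero)
    rw [Int.cast_natCast, proj_toV]
    apply hmem
    intro h hh
    rw [Finset.smul_sum]
    exact Fintype.sum_bijective (fun k : H => (⟨h, hh⟩ : H) * k) (Group.mulLeft_bijective _) _ _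
      (fun k => by rw [smul_smul]; rfl)
  · intro v hv
    rw [hm, Submodule.mem_localized'] at hv
    obtain ⟨a, ha, s, hs⟩ := hv
    have hs' : ((s : ℤ) : ℚ) • v = toV A a := by
      rw [Int.cast_smul_eq_zsmul, ← hs]
      exact IsLocalizedModule.mk'_cancel' (toV A) a s
    have hc : ((s : ℤ) : ℚ) ≠ 0 := by exact_mod_cast nonZeroDivisors.ne_zero s.2
    have h1 : ((s : ℤ) : ℚ) • proj A H v = ((s : ℤ) : ℚ) • v := by
      rw [← map_smul, hs']
      have h2 : (Fintype.card H : ℚ) • proj A H (toV A a) = (Fintype.card H : ℚ) • toV A a := by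
        rw [proj_toV]
        have h3 : ∑ h : H, h.1 • a = (Fintype.card H) • a := by
          rw [Finset.sum_congr rfl (fun h _ => ha h.1 h.2), Finset.sum_const, Finset.card_univ]
        rw [h3, map_nsmul, Nat.cast_smul_eq_nsmul]
      exact smul_right_injective _ h0 h2
    exact smul_right_injective _ hc h1

theorem finrank_fixed [Finite G] (H : Subgroup G) (hfin : Module.Finite ℚ (ℚ ⊗[ℤ] A)) :
    (Nat.card H : ℚ) * (finrank ℤ (fixedSub A H) : ℚ) =
      ∑ᶠ h : H, chi A h.1 := by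
  classical
  have := Fintype.ofFinite H
  have h0 : (Fintype.card H : ℚ) ≠ 0 := by
    exact_mod_cast Fintype.card_ne_zero
  have h1 := (isProj (A := A) H).trace
  have h2 : finrank ℚ ((fixedSub A H).localized' ℚ (nonZeroDivisors ℤ) (toV A)) =
      finrank ℤ (fixedSub A H) := by
    rw [IsLocalization.finrank_eq ℚ (nonZeroDivisors ℤ) le_rfl]
    exact IsLocalizedModule.finrank_eq (nonZeroDivisors ℤ)
      ((fixedSub A H).toLocalized' ℚ (nonZeroDivisors ℤ) (toV A)) le_rfl
  rw [h2] at h1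
  rw [← h1, proj, map_smul, map_sum, finsum_eq_sum_of_fintype, Nat.card_eq_fintype_card,
    smul_eq_mul, mul_inv_cancel_left₀ h0]
  rfl

/-- The relation between ranks. -/
theorem rank_relation [Finite G] (hfin : Module.Finite ℚ (ℚ ⊗[ℤ] A))
    (T : Finset (Subgroup G)) (n : Subgroup G → ℤ)
    (hrel : ∀ g : G, ∑ H ∈ T, n H * (Nat.card {x : G ⧸ H // g • x = x} : ℤ) = Nat.card G) :
    ∑ H ∈ T, n H * (finrank ℤ (fixedSub A H) : ℤ) =
      Nat.card G * (finrank ℤ (fixedSub A (⊤ : Subgroup G)) : ℤ) := by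
  classical
  have := Fintype.ofFinite G
  have hG0 : (Fintype.card G : ℚ) ≠ 0 := by exact_mod_cast Fintype.card_ne_zero
  -- the count
  have hcount : ∀ H : Subgroup G, (Fintype.card G : ℚ) * (finrank ℤ (fixedSub A H) : ℚ) =
      ∑ g : G, chi A g * (Nat.card {x : G ⧸ H // g • x = x} : ℚ) := by
    intro H
    have hH0 : (Nat.card H : ℚ) ≠ 0 := by exact_mod_cast Nat.card_pos.ne'
    have h1 := finrank_fixed (A := A) H hfin
    apply mul_left_cancel₀ hH0
    have h2 : ∀ g : G, (Nat.card H : ℚ) * (chi A g * (Nat.card {x : G ⧸ H // g • x = x} : ℚ)) =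
        ∑ x : G, if x⁻¹ * g * x ∈ H then chi A g else 0 := by
      intro g
      have h3 := MP_0d9be2.H39.card_mul_fix H g
      rw [← Finset.sum_filter, Finset.sum_const, nsmul_eq_mul]
      have h4 : (Finset.univ.filter (fun x : G => x⁻¹ * g * x ∈ H)).card =
          Nat.card {x : G // x⁻¹ * g * x ∈ H} := by
        rw [Nat.card_eq_fintype_card, Fintype.card_subtype]
      rw [h4, ← h3]
      push_cast
      ring
    rw [Finset.mul_sum, Finset.sum_congr rfl (fun g _ => h2 g), Finset.sum_comm]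
    have h5 : ∀ x : G, (∑ g : G, if x⁻¹ * g * x ∈ H then chi A g else 0) =
        ∑ g : G, if g ∈ H then chi A g else 0 := by
      intro x
      refine Fintype.sum_bijective (fun g : G => x⁻¹ * g * x) ?_ _ _ ?_
      · refine ⟨fun a b h => ?_, fun b => ⟨x * b * x⁻¹, ?_⟩⟩
        · simpa using h
        · group
      · intro g
        rw [chi_conj]
    rw [Finset.sum_congr rfl (fun x _ => h5 x), Finset.sum_const, Finset.card_univ, nsmul_eq_mul]
    have h6 : (∑ g : G, if g ∈ H then chi A g else 0) = ∑ᶠ h : H, chi A h.1 := by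
      have := Fintype.ofFinite H
      rw [finsum_eq_sum_of_fintype, ← Finset.sum_filter]
      symm
      refine Finset.sum_bij (fun (h : H) _ => h.1) ?_ ?_ ?_ ?_
      · intro h _
        simp
      · intro a _ b _ hab
        exact Subtype.ext hab
      · intro b hb
        exact ⟨⟨b, (Finset.mem_filter.1 hb).2⟩, Finset.mem_univ _, rfl⟩
      · intro h _
        rfl
    rw [h6, ← h1]
    ring
  have htop : (finrank ℤ (fixedSub A (⊤ : Subgroup G)) : ℚ) * Fintype.card G =
      ∑ g : G, chi A g := by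
    have h1 := hcount ⊤
    have h2 : ∀ g : G, (Nat.card {x : G ⧸ (⊤ : Subgroup G) // g • x = x}) = 1 := by
      intro g
      have hs : Subsingleton (G ⧸ (⊤ : Subgroup G)) := QuotientGroup.subsingleton_quotient_top
      rw [Nat.card_eq_one_iff_unique]
      refine ⟨inferInstance, ⟨⟨((1 : G) : G ⧸ (⊤ : Subgroup G)), Subsingleton.elim _ _⟩⟩⟩
    rw [mul_comm, h1]
    refine Finset.sum_congr rfl fun g _ => ?_
    rw [h2, Nat.cast_one, mul_one]
  have key : ((∑ H ∈ T, n H * (finrank ℤ (fixedSub A H) : ℤ) : ℤ) : ℚ) =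
      ((Nat.card G * (finrank ℤ (fixedSub A (⊤ : Subgroup G)) : ℤ) : ℤ) : ℚ) := by
    apply mul_left_cancel₀ hG0
    push_cast
    rw [Finset.mul_sum]
    have h1 : ∀ H ∈ T, (Fintype.card G : ℚ) * ((n H : ℚ) * (finrank ℤ (fixedSub A H) : ℚ)) =
        ∑ g : G, chi A g * ((n H : ℚ) * (Nat.card {x : G ⧸ H // g • x = x} : ℚ)) := by
      intro H _
      have h2 := hcount H
      calc (Fintype.card G : ℚ) * ((n H : ℚ) * (finrank ℤ (fixedSub A H) : ℚ))
          = (n H : ℚ) * ((Fintype.card G : ℚ) * (finrank ℤ (fixedSub A H) : ℚ)) := by ring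
        _ = (n H : ℚ) * ∑ g : G, chi A g * (Nat.card {x : G ⧸ H // g • x = x} : ℚ) := by rw [h2]
        _ = _ := by
            rw [Finset.mul_sum]
            refine Finset.sum_congr rfl fun g _ => ?_
            ring
    rw [Finset.sum_congr rfl h1, Finset.sum_comm]
    have h3 : ∀ g : G, ∑ H ∈ T, chi A g * ((n H : ℚ) * (Nat.card {x : G ⧸ H // g • x = x} : ℚ)) =
        chi A g * Fintype.card G := by
      intro g
      rw [← Finset.mul_sum]
      congr 1
      have h4 := hrel g
      rw [Nat.card_eq_fintype_card (α := G)] at h4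
      exact_mod_cast h4
    rw [Finset.sum_congr rfl (fun g _ => h3 g), ← Finset.sum_mul, ← htop,
      Nat.card_eq_fintype_card]
    ring
  exact_mod_cast key

end

end Pool.Agent.MP_3d3918
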