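import Pool.Agent.Lib.MP_3d3918_nt.Twist

/-!
# Nagao's formula for quadratic twists
-/

set_option autoImplicit false

open Filter Topology

namespace Pool.Agent.MP_3d3918

section

variable {K L : Type} [Field K] [Field L] [Algebra K L] (δ : L) (d : K)

theorem exists_rep (hδ : δ ^ 2 = algebraMap K L d) {R : Subring K} (hdR : d ∈ R) {x : L}
    (hx : x ∈ BR δ R) : ∃ q : R × R, x = algebraMap K L q.1 + algebraMap K L q.2 * δ := by
  unfold BR at hx
  induction hx using Subring.closure_induction with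
  | mem x hx =>
    rcases hx with ⟨r, hr, rfl⟩ | hx
    · exact ⟨(⟨r, hr⟩, 0), by simp⟩
    · rw [Set.mem_singleton_iff.1 hx]
      exact ⟨(0, 1), by simp⟩
  | zero => exact ⟨(0, 0), by simp⟩
  | one => exact ⟨(1, 0), by simp⟩
  | add x y _ _ hx hy =>
    obtain ⟨⟨a, b⟩, rfl⟩ := hx
    obtain ⟨⟨a', b'⟩, rfl⟩ := hy
    refine ⟨(a + a', b + b'), ?_⟩
    push_cast
    ring
  | neg x _ hx =>
    obtain ⟨⟨a, b⟩, rfl⟩ := hx
    refine ⟨(-a, -b), ?_⟩
    push_cast
    ring
  | mul x y _ _ hx hy =>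
    obtain ⟨⟨a, b⟩, rfl⟩ := hx
    obtain ⟨⟨a', b'⟩, rfl⟩ := hy
    refine ⟨(a * a' + b * b' * ⟨d, hdR⟩, a * b' + a' * b), ?_⟩
    push_cast
    linear_combination (algebraMap K L b) * (algebraMap K L b') * hδ

theorem rep_unique (hns : δ ∉ Set.range (algebraMap K L)) {a b a' b' : K}
    (h : algebraMap K L a + algebraMap K L b * δ = algebraMap K L a' + algebraMap K L b' * δ) :
    a = a' ∧ b = b' := by
  have hb : b = b' := by
    by_contra hne
    apply hns
    have h1 : algebraMap K L (b - b') ≠ 0 := (map_ne_zero _).2 (sub_ne_zero.2 hne)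
    refine ⟨(a' - a) / (b - b'), ?_⟩
    rw [map_div₀, div_eq_iff h1, map_sub, map_sub]
    linear_combination -h
  subst hb
  exact ⟨(algebraMap K L).injective (add_right_cancel h), rfl⟩

/-- The number of the points above a point, for the quadratic extension. -/
theorem count_sqrt (hδ : δ ^ 2 = algebraMap K L d) (hns : δ ∉ Set.range (algebraMap K L))
    {R : Subring K} (hdR : d ∈ R) (p : ℕ) (y : R →+* ZMod p) :
    Nat.card {z : AR δ R (AlgHom.id K L) →+* ZMod p // z.comp (incl δ R (AlgHom.id K L)) = y} =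
      Nat.card {e : ZMod p // e ^ 2 = y ⟨d, hdR⟩} := by
  classical
  set A := AR δ R (AlgHom.id K L) with hA
  let D : A := ⟨δ, theta_mem δ R⟩
  have hD : D ^ 2 = incl δ R (AlgHom.id K L) ⟨d, hdR⟩ := Subtype.ext hδ
  have hrep : ∀ x : A, ∃ q : R × R, x = incl δ R (AlgHom.id K L) q.1 +
      incl δ R (AlgHom.id K L) q.2 * D := by
    intro x
    obtain ⟨q, hq⟩ := exists_rep δ d hδ hdR (x.2 : x.1 ∈ BR δ R)
    exact ⟨q, Subtype.ext hq⟩
  have huniq : ∀ q q' : R × R, incl δ R (AlgHom.id K L) q.1 + incl δ R (AlgHom.id K L) q.2 * D =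
      incl δ R (AlgHom.id K L) q'.1 + incl δ R (AlgHom.id K L) q'.2 * D → q = q' := by
    intro q q' h
    have h1 := rep_unique δ hns (congrArg Subtype.val h)
    exact Prod.ext (Subtype.ext h1.1) (Subtype.ext h1.2)
  choose c hc using hrep
  refine Nat.card_congr (Equiv.ofBijective (fun z => ⟨z.1 D, ?_⟩) ⟨?_, ?_⟩)
  · rw [← map_pow, hD]
    exact congrArg (fun f => f ⟨d, hdR⟩) z.2
  · intro z z' h
    have h1 : z.1 D = z'.1 D := congrArg Subtype.val h
    apply Subtype.ext
    ext x
    rw [hc x, map_add, map_add, map_mul, map_mul, h1]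
    have h2 : ∀ r, z.1 (incl δ R (AlgHom.id K L) r) = z'.1 (incl δ R (AlgHom.id K L) r) := by
      intro r
      exact congrArg (fun f => f r) (z.2.trans z'.2.symm)
    rw [h2, h2]
  · rintro ⟨e, he⟩
    have hone : c 1 = (1, 0) := huniq _ _ (by rw [← hc]; simp)
    have hzero : c 0 = (0, 0) := huniq _ _ (by rw [← hc]; simp)
    have hadd : ∀ x x' : A, c (x + x') = c x + c x' := by
      intro x x'
      apply huniq
      rw [← hc]
      conv_lhs => rw [hc x, hc x']
      simp only [Prod.fst_add, Prod.snd_add, map_add]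
      ring
    have hmul : ∀ x x' : A, c (x * x') = ((c x).1 * (c x').1 + (c x).2 * (c x').2 * ⟨d, hdR⟩,
        (c x).1 * (c x').2 + (c x').1 * (c x).2) := by
      intro x x'
      apply huniq
      rw [← hc]
      conv_lhs => rw [hc x, hc x']
      simp only [map_add, map_mul]
      rw [← hD]
      ring
    have hr : ∀ r, c (incl δ R (AlgHom.id K L) r) = (r, 0) := by
      intro r
      apply huniq
      rw [← hc]
      simp
    have hcD : c D = (0, 1) := huniq _ _ (by rw [← hc]; simp)
    let z : A →+* ZMod p :=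
      { toFun := fun x => y (c x).1 + y (c x).2 * e
        map_one' := by
          rw [hone]
          simp
        map_zero' := by
          rw [hzero]
          simp
        map_add' := by
          intro x x'
          rw [hadd, Prod.fst_add, Prod.snd_add, map_add, map_add]
          ring
        map_mul' := by
          intro x x'
          rw [hmul]
          simp only [map_add, map_mul]
          rw [← he]
          ring }
    have hz : ∀ x, z x = y (c x).1 + y (c x).2 * e := fun x => rfl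
    refine ⟨⟨z, ?_⟩, ?_⟩
    · ext r
      rw [RingHom.comp_apply, hz, hr]
      simp
    · apply Subtype.ext
      change z D = e
      rw [hz, hcD]
      simp

end

section

variable {K L : Type} [Field K] [Field L] [CharZero K] [CharZero L] [Algebra K L]
  [FiniteDimensional K L] [IsGalois K L] (δ : L) (d : K)

/-- The sums over the fibres for a curve, for its twist, and over the quadratic extension. -/
theorem sum_twist (hδ : δ ^ 2 = algebraMap K L d)
    (hL : IntermediateField.adjoin K {δ} = ⊤) (hns : δ ∉ Set.range (algebraMap K L))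
    {R : Subring K} (hfg : FG R) (hlarge : Large δ R) (dR dR' tR : R) (hdR : (dR : K) = d)
    (hdR' : dR * dR' = 1) (htR : (2 : R) * tR = 1) (A B : R) (p : ℕ) [Fact p.Prime] :
    fibreSum p (AR δ R (AlgHom.id K L)) ((short A B).map (incl δ R (AlgHom.id K L))) =
      fibreSum p R (short A B) + fibreSum p R (short (dR ^ 2 * A) (dR ^ 3 * B)) := by
  classical
  have hf : ∀ x : L, (∀ σ ∈ (⊥ : Subgroup Gal(L/K)), σ x = x) ↔
      x ∈ Set.range (AlgHom.id K L) := by
    intro x
    exact ⟨fun _ => ⟨x, rfl⟩, fun _ σ hσ => by rw [Subgroup.mem_bot.1 hσ]; rfl⟩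
  have fin1 := finite_hom hfg p
  have fin2 := finite_hom (fg_AR hfg hlarge ⊥ _ hf) p
  have := Fintype.ofFinite (R →+* ZMod p)
  rw [fibreSum_above]
  unfold fibreSum
  rw [finsum_eq_sum_of_fintype, finsum_eq_sum_of_fintype, finsum_eq_sum_of_fintype,
    ← Finset.sum_add_distrib]
  refine Finset.sum_congr rfl fun y _ => ?_
  have hdm : d ∈ R := by
    rw [← hdR]
    exact dR.2
  have hdd : (⟨d, hdm⟩ : R) = dR := Subtype.ext hdR.symm
  rw [count_sqrt δ d hδ hns hdm p y, hdd, short_map, short_map]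
  simp only [map_mul, map_pow]
  apply trace_twist
  · intro hp
    have h1 := congrArg y htR
    rw [map_mul, map_one, map_ofNat] at h1
    have h2 : (2 : ZMod p) = 0 := by
      subst hp
      rfl
    rw [h2, zero_mul] at h1
    exact zero_ne_one h1
  · intro h0
    have h1 := congrArg y hdR'
    rw [map_mul, h0, zero_mul, map_one] at h1
    exact zero_ne_one h1

/-- Nagao's formula for a quadratic twist. -/
theorem nagao_twist (U : Set ℂ) (hδ : δ ^ 2 = algebraMap K L d) (hd : d ≠ 0)
    (hL : IntermediateField.adjoin K {δ} = ⊤) (hns : δ ∉ Set.range (algebraMap K L)) (A B : K)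
    (hell : (short A B).IsElliptic) (h1 : Nagao U (short A B))
    (h2 : Nagao U ((short A B).map (algebraMap K L))) :
    Nagao U (short (d ^ 2 * A) (d ^ 3 * B)) := by
  classical
  have hf : ∀ x : L, (∀ σ ∈ (⊥ : Subgroup Gal(L/K)), σ x = x) ↔
      x ∈ Set.range (AlgHom.id K L) := by
    intro x
    exact ⟨fun _ => ⟨x, rfl⟩, fun _ σ hσ => by rw [Subgroup.mem_bot.1 hσ]; rfl⟩
  obtain ⟨R₁, ⟨s₁, hs₁⟩, h1⟩ := h1
  obtain ⟨R₂, ⟨s₂, hs₂⟩, h2⟩ := h2
  obtain ⟨T₁, hT₁⟩ := exists_large δ hL
  obtain ⟨T₂, hT₂⟩ := exists_finset_set δ hL (s₂ : Set L) (Finset.finite_toSet s₂)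
  obtain ⟨T₃, hT₃⟩ := exists_model (short A B)
  refine ⟨Subring.closure ((s₁ ∪ T₁ ∪ T₂ ∪ T₃ ∪ {A, B, d, d⁻¹, 2⁻¹} : Finset K) : Set K),
    fg_closure _, ?_⟩
  intro R hR hle
  have hsub : ((s₁ ∪ T₁ ∪ T₂ ∪ T₃ ∪ {A, B, d, d⁻¹, 2⁻¹} : Finset K) : Set K) ⊆ R := fun x hx =>
    hle (Subring.subset_closure hx)
  have hm : ∀ x ∈ ({A, B, d, d⁻¹, 2⁻¹} : Finset K), x ∈ R := fun x hx =>
    hsub (by rw [Finset.coe_union]; exact Or.inr hx)
  have hs₁R : R₁ ≤ R := by
    rw [← hs₁, Subring.closure_le]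
    intro x hx
    apply hsub
    simp only [Finset.coe_union, Set.mem_union]
    tauto
  have hlarge : Large δ R := hT₁ R fun x hx => hsub (by
    simp only [Finset.coe_union, Set.mem_union]; tauto)
  have hgen := hT₂ R fun x hx => hsub (by
    simp only [Finset.coe_union, Set.mem_union]; tauto)
  let AA : R := ⟨A, hm _ (by simp)⟩
  let BB : R := ⟨B, hm _ (by simp)⟩
  let dR : R := ⟨d, hm _ (by simp)⟩
  let dR' : R := ⟨d⁻¹, hm _ (by simp)⟩
  let tR : R := ⟨2⁻¹, hm _ (by simp)⟩
  have hdd' : dR * dR' = 1 := Subtype.ext (mul_inv_cancel₀ hd)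
  have ht : (2 : R) * tR = 1 := Subtype.ext (mul_inv_cancel₀ two_ne_zero)
  have hW : (short AA BB).map R.subtype = short A B := short_map _ _ _
  have hWu : IsUnit (short AA BB).Δ := by
    obtain ⟨W, hW', hWu⟩ := hT₃ R fun x hx => hsub (by
      simp only [Finset.coe_union, Set.mem_union]; tauto)
    rw [model_unique (hW.trans hW'.symm)]
    exact hWu
  obtain ⟨r, hr, hg⟩ := (h1 R hR hs₁R).elim (short AA BB) hW
  have hWL : ((short AA BB).map (incl δ R (AlgHom.id K L))).map
      (AR δ R (AlgHom.id K L)).subtype = (short A B).map (algebraMap K L) := by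
    rw [WeierstrassCurve.map_map, subtype_incl, ← WeierstrassCurve.map_map, hW]
  obtain ⟨rL, hrL, hgL⟩ := (h2 (AR δ R (AlgHom.id K L)) (fg_AR hR hlarge ⊥ _ hf) (by
    rw [← hs₂, Subring.closure_le]
    intro x hx
    exact hgen x hx)).elim _ hWL
  -- the rank
  have hrk := rank_twist δ d hδ hd hL hns A B hell
  rw [hr, hrL] at hrk
  obtain ⟨r', hr'⟩ : ∃ r' : ℕ, mwRank (short (d ^ 2 * A) (d ^ 3 * B)) = r' := by
    apply Cardinal.lt_aleph0.1
    refine lt_of_le_of_lt ?_ (Cardinal.natCast_lt_aleph0 (n := rL))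
    rw [← hrk]
    exact self_le_add_left _ _
  rw [hr'] at hrk
  have hrk' : r + r' = rL := by exact_mod_cast hrk
  -- the equation
  refine NagaoAt.mk (short (dR ^ 2 * AA) (dR ^ 3 * BB)) ?_ ?_ r' hr' ?_
  · rw [short_map]
    rfl
  · have h3 : (short (dR ^ 2 * AA) (dR ^ 3 * BB)).Δ = dR ^ 6 * (short AA BB).Δ := by
      rw [short_Δ, short_Δ]
      ring
    rw [h3]
    exact ((IsUnit.of_mul_eq_one _ hdd').pow 6).mul hWu
  · have hcomb := Good.combine (U := U) (Finset.univ : Finset (Fin 2)) ![1, -1]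
      ![term L (AR δ R (AlgHom.id K L)) ((short AA BB).map (incl δ R (AlgHom.id K L))),
        term K R (short AA BB)] ![(rL : ℂ), (r : ℂ)] (by
          intro i _
          fin_cases i
          · exact hgL
          · exact hg)
    have e1 : ∑ i : Fin 2, (![1, -1] : Fin 2 → ℂ) i * ![(rL : ℂ), (r : ℂ)] i = (r' : ℂ) := by
      simp only [Fin.sum_univ_two, Matrix.cons_val_zero, Matrix.cons_val_one]
      have h4 : (r : ℂ) + (r' : ℂ) = (rL : ℂ) := by exact_mod_cast hrk'
      linear_combination -h4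
    have e2 : (fun (s : ℂ) (p : Nat.Primes) => ∑ i : Fin 2, (![1, -1] : Fin 2 → ℂ) i *
        ![term L (AR δ R (AlgHom.id K L)) ((short AA BB).map (incl δ R (AlgHom.id K L))),
        term K R (short AA BB)] i s p) = term K R (short (dR ^ 2 * AA) (dR ^ 3 * BB)) := by
      funext s p
      have hp : Fact (p : ℕ).Prime := ⟨p.2⟩
      have h5 := sum_twist δ d hδ hL hns hR hlarge dR dR' tR rfl hdd' ht AA BB (p : ℕ)
      have h6 : (fibreSum p (AR δ R (AlgHom.id K L))
          ((short AA BB).map (incl δ R (AlgHom.id K L))) : ℂ) =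
          (fibreSum p R (short AA BB) : ℂ) +
            (fibreSum p R (short (dR ^ 2 * AA) (dR ^ 3 * BB)) : ℂ) := by
        exact_mod_cast h5
      have h7 : dim L = dim K := dim_eq
      simp only [Fin.sum_univ_two, Matrix.cons_val_zero, Matrix.cons_val_one]
      unfold term
      rw [h6, h7]
      ring
    rw [e1, e2] at hcomb
    exact hcomb

end

end Pool.Agent.MP_3d3918
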