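import Pool.Agent.Lib.MP_3d3918_nt.Tower
import Pool.Agent.Lib.MP_3d3918_nt.Twist2

/-!
# Curves with the same `j`-invariant
-/

set_option autoImplicit false

open Filter Topology WeierstrassCurve

namespace Pool.Agent.MP_3d3918

theorem eq_short {K : Type} [Field K] (W : WeierstrassCurve K) [W.IsShortNF] :
    W = short W.a₄ W.a₆ := by
  unfold short
  ext
  · exact W.a₁_of_isShortNF
  · exact W.a₂_of_isShortNF
  · exact W.a₃_of_isShortNF
  · rfl
  · rfl

/-- A short model, its discriminant and the `j`-invariant. -/
theorem exists_short {K : Type} [Field K] [CharZero K] (E : WeierstrassCurve K) [E.IsElliptic]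
    (h0 : E.j ≠ 0) (h1 : E.j ≠ 1728) :
    ∃ (A B : K) (C : WeierstrassCurve.VariableChange K), C • E = short A B ∧ A ≠ 0 ∧ B ≠ 0 ∧
      4 * A ^ 3 + 27 * B ^ 2 ≠ 0 ∧ E.j * (4 * A ^ 3 + 27 * B ^ 2) = 6912 * A ^ 3 := by
  have : Invertible (2 : K) := invertibleOfNonzero two_ne_zero
  have : Invertible (3 : K) := invertibleOfNonzero three_ne_zero
  obtain ⟨C, hC⟩ := E.exists_variableChange_isShortNF
  have := hC
  set W := C • E with hW
  have : W.IsElliptic := by
    rw [hW]
    infer_instance
  have hj : W.j = E.j := by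
    simp only [hW]
    exact E.variableChange_j C
  have hD : 4 * W.a₄ ^ 3 + 27 * W.a₆ ^ 2 ≠ 0 := by
    intro h
    have h2 := W.isUnit_Δ.ne_zero
    rw [W.Δ_of_isShortNF, h, mul_zero] at h2
    exact h2 rfl
  have hjj := W.j_of_isShortNF
  rw [hj, eq_div_iff hD] at hjj
  refine ⟨W.a₄, W.a₆, C, eq_short W, ?_, ?_, hD, hjj⟩
  · intro hA
    rw [hA] at hjj hD
    have : E.j * (4 * (0 : K) ^ 3 + 27 * W.a₆ ^ 2) = 0 := by
      rw [hjj]
      ring
    rcases mul_eq_zero.mp this with h | h
    · exact h0 h
    · exact hD h
  · intro hB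
    rw [hB] at hjj hD
    have hA : W.a₄ ^ 3 ≠ 0 := by
      intro h
      apply hD
      rw [h]
      ring
    apply h1
    have h3 : (E.j - 1728) * (4 * W.a₄ ^ 3) = 0 := by
      linear_combination hjj
    rcases mul_eq_zero.mp h3 with h | h
    · exact sub_eq_zero.mp h
    · exact absurd (mul_eq_zero.mp h) (by
        rw [not_or]
        exact ⟨by norm_num, hA⟩)

/-- Two curves with the same `j`-invariant are quadratic twists of each other. -/
theorem sameJ {K : Type} [Field K] [CharZero K] (E E' : WeierstrassCurve K) [E.IsElliptic]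
    [E'.IsElliptic] (hj : E.j = E'.j) (h0 : E.j ≠ 0) (h1 : E.j ≠ 1728) :
    ∃ (d A B : K) (C C' : WeierstrassCurve.VariableChange K), d ≠ 0 ∧ C • E = short A B ∧
      C' • E' = short (d ^ 2 * A) (d ^ 3 * B) := by
  obtain ⟨A, B, C, hC, hA, hB, hD, hjE⟩ := exists_short E h0 h1
  obtain ⟨A', B', C', hC', hA', hB', hD', hjE'⟩ :=
    exists_short E' (by rw [← hj]; exact h0) (by rw [← hj]; exact h1)
  rw [← hj] at hjE'
  -- the key relation
  have hkey : A ^ 3 * B' ^ 2 = A' ^ 3 * B ^ 2 := by
    have h2 : A ^ 3 * (4 * A' ^ 3 + 27 * B' ^ 2) = A' ^ 3 * (4 * A ^ 3 + 27 * B ^ 2) := by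
      have h3 : (6912 : K) ≠ 0 := by norm_num
      apply mul_left_cancel₀ h3
      linear_combination (4 * A ^ 3 + 27 * B ^ 2) * hjE' - (4 * A' ^ 3 + 27 * B' ^ 2) * hjE
    have h4 : (27 : K) ≠ 0 := by norm_num
    apply mul_left_cancel₀ h4
    linear_combination h2
  refine ⟨A * B' / (A' * B), A, B, C, C', div_ne_zero (mul_ne_zero hA hB') (mul_ne_zero hA' hB),
    hC, ?_⟩
  rw [hC']
  congr 1
  · field_simp
    linear_combination -hkey
  · field_simp
    linear_combination -hkey

section

variable {K : Type} [Field K] [CharZero K] (Ω : Type) [Field Ω] [Algebra K Ω] [IsAlgClosed Ω]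
  [Algebra.IsAlgebraic K Ω]

/-- Nagao's formula for the curves with the same `j`-invariant. -/
theorem nagao_sameJ (U : Set ℂ) (E E' : WeierstrassCurve K) [E.IsElliptic]
    [E'.IsElliptic] (hj : E.j = E'.j) (h0 : E.j ≠ 0) (h1 : E.j ≠ 1728) (hE : Nagao U E)
    (hL : ∀ (δ : Ω), δ ^ 2 ∈ Set.range (algebraMap K Ω) →
      Nagao U (E.map (algebraMap K (IntermediateField.adjoin K {δ})))) : Nagao U E' := by
  obtain ⟨d, A, B, C, C', hd, hC, hC'⟩ := sameJ E E' hj h0 h1
  -- the short curve
  have hV : Nagao U (short A B) := by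
    rw [← hC]
    exact nagao_vc U E C hE
  have hell : (short A B).IsElliptic := by
    rw [← hC]
    infer_instance
  have hV' : Nagao U (short (d ^ 2 * A) (d ^ 3 * B)) := by
    obtain ⟨δ, hδ⟩ := IsAlgClosed.exists_pow_nat_eq (algebraMap K Ω d)
      (n := 2) (by norm_num)
    by_cases hδK : δ ∈ Set.range (algebraMap K Ω)
    · obtain ⟨e, rfl⟩ := hδK
      have hde : e ^ 2 = d := by
        apply (algebraMap K Ω).injective
        rw [map_pow, hδ]
      have he0 : e ≠ 0 := by
        rintro rfl
        apply hd
        rw [← hde]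
        ring
      let C₂ : VariableChange K := ⟨Units.mk0 e⁻¹ (inv_ne_zero he0), 0, 0, 0⟩
      have h2 := nagao_vc U (short A B) C₂ hV
      have h3 : C₂ • short A B = short (d ^ 2 * A) (d ^ 3 * B) := by
        rw [WeierstrassCurve.variableChange_def]
        have hu : ((C₂.u⁻¹ : Kˣ) : K) = e := by
          rw [Units.val_inv_eq_inv_val]
          exact inv_inv e
        ext
        · simp [short, C₂]
        · simp [short, C₂]
        · simp [short, C₂]
        · simp only [short, hu]
          simp only [C₂, ← hde]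
          ring
        · simp only [short, hu]
          simp only [C₂, ← hde]
          ring
      rwa [h3] at h2
    · set L := IntermediateField.adjoin K {δ} with hLdef
      have hint : IsIntegral K δ := Algebra.IsIntegral.isIntegral δ
      have fin : FiniteDimensional K L := IntermediateField.adjoin.finiteDimensional hint
      let D : L := ⟨δ, IntermediateField.mem_adjoin_simple_self K δ⟩
      have hD : D ^ 2 = algebraMap K L d := Subtype.ext hδ
      have hDtop : IntermediateField.adjoin K {D} = ⊤ := by
        rw [eq_top_iff]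
        intro x _
        have e1 : (IntermediateField.adjoin K {D}).map L.val = L := by
          rw [IntermediateField.adjoin_map, Set.image_singleton]
          rfl
        have e2 : (x : Ω) ∈ (IntermediateField.adjoin K {D}).map L.val := by
          rw [e1]
          exact x.2
        obtain ⟨z, hz, hzx⟩ := e2
        have e3 : z = x := Subtype.ext hzx
        rw [← e3]
        exact hz
      have hDns : D ∉ Set.range (algebraMap K L) := by
        rintro ⟨a, ha⟩
        exact hδK ⟨a, congrArg Subtype.val ha⟩
      have nor : Normal K L := by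
        have hc : IsAlgClosure K Ω := ⟨inferInstance, inferInstance⟩
        have hN : Normal K Ω := IsAlgClosure.normal K Ω
        rw [IntermediateField.normal_iff_forall_map_le']
        intro σ
        rw [hLdef, IntermediateField.adjoin_map, Set.image_singleton,
          IntermediateField.adjoin_simple_le_iff]
        have e1 : σ δ = δ ∨ σ δ = -δ := by
          rw [← sq_eq_sq_iff_eq_or_eq_neg, ← map_pow, hδ]
          exact σ.commutes d
        have e2 := IntermediateField.mem_adjoin_simple_self K δ
        rcases e1 with e1 | e1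
        · change σ δ ∈ _
          rw [e1]
          exact e2
        · change σ δ ∈ _
          rw [e1]
          exact neg_mem e2
      have gal : IsGalois K L := { }
      have h2 := hL δ ⟨d, hδ.symm⟩
      have h3 := nagao_vc U _ (C.map (algebraMap K L)) h2
      rw [WeierstrassCurve.map_variableChange, hC] at h3
      exact nagao_twist D d U hD hd hDtop hDns A B hell hV h3
  rw [← hC'] at hV'
  have h4 := nagao_vc U (C' • E') C'⁻¹ hV'
  rwa [inv_smul_smul] at h4

end

end Pool.Agent.MP_3d3918
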