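import Mathlib

/-!
# Two lemmas on cyclic groups
-/

set_option autoImplicit false

namespace Pool.Agent.MP_3d3918

theorem cyclic_of_le {G : Type*} [Group G] {H K : Subgroup G} (h : H ≤ K) (hK : IsCyclic K) :
    IsCyclic H :=
  isCyclic_of_injective (Subgroup.inclusion h) (Subgroup.inclusion_injective h)

theorem cyclic_of_ker_le {D X Y : Type*} [Group D] [Group X] [Group Y]
    (f : D →* X) (g : D →* Y) (hg : Function.Surjective g) (hker : f.ker ≤ g.ker)
    (hX : IsCyclic f.range) : IsCyclic Y := by
  have hf : Function.Surjective f.rangeRestrict := f.rangeRestrict_surjective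
  have hker' : f.rangeRestrict.ker ≤ g.ker := by
    rw [MonoidHom.ker_rangeRestrict]
    exact hker
  let q : f.range →* Y := f.rangeRestrict.liftOfSurjective hf ⟨g, hker'⟩
  have hq : ∀ d, q (f.rangeRestrict d) = g d := by
    intro d
    exact MonoidHom.liftOfRightInverse_comp_apply _ _ _ ⟨g, hker'⟩ d
  refine isCyclic_of_surjective q (fun y => ?_)
  obtain ⟨d, rfl⟩ := hg y
  exact ⟨f.rangeRestrict d, hq d⟩

end Pool.Agent.MP_3d3918
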