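import Pool.Agent.Lib.MP_3d3918_nt.Rings

/-!
# The sums over the fibres
-/

set_option autoImplicit false

open Polynomial

namespace Pool.Agent.MP_3d3918

theorem finite_hom {K : Type} [Field K] {R : Subring K} (hR : FG R) (p : ℕ) [NeZero p] :
    Finite (R →+* ZMod p) := by
  obtain ⟨s, hs⟩ := hR
  have hs' : ∀ x ∈ s, x ∈ R := fun x hx => by
    rw [← hs]
    exact Subring.subset_closure hx
  let g : (R →+* ZMod p) → (s → ZMod p) := fun y x => y ⟨x.1, hs' x.1 x.2⟩
  refine Finite.of_injective g ?_
  intro y y' h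
  have key : ∀ (x : K) (hx : x ∈ R), y ⟨x, hx⟩ = y' ⟨x, hx⟩ := by
    intro x hx
    have hx' := hx
    rw [← hs] at hx'
    induction hx' using Subring.closure_induction with
    | mem x hx' => exact congrFun h ⟨x, hx'⟩
    | zero => exact (map_zero y).trans (map_zero y').symm
    | one => exact (map_one y).trans (map_one y').symm
    | add a b ha hb iha ihb =>
      rw [hs] at ha hb
      have h1 : (⟨a + b, hx⟩ : R) = ⟨a, ha⟩ + ⟨b, hb⟩ := rfl
      rw [h1, map_add, map_add, iha ha, ihb hb]
    | neg a ha iha =>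
      rw [hs] at ha
      have h1 : (⟨-a, hx⟩ : R) = -⟨a, ha⟩ := rfl
      rw [h1, map_neg, map_neg, iha ha]
    | mul a b ha hb iha ihb =>
      rw [hs] at ha hb
      have h1 : (⟨a * b, hx⟩ : R) = ⟨a, ha⟩ * ⟨b, hb⟩ := rfl
      rw [h1, map_mul, map_mul, iha ha, ihb hb]
  ext x
  exact key x.1 x.2

/-- The sum over the points of the ring above. -/
theorem fibreSum_above {p : ℕ} {R A : Type} [CommRing R] [CommRing A] [Finite (R →+* ZMod p)]
    [Finite (A →+* ZMod p)] (i : R →+* A) (W : WeierstrassCurve R) :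
    fibreSum p A (W.map i) =
      ∑ᶠ y : R →+* ZMod p, (Nat.card {z : A →+* ZMod p // z.comp i = y} : ℤ) *
        trace p (W.map y) := by
  classical
  have := Fintype.ofFinite (R →+* ZMod p)
  have := Fintype.ofFinite (A →+* ZMod p)
  unfold fibreSum
  rw [finsum_eq_sum_of_fintype, finsum_eq_sum_of_fintype,
    ← Finset.sum_fiberwise_of_maps_to (t := Finset.univ) (g := fun z : A →+* ZMod p => z.comp i)
      (fun _ _ => Finset.mem_univ _)]
  refine Finset.sum_congr rfl fun y _ => ?_
  rw [Nat.card_eq_fintype_card, Fintype.card_subtype, ← nsmul_eq_mul, ← Finset.sum_const]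
  refine Finset.sum_congr rfl fun z hz => ?_
  rw [Finset.mem_filter] at hz
  rw [WeierstrassCurve.map_map, hz.2]

section

variable {K K' : Type} [Field K] [Field K'] [Algebra K K'] [CharZero K] {θ : K'}
  [FiniteDimensional K K'] [IsGalois K K']

/-- The relation between the sums over the fibres. -/
theorem sum_relation {R : Subring K} (hfg : FG R) (hR : Large θ R)
    (hθ : IntermediateField.adjoin K {θ} = ⊤)
    (T : Finset (Subgroup Gal(K'/K))) (n : Subgroup Gal(K'/K) → ℤ)
    (hrel : ∀ g : Gal(K'/K), ∑ H ∈ T, n H * (Nat.card {x : Gal(K'/K) ⧸ H // g • x = x} : ℤ) =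
      Nat.card Gal(K'/K)) (p : ℕ) [Fact p.Prime] (W : WeierstrassCurve R) :
    ∑ H ∈ T, n H * fibreSum p (AR θ R (IntermediateField.fixedField H).val)
        (W.map (incl θ R (IntermediateField.fixedField H).val)) =
      Nat.card Gal(K'/K) * fibreSum p R W := by
  classical
  have hf : ∀ (H : Subgroup Gal(K'/K)) (x : K'), (∀ σ ∈ H, σ x = x) ↔
      x ∈ Set.range (IntermediateField.fixedField H).val := by
    intro H x
    rw [← IntermediateField.mem_fixedField_iff]
    constructor
    · intro h
      exact ⟨⟨x, h⟩, rfl⟩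
    · rintro ⟨y, rfl⟩
      exact y.2
  have fin1 := finite_hom hfg p
  have fin2 : ∀ H : Subgroup Gal(K'/K),
      Finite (AR θ R (IntermediateField.fixedField H).val →+* ZMod p) := fun H =>
    finite_hom (fg_AR hfg hR H _ (hf H)) p
  have := Fintype.ofFinite (R →+* ZMod p)
  choose σ hσ using fun y : R →+* ZMod p => count_AR hR hθ p y
  have h1 : ∀ H ∈ T, n H * fibreSum p (AR θ R (IntermediateField.fixedField H).val)
        (W.map (incl θ R (IntermediateField.fixedField H).val)) =
      ∑ y : R →+* ZMod p, n H * (Nat.card {x : Gal(K'/K) ⧸ H // σ y • x = x} : ℤ) *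
        trace p (W.map y) := by
    intro H _
    have := fin2 H
    rw [fibreSum_above, finsum_eq_sum_of_fintype, Finset.mul_sum]
    refine Finset.sum_congr rfl fun y _ => ?_
    rw [hσ y H _ _ _ _ (hf H), mul_assoc]
  rw [Finset.sum_congr rfl h1, Finset.sum_comm]
  unfold fibreSum
  rw [finsum_eq_sum_of_fintype, Finset.mul_sum]
  refine Finset.sum_congr rfl fun y _ => ?_
  rw [← Finset.sum_mul, hrel]

end

end Pool.Agent.MP_3d3918
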