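import Pool.Agent.Lib.MP_3d3918_nt.Twist0

/-!
# Quadratic twists
-/

set_option autoImplicit false

open Filter Topology WeierstrassCurve WeierstrassCurve.Affine

namespace Pool.Agent.MP_3d3918

section vc

variable {F : Type} [Field F] [DecidableEq F]

/-- The map on points, for a curve which is equal to `C • W`. -/
noncomputable def vcMap' (W W' : WeierstrassCurve F) [W.IsElliptic] (C : VariableChange F)
    (h : C • W = W') : W'.toAffine.Point →+ W.toAffine.Point := by
  subst h
  exact vcMap W C

theorem vcMap'_some (W W' : WeierstrassCurve F) [W.IsElliptic] (C : VariableChange F)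
    (h : C • W = W') {x y : F} (hn : W'.toAffine.Nonsingular x y) :
    ∃ hn', vcMap' W W' C h (.some x y hn) = .some (cx C x) (cy C x y) hn' := by
  subst h
  exact ⟨_, rfl⟩

theorem vcMap'_bijective (W W' : WeierstrassCurve F) [W.IsElliptic] (C : VariableChange F)
    (h : C • W = W') : Function.Bijective (vcMap' W W' C h) := by
  subst h
  exact vcMap_bijective W C

end vc

section

variable {K L : Type} [Field K] [Field L] [CharZero K] [CharZero L] [Algebra K L]
  [FiniteDimensional K L] [IsGalois K L] (δ : L) (d : K)

omit [CharZero K] [CharZero L] [FiniteDimensional K L] [IsGalois K L] in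
theorem gal_eq (hL : IntermediateField.adjoin K {δ} = ⊤) (g h : Gal(L/K)) (hgh : g δ = h δ) :
    g = h := by
  have h2 : ∀ x ∈ IntermediateField.adjoin K {δ}, g x = h x := by
    intro x hx
    have h3 : IntermediateField.adjoin K {δ} ≤
        IntermediateField.fixedField (Subgroup.zpowers (h⁻¹ * g)) := by
      rw [IntermediateField.adjoin_le_iff]
      intro w hw
      rw [Set.mem_singleton_iff.1 hw]
      change δ ∈ IntermediateField.fixedField _
      rw [IntermediateField.mem_fixedField_iff]
      intro ρ hρ
      have h4 : h⁻¹ * g ∈ MulAction.stabilizer Gal(L/K) δ := by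
        change h⁻¹ (g δ) = δ
        rw [hgh]
        exact h.symm_apply_apply δ
      exact (Subgroup.zpowers_le.2 h4) hρ
    have h5 := h3 hx
    rw [IntermediateField.mem_fixedField_iff] at h5
    have h6 := h5 _ (Subgroup.mem_zpowers _)
    have h7 : h (h⁻¹ (g x)) = g x := h.apply_symm_apply _
    rw [← h7]
    exact congrArg h h6
  ext x
  exact h2 x (by rw [hL]; trivial)

omit [CharZero K] in
theorem exists_tau (hδ : δ ^ 2 = algebraMap K L d) (hL : IntermediateField.adjoin K {δ} = ⊤)
    (hns : δ ∉ Set.range (algebraMap K L)) :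
    ∃ τ : Gal(L/K), τ δ = -δ ∧ (∀ x, τ (τ x) = x) ∧ ∀ σ : Gal(L/K), σ = 1 ∨ σ = τ := by
  rw [IsGalois.mem_range_algebraMap_iff_fixed] at hns
  push Not at hns
  obtain ⟨τ, hτ⟩ := hns
  have hpm : ∀ σ : Gal(L/K), σ δ = δ ∨ σ δ = -δ := by
    intro σ
    rw [← sq_eq_sq_iff_eq_or_eq_neg, ← map_pow, hδ, AlgEquiv.commutes]
  have h1 : τ δ = -δ := (hpm τ).resolve_left hτ
  refine ⟨τ, h1, fun x => ?_, fun σ => ?_⟩
  · have h2 : τ * τ = 1 := by
      apply gal_eq δ hL
      change τ (τ δ) = δ
      rw [h1, map_neg, h1, neg_neg]
    exact congrArg (fun g : Gal(L/K) => g x) h2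
  · rcases hpm σ with h | h
    · left
      apply gal_eq δ hL
      exact h
    · right
      apply gal_eq δ hL
      rw [h, h1]

/-- The ranks of a curve, of its twist, and of the curve over the quadratic extension. -/
theorem rank_twist (hδ : δ ^ 2 = algebraMap K L d) (hd : d ≠ 0)
    (hL : IntermediateField.adjoin K {δ} = ⊤) (hns : δ ∉ Set.range (algebraMap K L)) (A B : K)
    (hell : (short A B).IsElliptic) :
    mwRank (short A B) + mwRank (short (d ^ 2 * A) (d ^ 3 * B)) =
      mwRank ((short A B).map (algebraMap K L)) := by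
  classical
  obtain ⟨τ, hτδ, hττ, hall⟩ := exists_tau δ d hδ hL hns
  have hδ0 : δ ≠ 0 := by
    rintro rfl
    exact hns ⟨0, map_zero _⟩
  have hd0 : algebraMap K L d ≠ 0 := (map_ne_zero _).2 hd
  set V : WeierstrassCurve K := short A B with hV
  set V' : WeierstrassCurve K := short (d ^ 2 * A) (d ^ 3 * B) with hV'
  have ellL : (V.baseChange L).IsElliptic := inferInstanceAs (V.map (algebraMap K L)).IsElliptic
  let C : VariableChange L := ⟨Units.mk0 δ⁻¹ (inv_ne_zero hδ0), 0, 0, 0⟩
  have hCV : C • (V.baseChange L) = V'.baseChange L := by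
    have e1 : V.baseChange L = short (algebraMap K L A) (algebraMap K L B) := short_map _ _ _
    have e2 : V'.baseChange L = short (algebraMap K L (d ^ 2 * A)) (algebraMap K L (d ^ 3 * B)) :=
      short_map _ _ _
    rw [e1, e2, WeierstrassCurve.variableChange_def]
    have hu : ((C.u⁻¹ : Lˣ) : L) = δ := by
      rw [Units.val_inv_eq_inv_val]
      exact inv_inv δ
    ext
    · simp [short, C]
    · simp [short, C]
    · simp [short, C]
    · simp only [short, hu]
      simp only [C, map_mul, map_pow, ← hδ]
      ring
    · simp only [short, hu]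
      simp only [C, map_mul, map_pow, ← hδ]
      ring
  -- the groups
  let T : (V.baseChange L).toAffine.Point →ₗ[ℤ] (V.baseChange L).toAffine.Point :=
    (Point.map (W' := V) (τ : L →ₐ[K] L)).toIntLinearMap
  have hT : ∀ P, T P = Point.map (W' := V) (τ : L →ₐ[K] L) P := fun P => rfl
  have hTT : ∀ P, T (T P) = P := by
    intro P
    rw [hT, hT, Point.map_map]
    rcases P with _ | ⟨x, y, h⟩
    · rfl
    · rw [Point.map_some]
      congr 1
      · exact hττ x
      · exact hττ y
  have hrk := rank_involution T hTT
  have hK : ∀ x : L, (∀ σ ∈ (⊤ : Subgroup Gal(L/K)), σ x = x) ↔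
      x ∈ Set.range (Algebra.ofId K L) := by
    intro x
    refine Iff.trans ?_ (IsGalois.mem_range_algebraMap_iff_fixed x).symm
    exact ⟨fun h σ => h σ (Subgroup.mem_top σ), fun h σ _ => h σ⟩
  have hKτ : ∀ x : L, τ x = x → x ∈ Set.range (algebraMap K L) := by
    intro x hx
    rw [IsGalois.mem_range_algebraMap_iff_fixed]
    intro σ
    rcases hall σ with rfl | rfl
    · rfl
    · exact hx
  -- the invariants
  have hplus : mwRank V = Module.rank ℤ (LinearMap.ker (T - LinearMap.id)) := by
    obtain ⟨e⟩ := exists_equiv V (⊤ : Subgroup Gal(L/K)) K (Algebra.ofId K L) hK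
    have hE : V.baseChange K = V := V.map_id
    rw [hE] at e
    have h1 : fixedSub (V.baseChange L).toAffine.Point (⊤ : Subgroup Gal(L/K)) =
        LinearMap.ker (T - LinearMap.id) := by
      ext P
      rw [mem_fixedSub, LinearMap.mem_ker, LinearMap.sub_apply, LinearMap.id_apply, sub_eq_zero]
      constructor
      · intro h
        exact h τ (Subgroup.mem_top τ)
      · intro h σ _
        rcases hall σ with rfl | rfl
        · exact one_smul _ _
        · exact h
    rw [mwRank_eq inferInstance, e.rank_eq, h1]
  -- the other eigenspace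
  have hminus : mwRank V' = Module.rank ℤ (LinearMap.ker (T + LinearMap.id)) := by
    have hE : V'.baseChange K = V' := V'.map_id
    rw [mwRank_eq inferInstance, ← hE]
    let Φ : (V'.baseChange K).toAffine.Point →ₗ[ℤ] (V.baseChange L).toAffine.Point :=
      ((vcMap' (V.baseChange L) (V'.baseChange L) C hCV).comp
        (Point.map (W' := V') (Algebra.ofId K L))).toIntLinearMap
    have hΦ : ∀ Q, Φ Q = vcMap' (V.baseChange L) (V'.baseChange L) C hCV
      (Point.map (W' := V') (Algebra.ofId K L) Q) := fun Q => rfl
    have hu : (C.u : L) = δ⁻¹ := rfl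
    have hcx : ∀ x, cx C x = x / δ ^ 2 := by
      intro x
      unfold cx
      rw [hu]
      simp only [C, add_zero]
      field_simp
    have hcy : ∀ x y, cy C x y = y / δ ^ 3 := by
      intro x y
      unfold cy
      rw [hu]
      simp only [C, add_zero, mul_zero, zero_mul]
      field_simp
    have hnegY : ∀ x y : L, (V.baseChange L).toAffine.negY x y = -y := by
      intro x y
      have e1 : V.baseChange L = short (algebraMap K L A) (algebraMap K L B) := short_map _ _ _
      rw [e1]
      simp [negY, short]
    have hmem : ∀ Q, Φ Q ∈ LinearMap.ker (T + LinearMap.id) := by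
      intro Q
      rw [LinearMap.mem_ker, LinearMap.add_apply, LinearMap.id_apply, add_eq_zero_iff_eq_neg]
      rcases Q with _ | ⟨x, y, h⟩
      · change T (Φ 0) = -Φ 0
        rw [map_zero, map_zero, neg_zero]
      · rw [hΦ, Point.map_some]
        obtain ⟨hn, he⟩ := vcMap'_some (V.baseChange L) (V'.baseChange L) C hCV
          ((V'.toAffine.baseChange_nonsingular (Algebra.ofId K L).injective ..).mpr h)
        rw [he, hT, Point.map_some, Point.neg_some]
        simp only [Point.some.injEq]
        rw [hnegY, hcx, hcy]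
        have hx : τ (Algebra.ofId K L x) = Algebra.ofId K L x := τ.commutes x
        have hy : τ (Algebra.ofId K L y) = Algebra.ofId K L y := τ.commutes y
        constructor
        · change τ (_ / _) = _
          rw [map_div₀, map_pow, hτδ, hx, neg_sq]
        · change τ (_ / _) = _
          rw [map_div₀, map_pow, hτδ, hy]
          rw [Odd.neg_pow (by decide), div_neg]
    let Φ' : (V'.baseChange K).toAffine.Point →ₗ[ℤ] LinearMap.ker (T + LinearMap.id) :=
      Φ.codRestrict _ hmem
    refine (LinearEquiv.ofBijective Φ' ⟨?_, ?_⟩).rank_eq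
    · intro Q Q' h
      apply Point.map_injective (W' := V') (Algebra.ofId K L)
      apply (vcMap'_bijective (V.baseChange L) (V'.baseChange L) C hCV).1
      exact congrArg Subtype.val h
    · rintro ⟨P, hP⟩
      rw [LinearMap.mem_ker, LinearMap.add_apply, LinearMap.id_apply,
        add_eq_zero_iff_eq_neg] at hP
      obtain ⟨Q, hQ⟩ := (vcMap'_bijective (V.baseChange L) (V'.baseChange L) C hCV).2 P
      rcases Q with _ | ⟨x, y, hn⟩
      · refine ⟨0, Subtype.ext ?_⟩
        exact (map_zero Φ).trans ((map_zero _).symm.trans hQ)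
      · obtain ⟨hn', he⟩ := vcMap'_some (V.baseChange L) (V'.baseChange L) C hCV hn
        rw [he] at hQ
        rw [← hQ, hT, Point.map_some, Point.neg_some] at hP
        obtain ⟨h1, h2⟩ := Point.some.inj hP
        rw [hnegY] at h2
        rw [hcx] at h1
        rw [hcy] at h2
        have hx : τ x = x := by
          have h3 : τ (x / δ ^ 2) = x / δ ^ 2 := h1
          rw [map_div₀, map_pow, hτδ, neg_sq, div_left_inj' (pow_ne_zero 2 hδ0)] at h3
          exact h3
        have hy : τ y = y := by
          have h3 : τ (y / δ ^ 3) = -(y / δ ^ 3) := h2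
          rw [map_div₀, map_pow, hτδ, Odd.neg_pow (by decide), div_neg, neg_inj,
            div_left_inj' (pow_ne_zero 3 hδ0)] at h3
          exact h3
        obtain ⟨a, rfl⟩ := hKτ x hx
        obtain ⟨b, rfl⟩ := hKτ y hy
        refine ⟨Point.some a b
          ((V'.toAffine.baseChange_nonsingular (Algebra.ofId K L).injective ..).1 hn), ?_⟩
        apply Subtype.ext
        change Φ _ = P
        rw [hΦ, Point.map_some, ← hQ]
        exact he
  rw [hplus, hminus, mwRank_eq inferInstance]
  exact hrk

end

end Pool.Agent.MP_3d3918
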