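import Pool.Agent.Lib.MP_3d3918_nt.Invariance

/-!
# Quadratic twists: preparations
-/

set_option autoImplicit false

open Filter Topology

namespace Pool.Agent.MP_3d3918

/-- A short Weierstrass equation. -/
def short {R : Type} [CommRing R] (A B : R) : WeierstrassCurve R := ⟨0, 0, 0, A, B⟩

theorem short_map {R S : Type} [CommRing R] [CommRing S] (f : R →+* S) (A B : R) :
    (short A B).map f = short (f A) (f B) := by
  ext <;> simp [short, WeierstrassCurve.map]

theorem short_equation {R : Type} [CommRing R] (A B x y : R) :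
    (short A B).toAffine.Equation x y ↔ y ^ 2 = x ^ 3 + A * x + B := by
  rw [WeierstrassCurve.Affine.equation_iff]
  simp [short]

theorem short_Δ {R : Type} [CommRing R] (A B : R) :
    (short A B).Δ = -16 * (4 * A ^ 3 + 27 * B ^ 2) := by
  simp [short, WeierstrassCurve.Δ, WeierstrassCurve.b₂, WeierstrassCurve.b₄, WeierstrassCurve.b₆,
    WeierstrassCurve.b₈]
  ring

section finite

variable {p : ℕ} [Fact p.Prime]

theorem trace_short (hp : p ≠ 2) (A B : ZMod p) :
    trace p (short A B) = - ∑ x : ZMod p, quadraticChar (ZMod p) (x ^ 3 + A * x + B) := by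
  classical
  have hF : ringChar (ZMod p) ≠ 2 := by rwa [ZMod.ringChar_zmod_n]
  have h1 : (Nat.card {q : ZMod p × ZMod p // (short A B).toAffine.Equation q.1 q.2} : ℤ) =
      ∑ x : ZMod p, (quadraticChar (ZMod p) (x ^ 3 + A * x + B) + 1) := by
    rw [Nat.card_congr (Equiv.subtypeProdEquivSigmaSubtype
      (fun x y => (short A B).toAffine.Equation x y)), Nat.card_sigma]
    push_cast
    refine Finset.sum_congr rfl fun x _ => ?_
    rw [← quadraticChar_card_sqrts hF, Nat.card_eq_fintype_card, Fintype.card_subtype]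
    congr 2
    ext y
    simp [short_equation]
  unfold trace
  rw [h1, Finset.sum_add_distrib]
  simp

/-- The trace of a twist. -/
theorem trace_twist (hp : p ≠ 2) (A B d : ZMod p) (hd : d ≠ 0) :
    (Nat.card {e : ZMod p // e ^ 2 = d} : ℤ) * trace p (short A B) =
      trace p (short A B) + trace p (short (d ^ 2 * A) (d ^ 3 * B)) := by
  classical
  have hF : ringChar (ZMod p) ≠ 2 := by rwa [ZMod.ringChar_zmod_n]
  have h1 : (Nat.card {e : ZMod p // e ^ 2 = d} : ℤ) = quadraticChar (ZMod p) d + 1 := by
    rw [← quadraticChar_card_sqrts hF, Nat.card_eq_fintype_card, Fintype.card_subtype]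
    congr 2
    ext y
    simp
  have h2 : trace p (short (d ^ 2 * A) (d ^ 3 * B)) =
      quadraticChar (ZMod p) d * trace p (short A B) := by
    rw [trace_short hp, trace_short hp, mul_neg, Finset.mul_sum]
    congr 1
    symm
    refine Fintype.sum_bijective (fun x : ZMod p => d * x) (mulLeft_bijective₀ d hd) _ _ ?_
    intro x
    have h3 : (d * x) ^ 3 + d ^ 2 * A * (d * x) + d ^ 3 * B = d ^ 2 * (d * (x ^ 3 + A * x + B)) := by
      ring
    rw [h3, map_mul, map_mul, quadraticChar_sq_one' hd, one_mul]
  rw [h1, h2]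
  ring

end finite

section rank

variable {A : Type} [AddCommGroup A]

/-- The ranks of the two eigenspaces of an involution. -/
theorem rank_involution (τ : A →ₗ[ℤ] A) (hτ : ∀ a, τ (τ a) = a) :
    Module.rank ℤ (LinearMap.ker (τ - LinearMap.id)) +
      Module.rank ℤ (LinearMap.ker (τ + LinearMap.id)) = Module.rank ℤ A := by
  have h0 := LinearMap.rank_range_add_rank_ker (R := ℤ) (M := A) (M₁ := A) (τ + LinearMap.id)
  rw [← h0]
  congr 1
  apply le_antisymm
  · let g : LinearMap.ker (τ - LinearMap.id) →ₗ[ℤ] LinearMap.range (τ + LinearMap.id) :=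
      (τ + LinearMap.id).rangeRestrict.comp (LinearMap.ker (τ - LinearMap.id)).subtype
    rw [← LinearMap.rank_range_add_rank_ker g]
    have h1 : Module.rank ℤ (LinearMap.ker g) = 0 := by
      rw [rank_eq_zero_iff]
      rintro ⟨⟨a, ha⟩, hg⟩
      refine ⟨2, two_ne_zero, ?_⟩
      apply Subtype.ext
      apply Subtype.ext
      rw [LinearMap.mem_ker] at ha hg
      have h2 : τ a = a := by
        rw [LinearMap.sub_apply, LinearMap.id_apply, sub_eq_zero] at ha
        exact ha
      have h3 : τ a + a = 0 := congrArg Subtype.val hg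
      rw [h2] at h3
      change (2 : ℤ) • a = 0
      rw [two_smul]
      exact h3
    rw [h1, add_zero]
    exact Submodule.rank_le _
  · apply Submodule.rank_mono
    rintro _ ⟨a, rfl⟩
    rw [LinearMap.mem_ker]
    simp only [LinearMap.sub_apply, LinearMap.add_apply, LinearMap.id_apply, map_add, hτ]
    abel

end rank

end Pool.Agent.MP_3d3918
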